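import Mathlib

set_option autoImplicit false

open MeasureTheory ProbabilityTheory
open scoped NNReal ENNReal

namespace Pool.Agent.P.MP_429aeb_pr.Ex

/-- two singular values with known sum of squares and product -/
theorem two_real {s t p q b c ε x : ℝ} (hs : 0 ≤ s) (ht : 0 ≤ t)
    (h1 : s ^ 2 + t ^ 2 = p ^ 2 + b ^ 2 + c ^ 2 + q ^ 2) (h2 : s ^ 2 * t ^ 2 = (p * q - b * c) ^ 2)
    (h3 : |p - q| ≤ ε) (h4 : |b + c| ≤ ε) (h5 : 1 ≤ p + q) (h6 : ε ≤ 1 / 8) (hx : 0 < x)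
    (h7 : 8 * ε * x = 1) : s - t ≤ t / x := by
  have hε : 0 ≤ ε := (abs_nonneg _).trans h3
  have a1 : s * t = |p * q - b * c| := by
    rw [← abs_of_nonneg (mul_nonneg hs ht), ← sq_eq_sq_iff_abs_eq_abs, mul_pow, h2]
  have a2 := le_abs_self (p * q - b * c)
  have a3 : (p - q) ^ 2 ≤ ε ^ 2 := sq_le_sq' (abs_le.1 h3).1 (abs_le.1 h3).2
  have a4 : (b + c) ^ 2 ≤ ε ^ 2 := sq_le_sq' (abs_le.1 h4).1 (abs_le.1 h4).2
  have a5 : (s - t) ^ 2 ≤ (3 / 2 * ε) ^ 2 := by nlinarith [sq_nonneg ε]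
  have a6 : s - t ≤ 3 / 2 * ε := (abs_le_of_sq_le_sq' a5 (by positivity)).2
  have a7 : (p + q) ^ 2 ≤ (s + t) ^ 2 := by nlinarith [sq_nonneg (b - c)]
  have a8 : p + q ≤ s + t := (abs_le_of_sq_le_sq' a7 (by positivity)).2
  rw [le_div_iff₀ hx]
  have a9 := mul_le_mul_of_nonneg_right a6 hx.le
  linarith

/-- the event of the problem -/
def Ev {m n : ℕ} (Abar : Matrix (Fin m) (Fin n) ℝ) (x : ℝ) : Set (Fin m → Fin n → ℝ) :=
  {G : Fin m → Fin n → ℝ | ∃ j k : Fin m, j ≠ k ∧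
    Real.sqrt ((Matrix.isHermitian_mul_conjTranspose_self (Abar + Matrix.of G)).eigenvalues k)
      ≤ Real.sqrt
        ((Matrix.isHermitian_mul_conjTranspose_self (Abar + Matrix.of G)).eigenvalues j) ∧
    Real.sqrt ((Matrix.isHermitian_mul_conjTranspose_self (Abar + Matrix.of G)).eigenvalues j)
      - Real.sqrt
        ((Matrix.isHermitian_mul_conjTranspose_self (Abar + Matrix.of G)).eigenvalues k)
      ≤ Real.sqrt
        ((Matrix.isHermitian_mul_conjTranspose_self (Abar + Matrix.of G)).eigenvalues k) / x}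

/-- half the identity -/
noncomputable def A0 : Matrix (Fin 2) (Fin 2) ℝ := !![1 / 2, 0; 0, 1 / 2]

theorem two_mat (A : Matrix (Fin 2) (Fin 2) ℝ) {ε x : ℝ} (b3 : |A 0 0 - A 1 1| ≤ ε)
    (b4 : |A 0 1 + A 1 0| ≤ ε) (b5 : 1 ≤ A 0 0 + A 1 1) (h6 : ε ≤ 1 / 8) (hx : 0 < x)
    (h7 : 8 * ε * x = 1) : ∃ j k : Fin 2, j ≠ k ∧
    Real.sqrt ((Matrix.isHermitian_mul_conjTranspose_self A).eigenvalues k)
      ≤ Real.sqrt ((Matrix.isHermitian_mul_conjTranspose_self A).eigenvalues j) ∧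
    Real.sqrt ((Matrix.isHermitian_mul_conjTranspose_self A).eigenvalues j)
      - Real.sqrt ((Matrix.isHermitian_mul_conjTranspose_self A).eigenvalues k)
      ≤ Real.sqrt ((Matrix.isHermitian_mul_conjTranspose_self A).eigenvalues k) / x := by
  have hH := Matrix.isHermitian_mul_conjTranspose_self A
  have hn : ∀ i, 0 ≤ hH.eigenvalues i :=
    (Matrix.posSemidef_self_mul_conjTranspose A).eigenvalues_nonneg
  have h1 := hH.trace_eq_sum_eigenvalues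
  have h2 := hH.det_eq_prod_eigenvalues
  rw [Matrix.det_mul, Matrix.det_conjTranspose, Matrix.det_fin_two, Fin.prod_univ_two] at h2
  rw [Matrix.trace_fin_two, Fin.sum_univ_two] at h1
  simp only [Matrix.mul_apply, Fin.sum_univ_two, Matrix.conjTranspose_apply, star_trivial,
    RCLike.ofReal_real_eq_id, id] at h1 h2
  have s0 := Real.sq_sqrt (hn 0)
  have s1 := Real.sq_sqrt (hn 1)
  rcases le_total √(hH.eigenvalues 1) √(hH.eigenvalues 0) with c | c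
  · exact ⟨0, 1, by decide, c, two_real (Real.sqrt_nonneg _) (Real.sqrt_nonneg _)
      (by rw [s0, s1]; linarith) (by rw [s0, s1]; linarith) b3 b4 b5 h6 hx h7⟩
  · exact ⟨1, 0, by decide, c, two_real (Real.sqrt_nonneg _) (Real.sqrt_nonneg _)
      (by rw [s0, s1]; linarith) (by rw [s0, s1]; linarith) b3 b4 b5 h6 hx h7⟩

theorem mem_ev {G : Fin 2 → Fin 2 → ℝ} {ε x : ℝ} (h3 : |G 0 0 - G 1 1| ≤ ε)
    (h4 : |G 0 1 + G 1 0| ≤ ε) (h5 : 0 ≤ G 0 0 + G 1 1) (h6 : ε ≤ 1 / 8) (hx : 0 < x)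
    (h7 : 8 * ε * x = 1) : G ∈ Ev A0 x := by
  have e00 : (A0 + Matrix.of G) 0 0 = 1 / 2 + G 0 0 := rfl
  have e01 : (A0 + Matrix.of G) 0 1 = 0 + G 0 1 := rfl
  have e10 : (A0 + Matrix.of G) 1 0 = 0 + G 1 0 := rfl
  have e11 : (A0 + Matrix.of G) 1 1 = 1 / 2 + G 1 1 := rfl
  refine two_mat (A0 + Matrix.of G) (ε := ε) ?_ ?_ ?_ h6 hx h7
  · rw [e00, e11, add_sub_add_left_eq_sub]; exact h3
  · rw [e01, e10, zero_add, zero_add]; exact h4
  · rw [e00, e11]; linarith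

theorem gauss_ge {σ : ℝ≥0} (hσ : 0 < σ) {l ε : ℝ} (h1 : -(σ : ℝ) ≤ l) (h2 : l + ε ≤ σ) :
    ENNReal.ofReal (1 / (6 * σ)) * ENNReal.ofReal ε ≤ gaussianReal 0 (σ ^ 2) (Set.Ico l (l + ε)) := by
  have hσ' : (0 : ℝ) < σ := hσ
  rw [gaussianReal_of_var_ne_zero _ (pow_pos hσ 2).ne', withDensity_apply _ measurableSet_Ico]
  have e : ENNReal.ofReal ε = volume (Set.Ico l (l + ε)) := by simp
  rw [e, ← setLIntegral_const]
  refine setLIntegral_mono' measurableSet_Ico fun y hy => ?_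
  rw [gaussianPDF]
  refine ENNReal.ofReal_le_ofReal ?_
  rw [gaussianPDFReal]
  have a1 : y ^ 2 ≤ (σ : ℝ) ^ 2 := sq_le_sq' (by linarith [hy.1]) (by linarith [hy.2])
  have a2 : 1 / 2 ≤ Real.exp (-(y - 0) ^ 2 / (2 * ((σ ^ 2 : ℝ≥0) : ℝ))) := by
    refine le_trans ?_ (Real.add_one_le_exp _)
    have : -(1 / 2) ≤ -(y - 0) ^ 2 / (2 * ((σ ^ 2 : ℝ≥0) : ℝ)) := by
      rw [le_div_iff₀ (by positivity), NNReal.coe_pow]
      linarith
    linarith
  have a3 : √(2 * Real.pi * ((σ ^ 2 : ℝ≥0) : ℝ)) ≤ 3 * σ := by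
    rw [Real.sqrt_le_left (by positivity), NNReal.coe_pow]
    nlinarith [Real.pi_lt_four, sq_nonneg (σ : ℝ)]
  have a4 : 0 < √(2 * Real.pi * ((σ ^ 2 : ℝ≥0) : ℝ)) := Real.sqrt_pos.2 (by positivity)
  have a5 : (3 * (σ : ℝ))⁻¹ ≤ (√(2 * Real.pi * ((σ ^ 2 : ℝ≥0) : ℝ)))⁻¹ := inv_anti₀ a4 a3
  calc 1 / (6 * (σ : ℝ)) = (3 * (σ : ℝ))⁻¹ * (1 / 2) := by field_simp; norm_num
    _ ≤ _ := mul_le_mul a5 a2 (by norm_num) (by positivity)

/-- left end points of the boxes -/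
def lo (ε : ℝ) (z : ℕ × ℕ) : Fin 2 → Fin 2 → ℝ :=
  ![![z.1 * ε, z.2 * ε], ![-((z.2 + 1) * ε), z.1 * ε]]

def Box (ε : ℝ) (z : ℕ × ℕ) : Set (Fin 2 → Fin 2 → ℝ) :=
  Set.univ.pi fun r => Set.univ.pi fun s => Set.Ico (lo ε z r s) (lo ε z r s + ε)

theorem nat_eq {ε y : ℝ} (hε : 0 < ε) {i j : ℕ} (h1 : y ∈ Set.Ico (i * ε) (i * ε + ε))
    (h2 : y ∈ Set.Ico (j * ε) (j * ε + ε)) : i = j := by
  have a1 : (i : ℝ) < j + 1 := lt_of_mul_lt_mul_right (by linarith [h1.1, h2.2]) hε.le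
  have a2 : (j : ℝ) < i + 1 := lt_of_mul_lt_mul_right (by linarith [h2.1, h1.2]) hε.le
  have b1 : i < j + 1 := by exact_mod_cast a1
  have b2 : j < i + 1 := by exact_mod_cast a2
  omega

theorem lower {σ : ℝ≥0} (hσ : 0 < σ) (hσ1 : σ ≤ 1) {N : ℕ} (hN : 9 ≤ N) :
    ENNReal.ofReal (1 / (1296 * (N : ℝ) ^ 2)) ≤
      (Measure.pi (fun _ : Fin 2 => Measure.pi (fun _ : Fin 2 => gaussianReal 0 (σ ^ 2))))
        (Ev A0 (N / (8 * σ))) := by
  have hσ' : (0 : ℝ) < σ := hσ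
  have hσ1' : (σ : ℝ) ≤ 1 := hσ1
  have hN' : (9 : ℝ) ≤ N := by exact_mod_cast hN
  obtain ⟨ε, hε⟩ : ∃ ε : ℝ, ε = σ / N := ⟨_, rfl⟩
  have hε0 : 0 < ε := by rw [hε]; positivity
  have hεN : N * ε = σ := by rw [hε]; field_simp
  have hε8 : ε ≤ 1 / 8 := by nlinarith
  have hsub : (⋃ z ∈ Finset.range N ×ˢ Finset.range N, Box ε z) ⊆ Ev A0 (N / (8 * σ)) := by
    intro G hG
    simp only [Set.mem_iUnion] at hG
    obtain ⟨z, -, hz⟩ := hG
    have a00 : G 0 0 ∈ Set.Ico (z.1 * ε) (z.1 * ε + ε) := hz 0 trivial 0 trivial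
    have a01 : G 0 1 ∈ Set.Ico (z.2 * ε) (z.2 * ε + ε) := hz 0 trivial 1 trivial
    have a10 : G 1 0 ∈ Set.Ico (-((z.2 + 1) * ε)) (-((z.2 + 1) * ε) + ε) := hz 1 trivial 0 trivial
    have a11 : G 1 1 ∈ Set.Ico (z.1 * ε) (z.1 * ε + ε) := hz 1 trivial 1 trivial
    have p1 : 0 ≤ (z.1 : ℝ) * ε := by positivity
    refine mem_ev (ε := ε) (abs_le.2 ⟨?_, ?_⟩) (abs_le.2 ⟨?_, ?_⟩) ?_ hε8 (by positivity) ?_
    · linarith [a00.1, a11.2]
    · linarith [a00.2, a11.1]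
    · linarith [a01.1, a10.1]
    · linarith [a01.2, a10.2]
    · linarith [a00.1, a11.1]
    · rw [hε]; field_simp
  refine le_trans ?_ (measure_mono hsub)
  rw [measure_biUnion_finset]
  · have hb : ∀ z ∈ Finset.range N ×ˢ Finset.range N, ENNReal.ofReal ((1 / (6 * N)) ^ 4) ≤
        (Measure.pi (fun _ : Fin 2 => Measure.pi (fun _ : Fin 2 => gaussianReal 0 (σ ^ 2))))
          (Box ε z) := by
      intro z hz
      obtain ⟨z1, z2⟩ := Finset.mem_product.1 hz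
      have c1 : (z.1 : ℝ) + 1 ≤ N := by exact_mod_cast Finset.mem_range.1 z1
      have c2 : (z.2 : ℝ) + 1 ≤ N := by exact_mod_cast Finset.mem_range.1 z2
      have d1 := mul_le_mul_of_nonneg_right c1 hε0.le
      have d2 := mul_le_mul_of_nonneg_right c2 hε0.le
      have p1 : 0 ≤ (z.1 : ℝ) * ε := by positivity
      have p2 : 0 ≤ (z.2 : ℝ) * ε := by positivity
      have key : ∀ r s, ENNReal.ofReal (1 / (6 * N)) ≤
          gaussianReal 0 (σ ^ 2) (Set.Ico (lo ε z r s) (lo ε z r s + ε)) := by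
        intro r s
        have e : ENNReal.ofReal (1 / (6 * N)) = ENNReal.ofReal (1 / (6 * σ)) * ENNReal.ofReal ε := by
          rw [← ENNReal.ofReal_mul (by positivity), hε]
          congr 1
          field_simp
        rw [e]
        refine gauss_ge hσ ?_ ?_ <;> fin_cases r <;> fin_cases s <;> simp [lo] <;> linarith
      rw [Box, Measure.pi_pi]
      simp only [Measure.pi_pi, Fin.prod_univ_two]
      rw [ENNReal.ofReal_pow (by positivity)]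
      calc ENNReal.ofReal (1 / (6 * N)) ^ 4 = ENNReal.ofReal (1 / (6 * N)) *
            ENNReal.ofReal (1 / (6 * N)) * (ENNReal.ofReal (1 / (6 * N)) *
              ENNReal.ofReal (1 / (6 * N))) := by ring
        _ ≤ _ := mul_le_mul' (mul_le_mul' (key 0 0) (key 0 1)) (mul_le_mul' (key 1 0) (key 1 1))
    refine le_trans ?_ (Finset.card_nsmul_le_sum _ _ _ hb)
    rw [Finset.card_product, Finset.card_range, nsmul_eq_mul, ← ENNReal.ofReal_natCast,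
      ← ENNReal.ofReal_mul (by positivity)]
    refine ENNReal.ofReal_le_ofReal (le_of_eq ?_)
    push_cast
    field_simp
    norm_num
  · intro z _ w _ hzw
    refine Set.disjoint_left.2 fun G h1 h2 => hzw (Prod.ext ?_ ?_)
    · exact nat_eq hε0 (h1 0 trivial 0 trivial) (h2 0 trivial 0 trivial)
    · exact nat_eq hε0 (h1 0 trivial 1 trivial) (h2 0 trivial 1 trivial)
  · exact fun z _ => MeasurableSet.univ_pi fun _ => MeasurableSet.univ_pi fun _ => measurableSet_Ico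

end Pool.Agent.P.MP_429aeb_pr.Ex
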