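import Pool.Agent.P.MP_429aeb_pr.GpMain
import Pool.Agent.P.MP_429aeb_pr.ExLow

set_option autoImplicit false

open MeasureTheory ProbabilityTheory Filter Topology
open scoped NNReal ENNReal

namespace Pool.Agent.P.MP_429aeb_pr.Ex

/-- the bound of the problem with given constants -/
def Bd (c k₁ k₂ k₃ : ℝ) : Prop :=
  ∀ m n : ℕ, m ≤ n → ∀ Abar : Matrix (Fin m) (Fin n) ℝ, (∑ i, ∑ j, Abar i j ^ 2) ≤ 1 →
    ∀ σ : ℝ≥0, 0 < σ → σ ≤ 1 → ∀ x : ℝ, 1 < x →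
      (Measure.pi (fun _ : Fin m => Measure.pi (fun _ : Fin n => gaussianReal 0 (σ ^ 2))))
        (Ev Abar x) ≤ ENNReal.ofReal (c * (n : ℝ) ^ k₁ * x ^ (-k₂) * (σ : ℝ) ^ (-k₃))

theorem upper {k₂ k₃ : ℝ} (h0 : 0 < k₂) (h2 : k₂ ≤ 2) (h3 : k₂ ≤ k₃) :
    Bd 2 (3 * k₂ / 2) k₂ k₃ := by
  intro m n hmn Abar hA σ hσ hσ1 x hx
  have hx0 : 0 < x := by linarith
  have hσ' : (0 : ℝ) < σ := hσ
  have hσ1' : (σ : ℝ) ≤ 1 := hσ1
  have h := Gp429.rel_gap_le (v := σ ^ 2) (pow_pos hσ 2).ne' (Fin.castLEEmb hmn)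
    (fun i j => Abar i j) hx0
  simp only [Fintype.card_fin, Gp429.ip, ← pow_two, NNReal.coe_pow] at h
  rw [← ofReal_measureReal (measure_ne_top _ _)]
  refine ENNReal.ofReal_le_ofReal ?_
  have hP : (Measure.pi (fun _ : Fin m => Measure.pi (fun _ : Fin n => gaussianReal 0 (σ ^ 2)))).real
      (Ev Abar x) ≤ ((m : ℝ) - 1) * ((∑ i, ∑ j, Abar i j ^ 2) / (σ : ℝ) ^ 2 + m * n) / x ^ 2 := h
  have hP1 : (Measure.pi (fun _ : Fin m => Measure.pi (fun _ : Fin n => gaussianReal 0 (σ ^ 2)))).real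
      (Ev Abar x) ≤ 1 := measureReal_le_one
  have hP0 : 0 ≤ (Measure.pi (fun _ : Fin m =>
      Measure.pi (fun _ : Fin n => gaussianReal 0 (σ ^ 2)))).real (Ev Abar x) := measureReal_nonneg
  generalize (Measure.pi (fun _ : Fin m =>
      Measure.pi (fun _ : Fin n => gaussianReal 0 (σ ^ 2)))).real (Ev Abar x) = P at *
  have hS0 : 0 ≤ ∑ i, ∑ j, Abar i j ^ 2 := by positivity
  generalize (∑ i, ∑ j, Abar i j ^ 2) = S at *
  have hm : (m : ℝ) ≤ n := by exact_mod_cast hmn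
  have hm0 : (0 : ℝ) ≤ m := Nat.cast_nonneg _
  have hn0 : (0 : ℝ) ≤ n := Nat.cast_nonneg _
  have hs2 : (σ : ℝ) ^ 2 ≤ 1 := pow_le_one₀ hσ'.le hσ1'
  have hs0 : 0 < (σ : ℝ) ^ 2 := by positivity
  have hB : P ≤ 2 * (n : ℝ) ^ 3 / (x ^ 2 * σ ^ 2) := by
    refine hP.trans ?_
    rw [div_le_div_iff₀ (by positivity) (by positivity)]
    have a0 : ((m : ℝ) - 1) * (S / σ ^ 2 + m * n) * σ ^ 2 ≤ 2 * (n : ℝ) ^ 3 := by
      have e : ((m : ℝ) - 1) * (S / σ ^ 2 + m * n) * σ ^ 2 = (m - 1) * (S + m * n * σ ^ 2) := by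
        field_simp
      rw [e]
      have b0 : 0 ≤ (m : ℝ) * n * σ ^ 2 := by positivity
      rcases Nat.eq_zero_or_pos n with rfl | hn
      · have : (m : ℝ) = 0 := by simpa using hmn
        rw [this]; simp; exact hS0
      · have hn1 : (1 : ℝ) ≤ n := by exact_mod_cast hn
        have b1 : (m : ℝ) * n * σ ^ 2 ≤ n * n * 1 :=
          mul_le_mul (mul_le_mul_of_nonneg_right hm hn0) hs2 hs0.le (by positivity)
        have b2 : ((m : ℝ) - 1) * (S + m * n * σ ^ 2) ≤ n * (S + m * n * σ ^ 2) :=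
          mul_le_mul_of_nonneg_right (by linarith) (by linarith)
        have b3 : (n : ℝ) * (S + m * n * σ ^ 2) ≤ n * (n * n + n * n) :=
          mul_le_mul_of_nonneg_left (by nlinarith) hn0
        linarith
    have a1 := mul_le_mul_of_nonneg_right a0 (sq_nonneg x)
    linarith
  have h4 : P ≤ P ^ (k₂ / 2) := by
    have := Real.rpow_le_rpow_of_exponent_ge' hP0 hP1 (by linarith : 0 ≤ k₂ / 2)
      (by linarith : k₂ / 2 ≤ 1)
    rwa [Real.rpow_one] at this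
  have h5 := h4.trans (Real.rpow_le_rpow hP0 hB (by linarith))
  have e1 : (2 * (n : ℝ) ^ 3 / (x ^ 2 * σ ^ 2)) ^ (k₂ / 2)
      = 2 ^ (k₂ / 2) * (n : ℝ) ^ (3 * k₂ / 2) * x ^ (-k₂) * (σ : ℝ) ^ (-k₂) := by
    rw [Real.div_rpow (by positivity) (by positivity), Real.mul_rpow (by norm_num) (by positivity),
      Real.mul_rpow (by positivity) (by positivity), ← Real.rpow_natCast, ← Real.rpow_natCast x,
      ← Real.rpow_natCast (σ : ℝ), ← Real.rpow_mul hn0, ← Real.rpow_mul hx0.le,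
      ← Real.rpow_mul hσ'.le, Real.rpow_neg hx0.le, Real.rpow_neg hσ'.le]
    have f1 : ((3 : ℕ) : ℝ) * (k₂ / 2) = 3 * k₂ / 2 := by push_cast; ring
    have f2 : ((2 : ℕ) : ℝ) * (k₂ / 2) = k₂ := by push_cast; ring
    rw [f1, f2]
    field_simp
  rw [e1] at h5
  refine h5.trans (mul_le_mul (mul_le_mul_of_nonneg_right (mul_le_mul_of_nonneg_right ?_
    (by positivity)) (by positivity)) ?_ (by positivity) (by positivity))
  · have := Real.rpow_le_rpow_of_exponent_le (by norm_num : (1 : ℝ) ≤ 2)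
      (by linarith : k₂ / 2 ≤ 1)
    rwa [Real.rpow_one] at this
  · exact Real.rpow_le_rpow_of_exponent_ge hσ' hσ1' (by linarith)

theorem use {c k₁ k₂ k₃ : ℝ} (hc : 0 < c) (h : Bd c k₁ k₂ k₃) {σ : ℝ≥0} (hσ : 0 < σ) (hσ1 : σ ≤ 1)
    {N : ℕ} (hN : 9 ≤ N) :
    1 / (1296 * (N : ℝ) ^ 2) ≤ c * 2 ^ k₁ * (N / (8 * σ) : ℝ) ^ (-k₂) * (σ : ℝ) ^ (-k₃) := by
  have hσ' : (0 : ℝ) < σ := hσ
  have hσ1' : (σ : ℝ) ≤ 1 := hσ1
  have hN' : (9 : ℝ) ≤ N := by exact_mod_cast hN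
  have h1 := (lower hσ hσ1 hN).trans (h 2 2 le_rfl A0
    (by simp [A0, Fin.sum_univ_two]; norm_num) σ hσ hσ1 _
    (by rw [lt_div_iff₀ (by positivity)]; linarith))
  rw [ENNReal.ofReal_le_ofReal_iff (by positivity)] at h1
  exact_mod_cast h1

theorem need_two {c k₁ k₂ k₃ : ℝ} (hc : 0 < c) (h : Bd c k₁ k₂ k₃) : k₂ ≤ 2 := by
  by_contra hk
  have hk' : 0 < k₂ - 2 := by linarith [not_le.1 hk]
  have ht : Tendsto (fun N : ℕ => 1296 * (c * 2 ^ k₁ * 8 ^ k₂) * (N : ℝ) ^ (-(k₂ - 2))) atTop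
      (𝓝 (1296 * (c * 2 ^ k₁ * 8 ^ k₂) * 0)) :=
    ((tendsto_rpow_neg_atTop hk').comp tendsto_natCast_atTop_atTop).const_mul _
  rw [mul_zero] at ht
  obtain ⟨N, h1, h2⟩ := ((ht.eventually (gt_mem_nhds zero_lt_one)).and
    (eventually_ge_atTop 9)).exists
  have h3 := use hc h (σ := 1) one_pos le_rfl h2
  have hN : (0 : ℝ) < N := by exact_mod_cast (by omega : 0 < N)
  rw [NNReal.coe_one, Real.one_rpow, mul_one, mul_one, div_le_iff₀ (by positivity),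
    Real.div_rpow hN.le (by norm_num), Real.rpow_neg (by norm_num : (0 : ℝ) ≤ 8)] at h3
  have e : (N : ℝ) ^ (-(k₂ - 2)) = (N : ℝ) ^ (-k₂) * (N : ℝ) ^ 2 := by
    rw [← Real.rpow_natCast, ← Real.rpow_add hN]
    congr 1
    push_cast
    ring
  rw [e] at h1
  rw [div_inv_eq_mul] at h3
  linarith

theorem need_le {c k₁ k₂ k₃ : ℝ} (hc : 0 < c) (h : Bd c k₁ k₂ k₃) : k₂ ≤ k₃ := by
  by_contra hk
  have hk' : 0 < k₂ - k₃ := by linarith [not_le.1 hk]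
  have ht : Tendsto (fun N : ℕ => c * 2 ^ k₁ * (9 / 8 : ℝ) ^ (-k₂) * (N : ℝ) ^ (-(k₂ - k₃))) atTop
      (𝓝 (c * 2 ^ k₁ * (9 / 8 : ℝ) ^ (-k₂) * 0)) :=
    ((tendsto_rpow_neg_atTop hk').comp tendsto_natCast_atTop_atTop).const_mul _
  rw [mul_zero] at ht
  obtain ⟨M, h1, h2⟩ := ((ht.eventually
    (gt_mem_nhds (by norm_num : (0 : ℝ) < 1 / (1296 * 9 ^ 2)))).and (eventually_ge_atTop 1)).exists
  have hM1 : (1 : ℝ≥0) ≤ M := by exact_mod_cast h2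
  have hM : (0 : ℝ) < M := by exact_mod_cast (by omega : 0 < M)
  have h3 := use hc h (σ := (M : ℝ≥0)⁻¹) (inv_pos.2 (by exact_mod_cast (by omega : 0 < M)))
    (inv_le_one_of_one_le₀ hM1) (N := 9) le_rfl
  have e0 : (((9 : ℕ) : ℝ) / (8 * (((M : ℝ≥0)⁻¹ : ℝ≥0) : ℝ))) = 9 / 8 * M := by
    push_cast
    field_simp
  have e1 : ((((M : ℝ≥0)⁻¹ : ℝ≥0) : ℝ)) ^ (-k₃) = (M : ℝ) ^ k₃ := by
    push_cast
    rw [Real.inv_rpow hM.le, Real.rpow_neg hM.le, inv_inv]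
  have e2 : (M : ℝ) ^ (-(k₂ - k₃)) = (M : ℝ) ^ (-k₂) * (M : ℝ) ^ k₃ := by
    rw [← Real.rpow_add hM]
    congr 1
    ring
  rw [e0, e1, Real.mul_rpow (by norm_num) hM.le] at h3
  rw [e2] at h1
  push_cast at h3
  linarith

theorem exact_exponents {k₂ k₃ : ℝ} (h0 : 0 < k₂) :
    (∃ c k₁ : ℝ, 0 < c ∧ 0 < k₁ ∧ Bd c k₁ k₂ k₃) ↔ k₂ ≤ 2 ∧ k₂ ≤ k₃ :=
  ⟨fun ⟨_, _, hc, _, h⟩ => ⟨need_two hc h, need_le hc h⟩,
    fun h => ⟨2, 3 * k₂ / 2, two_pos, by linarith, upper h0 h.1 h.2⟩⟩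

end Pool.Agent.P.MP_429aeb_pr.Ex
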