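import Mathlib

/-! Scalar inequalities behind the sharp gap bound. -/

open Finset

namespace Gp429

/-- The squared threshold attached to the pair `(p, q)`. -/
def ee (t η p q : ℝ) : ℝ := t * (p ^ 2 + q ^ 2) + η

/-- The coefficient of the root `p - q` in the vector field. -/
noncomputable def ph (t η p q : ℝ) : ℝ := ee t η p q * (p - q) / ((p - q) ^ 2 + ee t η p q)

/-- The derivative of `ph` in `p`. -/
noncomputable def ph1 (t η p q : ℝ) : ℝ :=
  (ee t η p q * (ee t η p q - (p - q) ^ 2) + 2 * t * p * (p - q) ^ 3) /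
    ((p - q) ^ 2 + ee t η p q) ^ 2

/-- The kernel that the divergence dominates. -/
noncomputable def kk (t η p q : ℝ) : ℝ := 2 * ee t η p q ^ 2 / ((p - q) ^ 2 + ee t η p q) ^ 2

variable {t η : ℝ}

theorem ee_pos (ht : 0 ≤ t) (hη : 0 < η) (p q : ℝ) : 0 < ee t η p q := by
  unfold ee; positivity

theorem dn_pos (ht : 0 ≤ t) (hη : 0 < η) (p q : ℝ) : 0 < (p - q) ^ 2 + ee t η p q := by
  have := ee_pos ht hη p q; positivity

theorem ee_comm (p q : ℝ) : ee t η q p = ee t η p q := by unfold ee; ring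
theorem ee_negr (p q : ℝ) : ee t η p (-q) = ee t η p q := by unfold ee; ring
theorem ee_negl (p q : ℝ) : ee t η (-p) q = ee t η p q := by unfold ee; ring

theorem ph_swap (p q : ℝ) : ph t η q p = -ph t η p q := by
  unfold ph
  rw [ee_comm p q, show (q - p) ^ 2 = (p - q) ^ 2 by ring]; ring

theorem ph_negl (p q : ℝ) : ph t η (-p) q = -ph t η p (-q) := by
  unfold ph
  rw [ee_negl, ee_negr, show (-p - q) ^ 2 = (p - -q) ^ 2 by ring]; ring

theorem ph_cross (p q : ℝ) : ph t η q (-p) = ph t η p (-q) := by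
  rw [ph_swap, ph_negl, neg_neg]

theorem ph_sign (ht : 0 ≤ t) (hη : 0 < η) (p q : ℝ) :
    ∃ c, 0 ≤ c ∧ ph t η p q = c * (p - q) :=
  ⟨ee t η p q / ((p - q) ^ 2 + ee t η p q),
    (div_pos (ee_pos ht hη p q) (dn_pos ht hη p q)).le, by unfold ph; ring⟩

theorem ph_le (ht : 0 ≤ t) (hη : 0 < η) (p q : ℝ) : (p - q) * ph t η p q ≤ ee t η p q := by
  unfold ph
  rw [← mul_div_assoc, div_le_iff₀ (dn_pos ht hη p q)]
  nlinarith [sq_nonneg (ee t η p q)]

theorem hasDerivAt_ph (ht : 0 ≤ t) (hη : 0 < η) (p q : ℝ) :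
    HasDerivAt (fun y => ph t η (p + y) q) (ph1 t η p q) 0 := by
  have h0 : HasDerivAt (fun y : ℝ => p + y) 1 0 := (hasDerivAt_id' (0 : ℝ)).const_add p
  have h1 : HasDerivAt (fun y : ℝ => ee t η (p + y) q) (t * (2 * p)) 0 := by
    have := (((h0.pow 2).add_const (q ^ 2)).const_mul t).add_const η
    simpa [ee] using this
  have h2 : HasDerivAt (fun y : ℝ => p + y - q) 1 0 := h0.sub_const q
  have h3 : HasDerivAt (fun y : ℝ => (p + y - q) ^ 2) (2 * (p - q)) 0 := by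
    simpa using h2.fun_pow 2
  have hd := dn_pos ht hη p q
  have h4 := (h1.mul h2).div (h3.add h1) (by simpa using hd.ne')
  refine h4.congr_deriv ?_
  simp only [add_zero, Pi.mul_apply, Pi.add_apply, ph1]
  congr 1; ring

theorem par_le {x y : ℝ} (h : 0 < x + y) (s : ℝ) :
    y * x / (x + y) ≤ s ^ 2 * x + (1 - s) ^ 2 * y := by
  rw [div_le_iff₀ h]; nlinarith [sq_nonneg (s * x - (1 - s) * y)]

/-- Superadditivity along the line. -/
theorem superadd (ht : 0 ≤ t) (hη : 0 < η) {p q r : ℝ} (h1 : q ≤ p) (h2 : r ≤ q) :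
    (p - q) ^ 2 * ph t η p q + (q - r) ^ 2 * ph t η q r ≤ (p - r) ^ 2 * ph t η p r := by
  obtain ⟨a, ha⟩ : ∃ a, a = p - q := ⟨_, rfl⟩
  obtain ⟨b, hb⟩ : ∃ b, b = q - r := ⟨_, rfl⟩
  have ha0 : 0 ≤ a := by linarith
  have hb0 : 0 ≤ b := by linarith
  have hab : p - r = a + b := by linarith
  have d1 := dn_pos ht hη p q
  have d2 := dn_pos ht hη q r
  have d3 := dn_pos ht hη p r
  have htr : a * ee t η p q + b * ee t η q r ≤ (a + b) * ee t η p r := by
    have : (a + b) * ee t η p r - (a * ee t η p q + b * ee t η q r) = t * (a * b * (a + b)) := by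
      unfold ee; rw [ha, hb]; ring
    have h5 : 0 ≤ t * (a * b * (a + b)) := by positivity
    linarith
  unfold ph
  rw [← ha] at d1 ⊢
  rw [← hb] at d2 ⊢
  rw [hab] at d3 ⊢
  set e1 := ee t η p q
  set e2 := ee t η q r
  set e3 := ee t η p r
  set s := e3 / ((a + b) ^ 2 + e3) with hs
  have k1 := mul_le_mul_of_nonneg_left (par_le d1 s) ha0
  have k2 := mul_le_mul_of_nonneg_left (par_le d2 s) hb0
  have k3 : (a + b) ^ 2 * (e3 * (a + b) / ((a + b) ^ 2 + e3)) =
      s ^ 2 * (a + b) ^ 3 + (1 - s) ^ 2 * ((a + b) * e3) := by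
    rw [hs]; field_simp; ring
  have k4 : s ^ 2 * (a ^ 3 + b ^ 3) ≤ s ^ 2 * (a + b) ^ 3 :=
    mul_le_mul_of_nonneg_left (by nlinarith [mul_nonneg (mul_nonneg ha0 hb0) (add_nonneg ha0 hb0)])
      (sq_nonneg s)
  have k5 := mul_le_mul_of_nonneg_left htr (sq_nonneg (1 - s))
  have k6 : a ^ 2 * (e1 * a / (a ^ 2 + e1)) = a * (e1 * a ^ 2 / (a ^ 2 + e1)) := by ring
  have k7 : b ^ 2 * (e2 * b / (b ^ 2 + e2)) = b * (e2 * b ^ 2 / (b ^ 2 + e2)) := by ring
  rw [k3, k6, k7]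
  nlinarith

/-- The cyclic sum times the Vandermonde product. -/
noncomputable def hh (t η p q r : ℝ) : ℝ :=
  ((p - q) ^ 2 * ph t η p q + (q - r) ^ 2 * ph t η q r + (r - p) ^ 2 * ph t η r p) *
    ((p - q) * (q - r) * (r - p))

theorem hh_cyc (p q r : ℝ) : hh t η q r p = hh t η p q r := by unfold hh; ring

theorem hh_swap (p q r : ℝ) : hh t η q p r = hh t η p q r := by
  unfold hh; rw [ph_swap p q, ph_swap r p, ph_swap q r]; ring

theorem hh_ord (ht : 0 ≤ t) (hη : 0 < η) {p q r : ℝ} (h1 : q ≤ p) (h2 : r ≤ q) :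
    0 ≤ hh t η p q r := by
  have h := superadd ht hη h1 h2
  unfold hh
  rw [ph_swap p r]
  apply mul_nonneg_of_nonpos_of_nonpos
  · nlinarith
  · exact mul_nonpos_of_nonneg_of_nonpos (mul_nonneg (by linarith) (by linarith)) (by linarith)

theorem hh_nonneg (ht : 0 ≤ t) (hη : 0 < η) (p q r : ℝ) : 0 ≤ hh t η p q r := by
  rcases le_total q p with h1 | h1 <;> rcases le_total r q with h2 | h2 <;>
    rcases le_total r p with h3 | h3
  · exact hh_ord ht hη h1 h2
  · exact hh_ord ht hη h1 h2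
  · rw [← hh_swap, ← hh_cyc]; exact hh_ord ht hη h3 h2
  · rw [← hh_cyc, ← hh_cyc]; exact hh_ord ht hη h3 h1
  · rw [← hh_swap]; exact hh_ord ht hη h1 h3
  · rw [← hh_cyc]; exact hh_ord ht hη h2 h3
  · rw [← hh_cyc, ← hh_swap]; exact hh_ord ht hη h2 h1
  · rw [← hh_cyc, ← hh_swap]; exact hh_ord ht hη h2 h1

/-- The contribution of a rank two subsystem. -/
theorem tri_nonneg (ht : 0 ≤ t) (hη : 0 < η) {p q r : ℝ} (h1 : p - q ≠ 0) (h2 : q - r ≠ 0)
    (h3 : r - p ≠ 0) :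
    0 ≤ (ph t η p r - ph t η q r) / (p - q) + (ph t η q p - ph t η r p) / (q - r) +
      (ph t η r q - ph t η p q) / (r - p) := by
  have h := hh_nonneg ht hη p q r
  have e : (ph t η p r - ph t η q r) / (p - q) + (ph t η q p - ph t η r p) / (q - r) +
      (ph t η r q - ph t η p q) / (r - p) =
      hh t η p q r / ((p - q) * (q - r) * (r - p)) ^ 2 := by
    unfold hh
    rw [ph_swap r p, ph_swap p q, ph_swap q r]
    field_simp; ring
  rw [e]; positivity

/-- Both roots of a pair together. -/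
noncomputable def ps (t η p q : ℝ) : ℝ := ph t η p q + ph t η p (-q)

theorem tau_nonneg (ht : 0 ≤ t) (hη : 0 < η) {p q r : ℝ} (h1 : p ^ 2 ≠ q ^ 2)
    (h2 : q ^ 2 ≠ r ^ 2) (h3 : r ^ 2 ≠ p ^ 2) :
    0 ≤ (p * ps t η p r - q * ps t η q r) / (p ^ 2 - q ^ 2) +
      (q * ps t η q p - r * ps t η r p) / (q ^ 2 - r ^ 2) +
      (r * ps t η r q - p * ps t η p q) / (r ^ 2 - p ^ 2) := by
  have f : ∀ {x y : ℝ}, x ^ 2 ≠ y ^ 2 → x - y ≠ 0 ∧ x + y ≠ 0 := fun {x y} h =>
    ⟨fun h' => h (by rw [show x = y by linarith]), fun h' => h (by rw [show x = -y by linarith]; ring)⟩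
  obtain ⟨a1, b1⟩ := f h1
  obtain ⟨a2, b2⟩ := f h2
  obtain ⟨a3, b3⟩ := f h3
  have T1 := tri_nonneg ht hη a1 a2 a3
  have T2 := tri_nonneg ht hη (p := p) (q := q) (r := -r) a1 (by rwa [sub_neg_eq_add])
    (fun h => b3 (by linarith))
  have T3 := tri_nonneg ht hη (p := p) (q := -q) (r := r) (by rwa [sub_neg_eq_add])
    (fun h => b2 (by linarith)) a3
  have T4 := tri_nonneg ht hη (p := -p) (q := q) (r := r) (fun h => b1 (by linarith)) a2
    (by rwa [sub_neg_eq_add])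
  simp only [ph_negl] at T2 T3 T4
  have g : ∀ {x y : ℝ} (A B : ℝ), x - y ≠ 0 → x + y ≠ 0 →
      (x * A - y * B) / (x ^ 2 - y ^ 2) = ((A - B) / (x - y) + (A + B) / (x + y)) / 2 := by
    intro x y A B h h'
    rw [show x ^ 2 - y ^ 2 = (x - y) * (x + y) by ring]; field_simp; ring
  rw [g _ _ a1 b1, g _ _ a2 b2, g _ _ a3 b3]
  unfold ps
  rw [show -r - p = -(r + p) by ring, div_neg, show q - -r = q + r by ring] at T2
  rw [show -q - r = -(q + r) by ring, div_neg, show p - -q = p + q by ring] at T3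
  rw [show -p - q = -(p + q) by ring, div_neg, show r - -p = r + p by ring] at T4
  simp only [sub_div, add_div, neg_div] at T1 T2 T3 T4 ⊢
  linarith

theorem pair_root (ht : 0 ≤ t) (hη : 0 < η) {p q : ℝ} (h : p - q ≠ 0) :
    2 * kk t η p q ≤ ph1 t η p q + ph1 t η q p + 2 * (ph t η p q / (p - q)) := by
  have d := dn_pos ht hη p q
  have e : ph1 t η p q + ph1 t η q p + 2 * (ph t η p q / (p - q)) - 2 * kk t η p q =
      2 * t * (p - q) ^ 4 / ((p - q) ^ 2 + ee t η p q) ^ 2 := by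
    unfold ph1 ph kk
    rw [ee_comm p q, show (q - p) ^ 2 = (p - q) ^ 2 by ring]
    field_simp; ring
  have : 0 ≤ 2 * t * (p - q) ^ 4 / ((p - q) ^ 2 + ee t η p q) ^ 2 := by positivity
  linarith

theorem ph1_neg (p q : ℝ) : ph1 t η (-p) q = ph1 t η p (-q) := by
  unfold ph1
  rw [ee_negl, ee_negr, show (-p - q) ^ 2 = (p - -q) ^ 2 by ring]; congr 1; ring

theorem kk_nonneg (p q : ℝ) : 0 ≤ kk t η p q := by unfold kk; positivity

theorem kk_comm (p q : ℝ) : kk t η q p = kk t η p q := by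
  unfold kk; rw [ee_comm p q, show (q - p) ^ 2 = (p - q) ^ 2 by ring]

theorem kk_half (ht : 0 ≤ t) (hη : 0 < η) {p q : ℝ} (h : (p - q) ^ 2 ≤ ee t η p q) :
    1 / 2 ≤ kk t η p q := by
  have d := dn_pos ht hη p q
  have e := ee_pos ht hη p q
  unfold kk
  rw [div_le_div_iff₀ two_pos (by positivity)]
  nlinarith [sq_nonneg (p - q)]

/-- The part of the divergence that comes from one ordered pair. -/
noncomputable def ww (t η p q : ℝ) : ℝ :=
  ph1 t η p q + ph1 t η p (-q) + (p * ps t η p q - q * ps t η q p) / (p ^ 2 - q ^ 2)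

theorem pair_ge (ht : 0 ≤ t) (hη : 0 < η) {p q : ℝ} (h : p ^ 2 ≠ q ^ 2) :
    kk t η p q + kk t η q p ≤ ww t η p q + ww t η q p := by
  have a : p - q ≠ 0 := fun h' => h (by rw [show p = q by linarith])
  have b : p + q ≠ 0 := fun h' => h (by rw [show p = -q by linarith]; ring)
  have h1 := pair_root ht hη a
  have h2 := pair_root ht hη (p := p) (q := -q) (by rwa [sub_neg_eq_add])
  have h3 := kk_nonneg (t := t) (η := η) p (-q)
  rw [ph1_neg, sub_neg_eq_add] at h2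
  have e1 : (p * ps t η p q - q * ps t η q p) / (p ^ 2 - q ^ 2) =
      ph t η p q / (p - q) + ph t η p (-q) / (p + q) := by
    unfold ps
    rw [ph_swap p q, ph_cross p q, show p ^ 2 - q ^ 2 = (p - q) * (p + q) by ring]
    field_simp; ring
  have e2 : (q * ps t η q p - p * ps t η p q) / (q ^ 2 - p ^ 2) =
      (p * ps t η p q - q * ps t η q p) / (p ^ 2 - q ^ 2) := by
    rw [← neg_sub (p * ps t η p q), ← neg_sub (p ^ 2), neg_div_neg_eq]
  unfold ww
  rw [e2, e1, kk_comm p q]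
  linarith

variable {ι : Type*} [Fintype ι] [DecidableEq ι]

theorem sum_symm (f : ι → ι → ℝ) :
    ∑ a, ∑ j ∈ univ.erase a, f a j = ∑ a, ∑ j ∈ univ.erase a, f j a := by
  apply Finset.sum_comm'
  intro a j
  simp [eq_comm]

theorem sum_le_of_pair (f g : ι → ι → ℝ) (h : ∀ a j, j ≠ a → f a j + f j a ≤ g a j + g j a) :
    ∑ a, ∑ j ∈ univ.erase a, f a j ≤ ∑ a, ∑ j ∈ univ.erase a, g a j := by
  have h1 : ∑ a, ∑ j ∈ univ.erase a, (f a j + f j a) ≤
      ∑ a, ∑ j ∈ univ.erase a, (g a j + g j a) :=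
    sum_le_sum fun a _ => sum_le_sum fun j hj => h a j (ne_of_mem_erase hj)
  simp only [sum_add_distrib] at h1
  have := sum_symm f
  have := sum_symm g
  linarith

theorem sum3_nonneg (f : ι → ι → ι → ℝ)
    (h : ∀ a j k, a ≠ j → j ≠ k → k ≠ a → 0 ≤ f a j k + f j k a + f k a j) :
    0 ≤ ∑ a, ∑ j ∈ univ.erase a, ∑ k ∈ (univ.erase a).erase j, f a j k := by
  let g : ι → ι → ι → ℝ := fun a j k => if a ≠ j ∧ j ≠ k ∧ k ≠ a then f a j k else 0
  have e0 : ∑ a, ∑ j ∈ univ.erase a, ∑ k ∈ (univ.erase a).erase j, f a j k =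
      ∑ a, ∑ j, ∑ k, g a j k := by
    refine sum_congr rfl fun a _ => ?_
    rw [← Finset.sum_erase (s := univ) (a := a) (f := fun j => ∑ k, g a j k) (by simp [g])]
    refine sum_congr rfl fun j hj => ?_
    have hja := ne_of_mem_erase hj
    rw [← Finset.sum_filter]
    refine sum_congr ?_ fun _ _ => rfl
    ext k
    simp only [mem_erase, mem_univ, and_true, mem_filter, true_and]
    exact ⟨fun h => ⟨hja.symm, h.1.symm, h.2⟩, fun h => ⟨h.2.1.symm, h.2.2⟩⟩
  have e1 : ∀ u : ι → ι → ι → ℝ, ∑ a, ∑ j, ∑ k, u j k a = ∑ a, ∑ j, ∑ k, u a j k := by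
    intro u
    rw [Finset.sum_comm]
    exact sum_congr rfl fun j _ => Finset.sum_comm
  have e2 := e1 g
  have e3 := e1 fun a j k => g j k a
  have h1 : 0 ≤ ∑ a, ∑ j, ∑ k, (g a j k + g j k a + g k a j) := by
    refine sum_nonneg fun a _ => sum_nonneg fun j _ => sum_nonneg fun k _ => ?_
    by_cases hc : a ≠ j ∧ j ≠ k ∧ k ≠ a
    · simp only [g]
      rw [if_pos hc, if_pos ⟨hc.2.1, hc.2.2, hc.1⟩, if_pos ⟨hc.2.2, hc.1, hc.2.1⟩]
      exact h a j k hc.1 hc.2.1 hc.2.2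
    · simp only [g]
      rw [if_neg hc, if_neg (fun h' => hc ⟨h'.2.2, h'.1, h'.2.1⟩),
        if_neg (fun h' => hc ⟨h'.2.1, h'.2.2, h'.1⟩)]
      simp
  simp only [sum_add_distrib] at h1
  rw [e0]; linarith

/-- The diagonal values of the vector field. -/
noncomputable def xx (t η : ℝ) (s : ι → ℝ) (a : ι) : ℝ := ∑ j ∈ univ.erase a, ps t η (s a) (s j)

/-- The kernel summed over ordered pairs. -/
noncomputable def FF (t η : ℝ) (s : ι → ℝ) : ℝ := ∑ a, ∑ j ∈ univ.erase a, kk t η (s a) (s j)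

theorem div_ge (ht : 0 ≤ t) (hη : 0 < η) (s : ι → ℝ) (hs : ∀ a j, a ≠ j → s a ^ 2 ≠ s j ^ 2) :
    FF t η s ≤ ∑ a, ∑ j ∈ univ.erase a, (ph1 t η (s a) (s j) + ph1 t η (s a) (-s j) +
      (s a * xx t η s a - s j * xx t η s j) / (s a ^ 2 - s j ^ 2)) := by
  have h1 := sum_le_of_pair (fun a j => kk t η (s a) (s j)) (fun a j => ww t η (s a) (s j))
    fun a j hj => pair_ge ht hη (hs a j hj.symm)
  have h2 := sum3_nonneg
    (fun a j k => (s a * ps t η (s a) (s k) - s j * ps t η (s j) (s k)) / (s a ^ 2 - s j ^ 2))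
    fun a j k h1 h2 h3 => tau_nonneg ht hη (hs a j h1) (hs j k h2) (hs k a h3)
  have e : ∑ a, ∑ j ∈ univ.erase a, (ph1 t η (s a) (s j) + ph1 t η (s a) (-s j) +
      (s a * xx t η s a - s j * xx t η s j) / (s a ^ 2 - s j ^ 2)) =
      ∑ a, ∑ j ∈ univ.erase a, (ww t η (s a) (s j) + ∑ k ∈ (univ.erase a).erase j,
        (s a * ps t η (s a) (s k) - s j * ps t η (s j) (s k)) / (s a ^ 2 - s j ^ 2)) := by
    refine sum_congr rfl fun a _ => sum_congr rfl fun j hj => ?_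
    have hja := ne_of_mem_erase hj
    unfold xx ww
    rw [← add_sum_erase _ _ hj, ← add_sum_erase (univ.erase j) _
      (mem_erase.2 ⟨hja.symm, mem_univ a⟩), erase_right_comm (a := j), ← Finset.sum_div,
      sum_sub_distrib, ← mul_sum, ← mul_sum]
    ring
  rw [e]
  simp only [sum_add_distrib]
  unfold FF
  linarith

theorem inner_le (ht : 0 ≤ t) (hη : 0 < η) (s : ι → ℝ) :
    ∑ a, xx t η s a * s a ≤ ((Fintype.card ι : ℝ) - 1) *
      (2 * t * ∑ a, s a ^ 2 + Fintype.card ι * η) := by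
  have h1 := sum_le_of_pair (fun a j => ps t η (s a) (s j) * s a)
    (fun a _ => 2 * t * s a ^ 2 + η) fun a j _ => by
      have k1 := ph_le ht hη (s a) (s j)
      have k2 := ph_le ht hη (s a) (-s j)
      rw [ee_negr] at k2
      unfold ps
      rw [ph_swap (s a) (s j), ph_cross (s a) (s j)]
      unfold ee at k1 k2
      nlinarith
  have e1 : ∑ a, xx t η s a * s a = ∑ a, ∑ j ∈ univ.erase a, ps t η (s a) (s j) * s a := by
    simp only [xx, sum_mul]
  have e2 : ∑ a, ∑ _j ∈ univ.erase a, (2 * t * s a ^ 2 + η) =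
      ∑ a, ((Fintype.card ι : ℝ) - 1) * (2 * t * s a ^ 2 + η) := by
    refine sum_congr rfl fun a _ => ?_
    have : 1 ≤ Fintype.card ι := Fintype.card_pos_iff.2 ⟨a⟩
    rw [sum_const, card_erase_of_mem (mem_univ a), card_univ, nsmul_eq_mul, Nat.cast_sub this,
      Nat.cast_one]
  rw [e2, ← mul_sum, sum_add_distrib, ← mul_sum, sum_const, card_univ, nsmul_eq_mul] at h1
  rw [e1]; exact h1

theorem FF_nonneg (s : ι → ℝ) : 0 ≤ FF t η s :=
  sum_nonneg fun _ _ => sum_nonneg fun _ _ => kk_nonneg _ _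

theorem FF_ge (ht : 0 ≤ t) (hη : 0 < η) (s : ι → ℝ) {j k : ι} (hjk : j ≠ k)
    (h : (s j - s k) ^ 2 ≤ ee t η (s j) (s k)) : 1 ≤ FF t η s := by
  have h1 := kk_half ht hη h
  have g : ∀ a b : ι, b ≠ a → kk t η (s a) (s b) ≤ ∑ c ∈ univ.erase a, kk t η (s a) (s c) :=
    fun a b hb => single_le_sum (f := fun c => kk t η (s a) (s c)) (fun _ _ => kk_nonneg _ _)
      (mem_erase.2 ⟨hb, mem_univ b⟩)
  have h2 := add_le_sum (s := univ) (f := fun a => ∑ c ∈ univ.erase a, kk t η (s a) (s c))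
    (fun _ _ => sum_nonneg fun _ _ => kk_nonneg _ _) (mem_univ j) (mem_univ k) hjk
  have h3 := g j k hjk.symm
  have h4 := g k j hjk
  rw [kk_comm (s j) (s k)] at h4
  unfold FF
  linarith

/-- The denominator in terms of the squares. -/
def den (t η a b : ℝ) : ℝ :=
  (a - b) * (a - b) + 2 * ((t * (a + b) + η) * (a + b)) + (t * (a + b) + η) * (t * (a + b) + η)

/-- The numerator in terms of the squares. -/
def num (t η a b : ℝ) : ℝ := 2 * ((t * (a + b) + η) * (a - b + (t * (a + b) + η)))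

theorem den_ge (ht : 0 ≤ t) (hη : 0 < η) {a b : ℝ} (ha : 0 ≤ a) (hb : 0 ≤ b) :
    η ^ 2 ≤ den t η a b := by
  unfold den
  have h1 : 0 ≤ t * (a + b) := by positivity
  nlinarith [mul_self_nonneg (a - b), mul_nonneg (add_nonneg h1 hη.le) (add_nonneg ha hb),
    mul_self_nonneg (t * (a + b)), mul_nonneg h1 hη.le]

theorem ps_eq (ht : 0 ≤ t) (hη : 0 < η) (p q : ℝ) :
    num t η (p ^ 2) (q ^ 2) * (den t η (p ^ 2) (q ^ 2))⁻¹ * p = ps t η p q := by
  have d1 := dn_pos ht hη p q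
  have d2 := dn_pos ht hη p (-q)
  have e : den t η (p ^ 2) (q ^ 2) =
      ((p - q) ^ 2 + ee t η p q) * ((p - -q) ^ 2 + ee t η p (-q)) := by
    unfold den ee; ring
  unfold ps ph
  rw [e]
  field_simp
  unfold num ee; ring

theorem nu_nonneg (ht : 0 ≤ t) (hη : 0 < η) (μ : ι → ℝ) (hμ : ∀ a, 0 ≤ μ a) :
    0 ≤ ∑ a, ∑ j ∈ univ.erase a, num t η (μ a) (μ j) * (den t η (μ a) (μ j))⁻¹ := by
  have h1 := sum_le_of_pair (fun _ _ : ι => (0 : ℝ))
    (fun a j => num t η (μ a) (μ j) * (den t η (μ a) (μ j))⁻¹) fun a j _ => by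
      have d : 0 < den t η (μ a) (μ j) :=
        lt_of_lt_of_le (by positivity) (den_ge ht hη (hμ a) (hμ j))
      have e : den t η (μ j) (μ a) = den t η (μ a) (μ j) := by unfold den; ring
      rw [e, ← add_mul, show num t η (μ a) (μ j) + num t η (μ j) (μ a) =
        4 * (t * (μ a + μ j) + η) ^ 2 by unfold num; ring, add_zero]
      positivity
  simpa using h1

end Gp429
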