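import Pool.Agent.P.MP_429aeb_pr.GpMat

/-! Smoothness, polynomial growth and the divergence of the vector field. -/

open Finset Matrix Kronecker

namespace Gp429

section growth

variable {E : Type*} [NormedAddCommGroup E] [NormedSpace ℝ E]

/-- Polynomial growth. -/
def Gr (g : E → ℝ) : Prop := ∃ (C : ℝ) (k : ℕ), 0 ≤ C ∧ ∀ A, |g A| ≤ C * (1 + ‖A‖) ^ k

omit [NormedSpace ℝ E] in
theorem Gr.const (c : ℝ) : Gr fun _ : E => c := ⟨|c|, 0, abs_nonneg c, fun _ => by simp⟩

omit [NormedSpace ℝ E] in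
theorem Gr.mul {f g : E → ℝ} (hf : Gr f) (hg : Gr g) : Gr fun A => f A * g A := by
  obtain ⟨C, k, hC, h⟩ := hf
  obtain ⟨D, l, hD, h'⟩ := hg
  refine ⟨C * D, k + l, by positivity, fun A => ?_⟩
  rw [abs_mul, pow_add]
  calc _ ≤ (C * (1 + ‖A‖) ^ k) * (D * (1 + ‖A‖) ^ l) :=
        mul_le_mul (h A) (h' A) (abs_nonneg _) (by positivity)
    _ = _ := by ring

omit [NormedSpace ℝ E] in
theorem Gr.add {f g : E → ℝ} (hf : Gr f) (hg : Gr g) : Gr fun A => f A + g A := by
  obtain ⟨C, k, hC, h⟩ := hf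
  obtain ⟨D, l, hD, h'⟩ := hg
  refine ⟨C + D, k + l, by positivity, fun A => ?_⟩
  have h1 : (1 : ℝ) ≤ 1 + ‖A‖ := by linarith [norm_nonneg A]
  have h2 : C * (1 + ‖A‖) ^ k ≤ C * (1 + ‖A‖) ^ (k + l) :=
    mul_le_mul_of_nonneg_left (pow_le_pow_right₀ h1 (by omega)) hC
  have h3 : D * (1 + ‖A‖) ^ l ≤ D * (1 + ‖A‖) ^ (k + l) :=
    mul_le_mul_of_nonneg_left (pow_le_pow_right₀ h1 (by omega)) hD
  have := abs_add_le (f A) (g A)
  have := h A
  have := h' A
  linarith

/-- Continuously differentiable with polynomial growth of the function and its derivative. -/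
def P1 (g : E → ℝ) : Prop := ContDiff ℝ 1 g ∧ Gr g ∧ ∀ v, Gr fun A => fderiv ℝ g A v

theorem P1.diff {g : E → ℝ} (h : P1 g) : Differentiable ℝ g := h.1.differentiable one_ne_zero

theorem P1.const (c : ℝ) : P1 fun _ : E => c :=
  ⟨contDiff_const, Gr.const c, fun _ => by simpa using Gr.const 0⟩

theorem P1.lin (L : E →L[ℝ] ℝ) : P1 fun A => L A := by
  refine ⟨L.contDiff, ⟨‖L‖, 1, norm_nonneg _, fun A => ?_⟩, fun v => ?_⟩
  · have := L.le_opNorm A
    rw [Real.norm_eq_abs] at this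
    nlinarith [norm_nonneg L]
  · simp only [ContinuousLinearMap.fderiv]
    exact Gr.const _

theorem P1.add {f g : E → ℝ} (hf : P1 f) (hg : P1 g) : P1 fun A => f A + g A := by
  refine ⟨hf.1.add hg.1, hf.2.1.add hg.2.1, fun v => ?_⟩
  simp only [fderiv_fun_add (hf.diff _) (hg.diff _), _root_.add_apply]
  exact (hf.2.2 v).add (hg.2.2 v)

theorem P1.mul {f g : E → ℝ} (hf : P1 f) (hg : P1 g) : P1 fun A => f A * g A := by
  refine ⟨hf.1.mul hg.1, hf.2.1.mul hg.2.1, fun v => ?_⟩
  simp only [fderiv_fun_mul (hf.diff _) (hg.diff _), _root_.add_apply,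
    _root_.smul_apply, smul_eq_mul]
  exact (hf.2.1.mul (hg.2.2 v)).add (hg.2.1.mul (hf.2.2 v))

theorem P1.sub {f g : E → ℝ} (hf : P1 f) (hg : P1 g) : P1 fun A => f A - g A := by
  have := hf.add ((P1.const (-1)).mul hg)
  simpa [sub_eq_add_neg] using this

theorem P1.sum {α : Type*} (s : Finset α) {f : α → E → ℝ} (h : ∀ i, P1 (f i)) :
    P1 fun A => ∑ i ∈ s, f i A := by
  classical
  induction s using Finset.induction_on with
  | empty => simpa using P1.const 0
  | insert a s ha ih => simpa [sum_insert ha] using (h a).add ih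

theorem P1.prod {α : Type*} (s : Finset α) {f : α → E → ℝ} (h : ∀ i, P1 (f i)) :
    P1 fun A => ∏ i ∈ s, f i A := by
  classical
  induction s using Finset.induction_on with
  | empty => simpa using P1.const 1
  | insert a s ha ih => simpa [prod_insert ha] using (h a).mul ih

theorem P1.inv {f : E → ℝ} (hf : P1 f) {c : ℝ} (hc : 0 < c) (h : ∀ A, c ≤ f A) :
    P1 fun A => (f A)⁻¹ := by
  have h0 : ∀ A, f A ≠ 0 := fun A => (hc.trans_le (h A)).ne'
  have hg : Gr fun A => (f A)⁻¹ := ⟨c⁻¹, 0, by positivity, fun A => by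
    rw [abs_of_pos (inv_pos.2 (hc.trans_le (h A))), pow_zero, mul_one]
    exact inv_anti₀ hc (h A)⟩
  refine ⟨hf.1.inv h0, hg, fun v => ?_⟩
  have e : ∀ A, fderiv ℝ (fun A => (f A)⁻¹) A v =
      -1 * ((f A)⁻¹ * (f A)⁻¹) * fderiv ℝ f A v := by
    intro A
    have := ((hasDerivAt_inv (h0 A)).comp_hasFDerivAt A (hf.diff A).hasFDerivAt).fderiv
    rw [show (fun A => (f A)⁻¹) = (fun y : ℝ => y⁻¹) ∘ f from rfl, this]
    simp [pow_two]
  simp only [e]
  exact ((Gr.const _).mul (hg.mul hg)).mul (hf.2.2 v)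

/-- The entrywise version for matrices. -/
def PM {α β : Type*} (F : E → Matrix α β ℝ) : Prop := ∀ i j, P1 fun A => F A i j

variable {α β γ : Type*}

theorem PM.const (M : Matrix α β ℝ) : PM fun _ : E => M := fun _ _ => P1.const _

theorem PM.add {F G : E → Matrix α β ℝ} (hF : PM F) (hG : PM G) : PM fun A => F A + G A :=
  fun i j => (hF i j).add (hG i j)

theorem PM.sub {F G : E → Matrix α β ℝ} (hF : PM F) (hG : PM G) : PM fun A => F A - G A :=
  fun i j => (hF i j).sub (hG i j)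

theorem PM.smul {F : E → Matrix α β ℝ} (c : ℝ) (hF : PM F) : PM fun A => c • F A :=
  fun i j => (P1.const c).mul (hF i j)

theorem PM.mul [Fintype β] {F : E → Matrix α β ℝ} {G : E → Matrix β γ ℝ} (hF : PM F)
    (hG : PM G) : PM fun A => F A * G A :=
  fun i j => P1.sum univ fun k => (hF i k).mul (hG k j)

theorem PM.tr {F : E → Matrix α β ℝ} (hF : PM F) : PM fun A => (F A)ᵀ := fun i j => hF j i

theorem PM.kron {F G : E → Matrix α α ℝ} (hF : PM F) (hG : PM G) : PM fun A => F A ⊗ₖ G A :=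
  fun i j => (hF i.1 j.1).mul (hG i.2 j.2)

theorem PM.det [Fintype α] [DecidableEq α] {F : E → Matrix α α ℝ} (hF : PM F) :
    P1 fun A => (F A).det := by
  simp only [det_apply']
  exact P1.sum univ fun σ => (P1.const _).mul (P1.prod univ fun i => hF _ _)

theorem PM.inv [Fintype α] [DecidableEq α] {F : E → Matrix α α ℝ} (hF : PM F) {c : ℝ}
    (hc : 0 < c) (h : ∀ A, c ≤ (F A).det) : PM fun A => (F A)⁻¹ := by
  intro i j
  simp only [Matrix.inv_def, Ring.inverse_eq_inv', Matrix.smul_apply, smul_eq_mul, adjugate_apply]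
  refine (hF.det.inv hc h).mul (PM.det fun a b => ?_)
  simp only [updateRow_apply]
  split_ifs
  · exact P1.const _
  · exact hF a b

end growth

variable {ι κ : Type*} [Fintype ι] [DecidableEq ι] [Fintype κ] [DecidableEq κ] {t η : ℝ}

theorem PM.XX {E : Type*} [NormedAddCommGroup E] [NormedSpace ℝ E] (ht : 0 ≤ t) (hη : 0 < η)
    (f : ι ↪ κ) {F : E → Matrix ι κ ℝ} (hF : PM F) : PM fun A => XX t η (F A) := by
  have ha : PM fun A => aM (F A) := (hF.mul hF.tr).kron (PM.const _)
  have hb : PM fun A => bM (F A) := (PM.const _).kron (hF.mul hF.tr)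
  have he : PM fun A => eM t η (aM (F A)) (bM (F A)) := ((ha.add hb).smul t).add (PM.const _)
  have hd : PM fun A => denM t η (aM (F A)) (bM (F A)) :=
    (((ha.sub hb).mul (ha.sub hb)).add ((he.mul (ha.add hb)).smul 2)).add (he.mul he)
  have hn : PM fun A => numM t η (aM (F A)) (bM (F A)) := (he.mul ((ha.sub hb).add he)).smul 2
  have hR := hn.mul (hd.inv (c := (η ^ 2) ^ Fintype.card (ι × ι)) (by positivity)
    fun A => det_ge ht hη f (F A))
  refine PM.mul (fun i k => ?_) hF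
  exact P1.sum univ fun j => (hR (i, j) (k, j)).sub (hR (i, j) (j, k))

omit [DecidableEq ι] [DecidableEq κ] in
theorem P1.coord (i : ι) (j : κ) : P1 fun A : ι → κ → ℝ => A i j :=
  P1.lin ((ContinuousLinearMap.proj (R := ℝ) (φ := fun _ : κ => ℝ) j).comp
    (ContinuousLinearMap.proj (R := ℝ) (φ := fun _ : ι => κ → ℝ) i))

/-- The vector field on the coordinate space. -/
noncomputable def XE (t η : ℝ) (A : ι → κ → ℝ) : ι → κ → ℝ := fun a b => XX t η (of A) a b

theorem XE_contDiff (ht : 0 ≤ t) (hη : 0 < η) (f : ι ↪ κ) :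
    ContDiff ℝ 1 (XE t η : (ι → κ → ℝ) → ι → κ → ℝ) :=
  contDiff_pi.2 fun a => contDiff_pi.2 fun b =>
    (PM.XX ht hη f (F := fun A : ι → κ → ℝ => of A) (fun i j => P1.coord i j) a b).1

/-- The two-sided action. -/
def actL (U : Matrix ι ι ℝ) (V : Matrix κ κ ℝ) : (ι → κ → ℝ) →ₗ[ℝ] (ι → κ → ℝ) where
  toFun A := fun a b => (Uᵀ * of A * V) a b
  map_add' A B := by
    funext a b
    change (Uᵀ * (of A + of B) * V) a b = (Uᵀ * of A * V + Uᵀ * of B * V) a b
    rw [Matrix.mul_add, Matrix.add_mul]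
  map_smul' c A := by
    funext a b
    change (Uᵀ * (c • of A) * V) a b = (c • (Uᵀ * of A * V)) a b
    rw [Matrix.mul_smul, Matrix.smul_mul]

omit [DecidableEq ι] [DecidableEq κ] in
theorem actL_actL (U U' : Matrix ι ι ℝ) (V V' : Matrix κ κ ℝ) (A : ι → κ → ℝ) :
    actL U V (actL U' V' A) = actL (U' * U) (V' * V) A := by
  funext a b
  change (Uᵀ * (U'ᵀ * of A * V') * V) a b = ((U' * U)ᵀ * of A * (V' * V)) a b
  rw [transpose_mul]; simp only [Matrix.mul_assoc]

theorem actL_one (A : ι → κ → ℝ) : actL (1 : Matrix ι ι ℝ) (1 : Matrix κ κ ℝ) A = A := by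
  funext a b
  change ((1 : Matrix ι ι ℝ)ᵀ * of A * (1 : Matrix κ κ ℝ)) a b = of A a b
  rw [transpose_one, Matrix.one_mul, Matrix.mul_one]

theorem XE_act (ht : 0 ≤ t) (hη : 0 < η) (f : ι ↪ κ) {U : Matrix ι ι ℝ} (hU : Ort U)
    {V : Matrix κ κ ℝ} (hV : Ort V) (A : ι → κ → ℝ) :
    XE t η (actL U V A) = actL U V (XE t η A) := by
  funext a b
  exact congrFun (congrFun (XX_act ht hη f hU hV (of A)) a) b

/-- The coordinate directions. -/
def EE (a : ι) (b : κ) : ι → κ → ℝ := fun i j => Matrix.single a b (1 : ℝ) i j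

/-- The divergence. -/
noncomputable def dv (t η : ℝ) (A : ι → κ → ℝ) : ℝ :=
  ∑ a, ∑ b, fderiv ℝ (XE t η) A (EE a b) a b

theorem trace_eq (L : (ι → κ → ℝ) →ₗ[ℝ] (ι → κ → ℝ)) :
    LinearMap.trace ℝ _ L = ∑ a, ∑ b, L (EE a b) a b := by
  rw [LinearMap.trace_eq_matrix_trace ℝ (Pi.basis fun _ : ι => Pi.basisFun ℝ κ), Matrix.trace,
    Fintype.sum_sigma]
  refine sum_congr rfl fun a _ => sum_congr rfl fun b _ => ?_
  have e : EE a b = Pi.single a (Pi.single b (1 : ℝ)) := single_eq_of_single_single a b 1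
  simp [LinearMap.toMatrix_apply, Pi.basis_apply, Pi.basis_repr, e]

theorem dv_act (ht : 0 ≤ t) (hη : 0 < η) (f : ι ↪ κ) {U : Matrix ι ι ℝ} (hU : Ort U)
    {V : Matrix κ κ ℝ} (hV : Ort V) (A : ι → κ → ℝ) : dv t η (actL U V A) = dv t η A := by
  have hd := (XE_contDiff ht hη f).differentiable one_ne_zero
  let c := LinearMap.toContinuousLinearMap (actL U V)
  have h1 := (hd (c A)).hasFDerivAt.comp A c.hasFDerivAt
  have h2 := c.hasFDerivAt.comp A (hd A).hasFDerivAt
  have e : XE t η ∘ c = c ∘ XE t η := funext fun B => XE_act ht hη f hU hV B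
  rw [e] at h1
  have h3 := h1.unique h2
  have h4 : ∀ B, fderiv ℝ (XE t η) (actL U V A) (actL U V B) =
      actL U V (fderiv ℝ (XE t η) A B) := fun B => congrArg (fun L => L B) h3
  have h5 : (fderiv ℝ (XE t η) (actL U V A)).toLinearMap =
      actL U V ∘ₗ ((fderiv ℝ (XE t η) A).toLinearMap ∘ₗ actL Uᵀ Vᵀ) := by
    refine LinearMap.ext fun B => ?_
    have := h4 (actL Uᵀ Vᵀ B)
    rw [actL_actL, hU.left, hV.left, actL_one] at this
    exact this
  have h6 : ((fderiv ℝ (XE t η) A).toLinearMap ∘ₗ actL Uᵀ Vᵀ) ∘ₗ actL U V =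
      (fderiv ℝ (XE t η) A).toLinearMap := by
    refine LinearMap.ext fun B => ?_
    simp only [LinearMap.comp_apply]
    rw [actL_actL, hU, hV, actL_one]
  have h7 := trace_eq (fderiv ℝ (XE t η) (actL U V A)).toLinearMap
  have h8 := trace_eq (fderiv ℝ (XE t η) A).toLinearMap
  rw [h5, LinearMap.trace_comp_comm', h6, h8, ← h5] at h7
  exact h7.symm

/-- A curve of rotations with generator `K`. -/
noncomputable def rot (K : Matrix κ κ ℝ) (y : ℝ) : Matrix κ κ ℝ :=
  1 + Real.sin y • K + (1 - Real.cos y) • (K * K)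

theorem rot_ort {K : Matrix κ κ ℝ} (h1 : Kᵀ = -K) (h3 : K * (K * K) = -K) (y : ℝ) :
    Ort (rot K y) := by
  unfold Ort rot
  simp only [transpose_add, transpose_smul, transpose_mul, transpose_one, h1, Matrix.mul_add,
    Matrix.add_mul, Matrix.mul_smul, Matrix.smul_mul, Matrix.mul_neg, Matrix.neg_mul,
    Matrix.mul_one, Matrix.one_mul, neg_neg, Matrix.mul_assoc, h3]
  have h := Real.sin_sq_add_cos_sq y
  match_scalars
  · ring
  · ring
  · linear_combination (-1 : ℝ) * h

/-- The generator of the rotation in a coordinate plane. -/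
def gen (a b : κ) : Matrix κ κ ℝ := single a b 1 - single b a 1

theorem gen_ort {a b : κ} (h : a ≠ b) (y : ℝ) : Ort (rot (gen a b) y) := by
  apply rot_ort
  · simp [gen, transpose_sub]
  · simp [gen, Matrix.mul_sub, Matrix.sub_mul, single_mul_single_same,
      single_mul_single_of_ne, h, h.symm]
    abel

theorem curve {E : Type*} [NormedAddCommGroup E] [NormedSpace ℝ E] {X : E → E}
    (hX : Differentiable ℝ X) {B Y Z B' Y' Z' : E}
    (h : ∀ y : ℝ, X (B + Real.sin y • Y + (1 - Real.cos y) • Z) =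
      B' + Real.sin y • Y' + (1 - Real.cos y) • Z') : fderiv ℝ X B Y = Y' := by
  have g : ∀ B Y Z : E,
      HasDerivAt (fun y : ℝ => B + Real.sin y • Y + (1 - Real.cos y) • Z) Y 0 := by
    intro B Y Z
    have := (((Real.hasDerivAt_sin 0).smul_const Y).const_add B).fun_add
      (((Real.hasDerivAt_cos 0).const_sub 1).smul_const Z)
    simpa using this
  have h1 : HasFDerivAt X (fderiv ℝ X B) (B + Real.sin 0 • Y + (1 - Real.cos 0) • Z) := by
    simpa using (hX B).hasFDerivAt
  have h2 := h1.comp_hasDerivAt (0 : ℝ) (g B Y Z)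
  have e : (X ∘ fun y : ℝ => B + Real.sin y • Y + (1 - Real.cos y) • Z) =
      fun y : ℝ => B' + Real.sin y • Y' + (1 - Real.cos y) • Z' := funext h
  rw [e] at h2
  exact h2.unique (g B' Y' Z')

/-- The diagonal matrix as a point of the coordinate space. -/
def DE (f : ι ↪ κ) (s : ι → ℝ) : ι → κ → ℝ := fun a b => DD f s a b

theorem XE_DE (ht : 0 ≤ t) (hη : 0 < η) (f : ι ↪ κ) (s : ι → ℝ) :
    XE t η (DE f s) = DE f (xx t η s) := by
  have := XE_act ht hη f ort_one ort_one (DE f s)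
  have h := XX_svd ht hη f ort_one ort_one s
  simp only [transpose_one, Matrix.one_mul, Matrix.mul_one] at h
  funext a b
  exact congrFun (congrFun h a) b

theorem fd_left (ht : 0 ≤ t) (hη : 0 < η) (f : ι ↪ κ) (s : ι → ℝ) {a j : ι} (h : a ≠ j) :
    fderiv ℝ (XE t η) (DE f s) (s j • EE a (f j) - s a • EE j (f a)) =
      xx t η s j • EE a (f j) - xx t η s a • EE j (f a) := by
  have g : ∀ z : ι → ℝ, gen a j * DD f z = z j • single a (f j) 1 - z a • single j (f a) 1 := by
    have g1 : ∀ (z : ι → ℝ) (a j : ι), single a j (1 : ℝ) * DD f z = z j • single a (f j) 1 := by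
      intro z a j
      ext i c
      simp only [DD, Matrix.mul_apply, of_apply, single_apply, Matrix.smul_apply, smul_eq_mul]
      rw [sum_eq_single j (by intro k _ hk; simp [hk.symm]) (by simp)]
      by_cases h1 : a = i <;> by_cases h2 : c = f j <;> simp [h1, h2, eq_comm]
    intro z
    rw [gen, Matrix.sub_mul, g1, g1]
  have k : ∀ (z : ι → ℝ) (y : ℝ), actL (rot (gen a j) y)ᵀ 1 (DE f z) = DE f z +
      Real.sin y • (z j • EE a (f j) - z a • EE j (f a)) +
      (1 - Real.cos y) • fun i c => (gen a j * gen a j * DD f z) i c := by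
    intro z y
    funext i c
    change ((rot (gen a j) y)ᵀᵀ * DD f z * (1 : Matrix κ κ ℝ)) i c = (DD f z + Real.sin y •
      (z j • single a (f j) (1 : ℝ) - z a • single j (f a) (1 : ℝ)) +
      (1 - Real.cos y) • (gen a j * gen a j * DD f z) : Matrix ι κ ℝ) i c
    rw [transpose_transpose, Matrix.mul_one, rot, Matrix.add_mul, Matrix.add_mul, Matrix.one_mul,
      Matrix.smul_mul, Matrix.smul_mul, g]
  exact curve ((XE_contDiff ht hη f).differentiable one_ne_zero) fun y => by
    rw [← k s y, XE_act ht hη f (gen_ort h y).tr ort_one, XE_DE ht hη, k]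

omit [Fintype ι] in
theorem DD_single (f : ι ↪ κ) (z : ι → ℝ) (a : ι) (b : κ) :
    DD f z * single (f a) b (1 : ℝ) = z a • single a b 1 := by
  ext i c
  simp only [DD, Matrix.mul_apply, of_apply, single_apply, Matrix.smul_apply, smul_eq_mul]
  rw [sum_eq_single (f a) (by intro k _ hk; simp [hk.symm]) (by simp)]
  by_cases h1 : a = i <;> by_cases h2 : b = c <;> simp [h1, h2]

theorem fd_right (ht : 0 ≤ t) (hη : 0 < η) (f : ι ↪ κ) (s : ι → ℝ) {b c : κ} (h : b ≠ c) :
    fderiv ℝ (XE t η) (DE f s) (fun i e => (DD f s * gen b c) i e) =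
      fun i e => (DD f (xx t η s) * gen b c) i e := by
  have k : ∀ (z : ι → ℝ) (y : ℝ), actL 1 (rot (gen b c) y) (DE f z) = DE f z +
      Real.sin y • (fun i e => (DD f z * gen b c) i e) +
      (1 - Real.cos y) • fun i e => (DD f z * (gen b c * gen b c)) i e := by
    intro z y
    funext i e
    change ((1 : Matrix ι ι ℝ)ᵀ * DD f z * rot (gen b c) y) i e = (DD f z + Real.sin y •
      (DD f z * gen b c) + (1 - Real.cos y) • (DD f z * (gen b c * gen b c))) i e
    rw [transpose_one, Matrix.one_mul, rot, Matrix.mul_add, Matrix.mul_add, Matrix.mul_one,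
      Matrix.mul_smul, Matrix.mul_smul]
  exact curve ((XE_contDiff ht hη f).differentiable one_ne_zero) fun y => by
    rw [← k s y, XE_act ht hη f ort_one (gen_ort h y), XE_DE ht hη, k]

theorem fd_pair (ht : 0 ≤ t) (hη : 0 < η) (f : ι ↪ κ) (s : ι → ℝ) {a j : ι} (h : a ≠ j)
    (hs : s a ^ 2 ≠ s j ^ 2) : fderiv ℝ (XE t η) (DE f s) (EE a (f j)) a (f j) =
      (s a * xx t η s a - s j * xx t η s j) / (s a ^ 2 - s j ^ 2) := by
  have h1 := congrFun (congrFun (fd_left ht hη f s h) a) (f j)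
  have h2 := fd_right ht hη f s (f.injective.ne h)
  have g : ∀ z : ι → ℝ, (fun i e => (DD f z * gen (f a) (f j)) i e) =
      z a • EE a (f j) - z j • EE j (f a) := by
    intro z
    rw [gen, Matrix.mul_sub, DD_single, DD_single]; rfl
  rw [g, g] at h2
  have h3 := congrFun (congrFun h2 a) (f j)
  have e1 : EE a (f j) a (f j) = 1 := by simp [EE]
  have e2 : EE j (f a) a (f j) = 0 := by simp [EE, h.symm]
  simp only [map_sub, map_smul, Pi.sub_apply, Pi.smul_apply, smul_eq_mul, e1, e2] at h1 h3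
  rw [eq_div_iff (sub_ne_zero.2 hs)]
  linear_combination s a * h3 - s j * h1

theorem fd_out (ht : 0 ≤ t) (hη : 0 < η) (f : ι ↪ κ) (s : ι → ℝ) (a : ι) {b : κ}
    (hb : ∀ j, f j ≠ b) (hs : s a ≠ 0) :
    fderiv ℝ (XE t η) (DE f s) (EE a b) a b = nu t η s a := by
  have h2 := fd_right ht hη f s (hb a)
  have g : ∀ z : ι → ℝ, (fun i e => (DD f z * gen (f a) b) i e) = z a • EE a b := by
    intro z
    have : DD f z * single b (f a) (1 : ℝ) = 0 := by
      ext i c
      simp only [DD, Matrix.mul_apply, of_apply, single_apply, Matrix.zero_apply]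
      refine sum_eq_zero fun k _ => ?_
      by_cases h1 : k = f i
      · subst h1; simp [(hb i).symm]
      · simp [h1]
    rw [gen, Matrix.mul_sub, DD_single, this, sub_zero]; rfl
  rw [g, g] at h2
  have h3 := congrFun (congrFun h2 a) b
  have e1 : EE a b a b = 1 := by simp [EE]
  simp only [map_smul, Pi.smul_apply, smul_eq_mul, e1] at h3
  rw [← nu_mul ht hη] at h3
  exact mul_left_cancel₀ hs (by linarith)

theorem fd_diag (ht : 0 ≤ t) (hη : 0 < η) (f : ι ↪ κ) (s : ι → ℝ) (a : ι) :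
    fderiv ℝ (XE t η) (DE f s) (EE a (f a)) a (f a) =
      ∑ j ∈ univ.erase a, (ph1 t η (s a) (s j) + ph1 t η (s a) (-s j)) := by
  have hd := (XE_contDiff ht hη f).differentiable one_ne_zero
  have h0 : HasDerivAt (fun y : ℝ => DE f s + y • EE a (f a)) (EE a (f a)) 0 := by
    simpa using ((hasDerivAt_id' (0 : ℝ)).smul_const (EE a (f a))).const_add (DE f s)
  have h1 : HasFDerivAt (XE t η) (fderiv ℝ (XE t η) (DE f s)) (DE f s + (0 : ℝ) • EE a (f a)) := by
    simpa using (hd (DE f s)).hasFDerivAt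
  have h2 := hasDerivAt_pi.1 (hasDerivAt_pi.1 (h1.comp_hasDerivAt (0 : ℝ) h0) a) (f a)
  have e : ∀ y : ℝ, DE f s + y • EE a (f a) = DE f (Function.update s a (s a + y)) := by
    intro y
    funext i c
    simp only [DE, DD, EE, of_apply, Pi.add_apply, Pi.smul_apply, smul_eq_mul, single_apply]
    by_cases h1 : a = i
    · subst h1
      by_cases h2 : c = f a <;> simp [h2, eq_comm]
    · simp [h1, Function.update_of_ne (Ne.symm h1)]
  have e2 : (fun y : ℝ => (XE t η ∘ fun y : ℝ => DE f s + y • EE a (f a)) y a (f a)) =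
      fun y : ℝ => ∑ j ∈ univ.erase a, (ph t η (s a + y) (s j) + ph t η (s a + y) (-s j)) := by
    funext y
    simp only [Function.comp_apply, e, XE_DE ht hη]
    simp only [DE, DD, of_apply, if_true, xx, ps, Function.update_self]
    exact sum_congr rfl fun j hj => by rw [Function.update_of_ne (ne_of_mem_erase hj)]
  rw [e2] at h2
  exact h2.unique (HasDerivAt.fun_sum fun j _ =>
    (hasDerivAt_ph ht hη _ _).fun_add (hasDerivAt_ph ht hη _ _))

theorem dv_gen (ht : 0 ≤ t) (hη : 0 < η) (f : ι ↪ κ) (s : ι → ℝ) (h0 : ∀ a, s a ≠ 0)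
    (hs : ∀ a j, a ≠ j → s a ^ 2 ≠ s j ^ 2) : FF t η s ≤ dv t η (DE f s) := by
  have h1 := div_ge ht hη s hs
  have h2 : 0 ≤ ∑ a, nu t η s a := nu_nonneg ht hη (fun a => s a ^ 2) fun _ => sq_nonneg _
  have e : dv t η (DE f s) = ∑ a, ∑ j ∈ univ.erase a, (ph1 t η (s a) (s j) +
      ph1 t η (s a) (-s j) + (s a * xx t η s a - s j * xx t η s j) / (s a ^ 2 - s j ^ 2)) +
      ∑ a, ∑ _b ∈ (univ.map f)ᶜ, nu t η s a := by
    unfold dv
    rw [← sum_add_distrib]
    refine sum_congr rfl fun a _ => ?_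
    rw [← sum_add_sum_compl (univ.map f), sum_map, ← add_sum_erase _ _ (mem_univ a), fd_diag ht hη,
      sum_add_distrib (f := fun j => ph1 t η (s a) (s j) + ph1 t η (s a) (-s j))]
    have k1 : ∑ j ∈ univ.erase a, fderiv ℝ (XE t η) (DE f s) (EE a (f j)) a (f j) =
        ∑ j ∈ univ.erase a, (s a * xx t η s a - s j * xx t η s j) / (s a ^ 2 - s j ^ 2) :=
      sum_congr rfl fun j hj =>
        fd_pair ht hη f s (ne_of_mem_erase hj).symm (hs _ _ (ne_of_mem_erase hj).symm)
    have k2 : ∑ b ∈ (univ.map f)ᶜ, fderiv ℝ (XE t η) (DE f s) (EE a b) a b =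
        ∑ _b ∈ (univ.map f)ᶜ, nu t η s a :=
      sum_congr rfl fun b hb => fd_out ht hη f s a
        (fun j hj => (mem_compl.1 hb) (mem_map.2 ⟨j, mem_univ j, hj⟩)) (h0 a)
    rw [k1, k2]
  rw [e, Finset.sum_comm (s := univ) (t := (univ.map f)ᶜ)]
  have h3 : 0 ≤ ∑ _b ∈ (univ.map f)ᶜ, ∑ a, nu t η s a := sum_nonneg fun _ _ => h2
  linarith

theorem dv_cont (ht : 0 ≤ t) (hη : 0 < η) (f : ι ↪ κ) :
    Continuous (dv t η : (ι → κ → ℝ) → ℝ) := by
  have h := (XE_contDiff ht hη f).continuous_fderiv one_ne_zero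
  refine continuous_finsetSum _ fun a _ => continuous_finsetSum _ fun b _ => ?_
  exact (continuous_apply b).comp ((continuous_apply a).comp (h.clm_apply continuous_const))

theorem dv_diag (ht : 0 ≤ t) (hη : 0 < η) (f : ι ↪ κ) (s : ι → ℝ) :
    FF t η s ≤ dv t η (DE f s) := by
  let c : ι → ℝ := fun a => (Fintype.equivFin ι a : ℕ) + 1
  have hc : ∀ a, 0 < c a := fun a => by positivity
  have hi : ∀ a j, a ≠ j → c a - c j ≠ 0 := by
    intro a j h h'
    apply h
    apply (Fintype.equivFin ι).injective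
    apply Fin.ext
    have : ((Fintype.equivFin ι a : ℕ) : ℝ) = (Fintype.equivFin ι j : ℕ) := by
      simp only [c] at h'; linarith
    exact_mod_cast this
  let bad : Set ℝ := (Set.range fun a => -s a / c a) ∪
    (Set.range fun p : ι × ι => (s p.2 - s p.1) / (c p.1 - c p.2)) ∪
    Set.range fun p : ι × ι => -(s p.1 + s p.2) / (c p.1 + c p.2)
  have hfin : bad.Finite :=
    ((Set.finite_range _).union (Set.finite_range _)).union (Set.finite_range _)
  have h1 : Continuous fun y : ℝ => FF t η fun a => s a + y * c a := by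
    refine continuous_finsetSum _ fun a _ => continuous_finsetSum _ fun j _ => ?_
    refine Continuous.div ?_ ?_ fun y => (pow_pos (dn_pos ht hη _ _) 2).ne'
    · unfold ee; fun_prop
    · unfold ee; fun_prop
  have h2 : Continuous fun y : ℝ => dv t η (DE f fun a => s a + y * c a) := by
    refine (dv_cont ht hη f).comp (continuous_pi fun a => continuous_pi fun b => ?_)
    simp only [DE, DD, of_apply]
    split_ifs <;> fun_prop
  have h3 : badᶜ ⊆ {y : ℝ | FF t η (fun a => s a + y * c a) ≤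
      dv t η (DE f fun a => s a + y * c a)} := by
    intro y hy
    refine dv_gen ht hη f _ (fun a h => hy (Or.inl (Or.inl ⟨a, ?_⟩))) fun a j h h' => hy ?_
    · have := hc a
      field_simp; linarith
    · rcases sq_eq_sq_iff_eq_or_eq_neg.1 h' with h4 | h4
      · refine Or.inl (Or.inr ⟨(a, j), ?_⟩)
        have := hi a j h
        field_simp; linarith
      · refine Or.inr ⟨(a, j), ?_⟩
        have := add_pos (hc a) (hc j)
        field_simp; linarith
  have h4 := (isClosed_le h1 h2).closure_subset_iff.2 h3 (hfin.countable.dense_compl ℝ 0)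
  simpa using h4

theorem dv_svd (ht : 0 ≤ t) (hη : 0 < η) (f : ι ↪ κ) {U : Matrix ι ι ℝ} (hU : Ort U)
    {V : Matrix κ κ ℝ} (hV : Ort V) (s : ι → ℝ) : FF t η s ≤ dv t η (actL U V (DE f s)) := by
  rw [dv_act ht hη f hU hV]; exact dv_diag ht hη f s

end Gp429
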