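import Pool.Agent.P.MP_429aeb_pr.GpDiv

/-! The Gaussian density, its invariance and integration by parts. -/

open Finset Matrix MeasureTheory ProbabilityTheory
open scoped NNReal ENNReal

namespace Gp429

theorem pi_dens {ι : Type*} [Fintype ι] {α : Type*} [MeasurableSpace α] (μ : Measure α)
    [SigmaFinite μ] {g : α → ℝ} (h0 : ∀ x, 0 ≤ g x) (hi : Integrable g μ)
    (P : Measure α) [SigmaFinite P] (hP : P = μ.withDensity fun x => ENNReal.ofReal (g x)) :
    (Measure.pi fun _ : ι => P) =
      (Measure.pi fun _ : ι => μ).withDensity fun x => ENNReal.ofReal (∏ i, g (x i)) := by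
  refine Measure.pi_eq fun s hs => ?_
  have hI : Integrable (fun x : ι → α => ∏ i, g (x i)) (Measure.pi fun _ : ι => μ) :=
    Integrable.fintype_prod (f := fun _ : ι => g) fun _ => hi
  rw [withDensity_apply _ (MeasurableSet.univ_pi hs), ← ofReal_integral_eq_lintegral_ofReal
    hI.integrableOn (Filter.Eventually.of_forall fun x => prod_nonneg fun i _ => h0 _),
    ← integral_indicator (MeasurableSet.univ_pi hs)]
  have e : (Set.univ.pi s).indicator (fun x : ι → α => ∏ i, g (x i)) =
      fun x => ∏ i, (s i).indicator g (x i) := by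
    funext x
    by_cases hx : x ∈ Set.univ.pi s
    · rw [Set.indicator_of_mem hx]
      exact prod_congr rfl fun i _ => (Set.indicator_of_mem (hx i (Set.mem_univ i)) g).symm
    · rw [Set.indicator_of_notMem hx]
      obtain ⟨i, hi'⟩ : ∃ i, x i ∉ s i := by simpa [Set.mem_pi] using hx
      exact (prod_eq_zero (mem_univ i) (Set.indicator_of_notMem hi' g)).symm
  rw [e, integral_fintype_prod_eq_prod (fun i => (s i).indicator g), ENNReal.ofReal_prod_of_nonneg
    fun i _ => integral_nonneg fun x => Set.indicator_nonneg (fun y _ => h0 y) x]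
  refine prod_congr rfl fun i _ => ?_
  rw [hP, withDensity_apply _ (hs i), integral_indicator (hs i),
    ofReal_integral_eq_lintegral_ofReal hi.integrableOn (Filter.Eventually.of_forall h0)]

variable {ι κ : Type*} [Fintype ι] [DecidableEq ι] [Fintype κ] [DecidableEq κ]

/-- The Frobenius inner product. -/
def ip (B C : ι → κ → ℝ) : ℝ := ∑ a, ∑ b, B a b * C a b

/-- The Gaussian matrix. -/
noncomputable abbrev PP (ι κ : Type*) [Fintype ι] [Fintype κ] (v : ℝ≥0) : Measure (ι → κ → ℝ) :=
  Measure.pi fun _ : ι => Measure.pi fun _ : κ => gaussianReal 0 v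

/-- Lebesgue measure. -/
noncomputable abbrev mu (ι κ : Type*) [Fintype ι] [Fintype κ] : Measure (ι → κ → ℝ) :=
  Measure.pi fun _ : ι => Measure.pi fun _ : κ => (volume : Measure ℝ)

/-- The Gaussian density. -/
noncomputable def rho (v : ℝ≥0) (G : ι → κ → ℝ) : ℝ :=
  ((Real.sqrt (2 * Real.pi * v))⁻¹ ^ Fintype.card κ) ^ Fintype.card ι *
    Real.exp (-(ip G G) / (2 * v))

variable {v : ℝ≥0}

omit [DecidableEq ι] [DecidableEq κ] in
theorem rho_nonneg (G : ι → κ → ℝ) : 0 ≤ rho v G := by unfold rho; positivity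

omit [DecidableEq ι] [DecidableEq κ] in
theorem rho_cont : Continuous (rho v : (ι → κ → ℝ) → ℝ) := by unfold rho ip; fun_prop

omit [DecidableEq ι] [DecidableEq κ] in
theorem PP_eq (hv : v ≠ 0) :
    PP ι κ v = (mu ι κ).withDensity fun G => ENNReal.ofReal (rho v G) := by
  have h1 := pi_dens (ι := κ) volume (gaussianPDFReal_nonneg 0 v) (integrable_gaussianPDFReal 0 v)
    (gaussianReal 0 v) (gaussianReal_of_var_ne_zero 0 hv)
  have h2 := pi_dens (ι := ι) (Measure.pi fun _ : κ => (volume : Measure ℝ))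
    (g := fun x => ∏ j, gaussianPDFReal 0 v (x j))
    (fun x => prod_nonneg fun j _ => gaussianPDFReal_nonneg 0 v _)
    (Integrable.fintype_prod (f := fun _ : κ => gaussianPDFReal 0 v)
      fun _ => integrable_gaussianPDFReal 0 v) _ h1
  rw [PP, h2]
  congr 1
  funext G
  congr 1
  simp only [gaussianPDFReal_def, prod_mul_distrib, prod_const, card_univ, ← Real.exp_sum, rho, ip,
    sub_zero]
  congr 2
  simp only [neg_div, sum_neg_distrib, sum_div, pow_two]

omit [DecidableEq ι] [DecidableEq κ] in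
theorem int_PP (hv : v ≠ 0) (g : (ι → κ → ℝ) → ℝ) :
    ∫ G, g G ∂PP ι κ v = ∫ G, g G * rho v G ∂mu ι κ := by
  rw [PP_eq hv, integral_withDensity_eq_integral_toReal_smul rho_cont.measurable.ennreal_ofReal
    (Filter.Eventually.of_forall fun _ => ENNReal.ofReal_lt_top)]
  simp only [ENNReal.toReal_ofReal (rho_nonneg _), smul_eq_mul, mul_comm]

omit [DecidableEq ι] [DecidableEq κ] in
theorem integrable_mu (hv : v ≠ 0) {g : (ι → κ → ℝ) → ℝ} (h : Integrable g (PP ι κ v)) :
    Integrable (fun G => g G * rho v G) (mu ι κ) := by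
  rw [PP_eq hv, integrable_withDensity_iff rho_cont.measurable.ennreal_ofReal
    (Filter.Eventually.of_forall fun _ => ENNReal.ofReal_lt_top)] at h
  simpa only [ENNReal.toReal_ofReal (rho_nonneg _)] using h

omit [DecidableEq ι] [DecidableEq κ] in
theorem memLp_coord (k : ℕ) (i : ι) (j : κ) :
    MemLp (fun G : ι → κ → ℝ => |G i j|) k (PP ι κ v) := by
    have m1 : MeasurePreserving (fun x : κ → ℝ => x j)
        (Measure.pi fun _ : κ => gaussianReal 0 v) (gaussianReal 0 v) :=
      measurePreserving_eval (fun _ : κ => gaussianReal 0 v) j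
    have m2 : MeasurePreserving (fun G : ι → κ → ℝ => G i) (PP ι κ v)
        (Measure.pi fun _ : κ => gaussianReal 0 v) :=
      measurePreserving_eval (fun _ : ι => Measure.pi fun _ : κ => gaussianReal 0 v) i
    have m3 : MeasurePreserving (fun G : ι → κ → ℝ => G i j) (PP ι κ v) (gaussianReal 0 v) :=
      m1.comp m2
    have m4 : MemLp (fun x : ℝ => |x|) k (gaussianReal 0 v) :=
      (memLp_id_gaussianReal' (μ := 0) (v := v) k (by simp)).norm
    exact m4.comp_measurePreserving m3

omit [DecidableEq ι] [DecidableEq κ] in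
theorem memLp_sum (k : ℕ) : MemLp (fun G : ι → κ → ℝ => 1 + ∑ i, ∑ j, |G i j|) k (PP ι κ v) := by
  have h1 : ∀ i, MemLp (fun G : ι → κ → ℝ => ∑ j, |G i j|) k (PP ι κ v) := fun i =>
    memLp_finsetSum (f := fun j (G : ι → κ → ℝ) => |G i j|) univ fun j _ => memLp_coord k i j
  have h2 : MemLp (fun G : ι → κ → ℝ => ∑ i, ∑ j, |G i j|) k (PP ι κ v) :=
    memLp_finsetSum (f := fun i (G : ι → κ → ℝ) => ∑ j, |G i j|) univ fun i _ => h1 i
  have h3 : MemLp (fun _ : ι → κ → ℝ => (1 : ℝ)) k (PP ι κ v) := memLp_const 1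
  exact h3.add h2

omit [DecidableEq ι] [DecidableEq κ] in
theorem norm_le_sum (G : ι → κ → ℝ) : ‖G‖ ≤ ∑ i, ∑ j, |G i j| := by
  have hs : 0 ≤ ∑ i, ∑ j, |G i j| := sum_nonneg fun _ _ => sum_nonneg fun _ _ => abs_nonneg _
  refine (pi_norm_le_iff_of_nonneg hs).2 fun i => (pi_norm_le_iff_of_nonneg hs).2 fun j => ?_
  calc ‖G i j‖ = |G i j| := rfl
      _ ≤ ∑ j, |G i j| := single_le_sum (f := fun j => |G i j|) (fun _ _ => abs_nonneg _)
          (mem_univ j)
      _ ≤ _ := single_le_sum (f := fun i => ∑ j, |G i j|)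
          (fun _ _ => sum_nonneg fun _ _ => abs_nonneg _) (mem_univ i)

omit [DecidableEq ι] [DecidableEq κ] in
theorem Gr.integrable {g : (ι → κ → ℝ) → ℝ} (h : Gr g) (hc : Continuous g) :
    Integrable g (PP ι κ v) := by
  obtain ⟨C, k, hC, h⟩ := h
  have h5 : Integrable (fun G : ι → κ → ℝ => C * ‖1 + ∑ i, ∑ j, |G i j|‖ ^ k) (PP ι κ v) :=
    (memLp_sum k).integrable_norm_pow'.const_mul C
  have h6 : AEStronglyMeasurable g (PP ι κ v) := hc.measurable.aestronglyMeasurable
  refine h5.mono' h6 (Filter.Eventually.of_forall fun G => ?_)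
  have h3 := norm_le_sum G
  have h4 := norm_nonneg G
  rw [Real.norm_eq_abs, Real.norm_of_nonneg (by linarith)]
  exact (h G).trans (mul_le_mul_of_nonneg_left (pow_le_pow_left₀ (by linarith) (by linarith) k) hC)

omit [DecidableEq ι] [DecidableEq κ] in
theorem P1.integrable {g : (ι → κ → ℝ) → ℝ} (h : P1 g) : Integrable g (PP ι κ v) :=
  h.2.1.integrable h.1.continuous

omit [DecidableEq ι] [DecidableEq κ] in
theorem P1.integrable' {g : (ι → κ → ℝ) → ℝ} (h : P1 g) (w : ι → κ → ℝ) :
    Integrable (fun G => fderiv ℝ g G w) (PP ι κ v) :=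
  (h.2.2 w).integrable ((h.1.continuous_fderiv one_ne_zero).clm_apply continuous_const)

omit [DecidableEq ι] [DecidableEq κ] in
theorem line_deriv {g : (ι → κ → ℝ) → ℝ} (hg : Differentiable ℝ g) (G w : ι → κ → ℝ) :
    HasDerivAt (fun y : ℝ => g (G + y • w)) (fderiv ℝ g G w) 0 := by
  have h0 : HasDerivAt (fun y : ℝ => G + y • w) w 0 := by
    simpa using ((hasDerivAt_id' (0 : ℝ)).smul_const w).const_add G
  have h1 : HasFDerivAt g (fderiv ℝ g G) (G + (0 : ℝ) • w) := by simpa using (hg G).hasFDerivAt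
  exact h1.comp_hasDerivAt (0 : ℝ) h0

theorem ip_EE (G : ι → κ → ℝ) (a : ι) (b : κ) : ip G (EE a b) = G a b := by
  simp only [ip, EE, single_apply, mul_ite, mul_one, mul_zero]
  rw [sum_eq_single a (by intro i _ hi; simp [hi.symm]) (by simp)]
  simp

omit [DecidableEq ι] [DecidableEq κ] in
theorem ip_expand (G w : ι → κ → ℝ) (y : ℝ) :
    ip (G + y • w) (G + y • w) = ip G G + 2 * y * ip G w + y ^ 2 * ip w w := by
  simp only [ip, Pi.add_apply, Pi.smul_apply, smul_eq_mul, mul_sum, ← sum_add_distrib]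
  exact sum_congr rfl fun _ _ => sum_congr rfl fun _ _ => by ring

theorem rho_deriv (G : ι → κ → ℝ) (a : ι) (b : κ) :
    fderiv ℝ (rho v) G (EE a b) = -(G a b / v) * rho v G := by
  have hd : Differentiable ℝ (rho v : (ι → κ → ℝ) → ℝ) := by unfold rho ip; fun_prop
  refine (line_deriv hd G (EE a b)).unique ?_
  simp only [rho, ip_expand, ip_EE]
  have h1 : HasDerivAt (fun y : ℝ => ip G G + 2 * y * G a b + y ^ 2 * EE a b a b)
      (2 * G a b) 0 := by
    have := ((((hasDerivAt_id' (0 : ℝ)).const_mul 2).mul_const (G a b)).const_add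
      (ip G G)).fun_add (((hasDerivAt_id' (0 : ℝ)).fun_pow 2).mul_const (EE a b a b))
    simpa using this
  refine (((h1.fun_neg.div_const (2 * (v : ℝ))).exp).const_mul _).congr_deriv ?_
  simp only [mul_zero, zero_mul, add_zero, ne_eq, OfNat.ofNat_ne_zero, not_false_eq_true, zero_pow]
  ring

/-- Gaussian integration by parts. -/
theorem stein (hv : v ≠ 0) {g : (ι → κ → ℝ) → ℝ} (h : P1 g) (a : ι) (b : κ) :
    ∫ G, fderiv ℝ g G (EE a b) ∂PP ι κ v = (∫ G, g G * G a b ∂PP ι κ v) / v := by
  have hd : Differentiable ℝ (rho v : (ι → κ → ℝ) → ℝ) := by unfold rho ip; fun_prop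
  have e : ∀ G, g G * fderiv ℝ (rho v) G (EE a b) = -(1 / v) * (g G * G a b * rho v G) := by
    intro G; rw [rho_deriv]; ring
  have h1 := integral_mul_fderiv_eq_neg_fderiv_mul_of_integrable (μ := mu ι κ) (f := g)
    (g := rho v) (v := EE a b) (integrable_mu hv (h.integrable' _))
    (by simp only [e]; exact (integrable_mu hv (h.mul (P1.coord a b)).integrable).const_mul _)
    (integrable_mu hv h.integrable) (fun x _ => h.diff x) (fun x _ => hd x)
  simp only [e, integral_const_mul] at h1
  rw [int_PP hv, int_PP hv]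
  linear_combination h1

omit [DecidableEq ι] [DecidableEq κ] in
theorem ip_trace (B C : ι → κ → ℝ) : ip B C = (of B * (of C)ᵀ).trace := by
  simp [ip, Matrix.trace, Matrix.mul_apply]

theorem ip_act {U : Matrix ι ι ℝ} (hU : Ort U) {V : Matrix κ κ ℝ} (hV : Ort V)
    (B C : ι → κ → ℝ) : ip (actL U V B) (actL U V C) = ip B C := by
  rw [ip_trace, ip_trace]
  change (Uᵀ * of B * V * (Uᵀ * of C * V)ᵀ).trace = _
  have e : Uᵀ * of B * V * (Uᵀ * of C * V)ᵀ = Uᵀ * (of B * (V * Vᵀ) * (of C)ᵀ) * U := by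
    rw [transpose_mul, transpose_mul, transpose_transpose]; simp only [Matrix.mul_assoc]
  rw [e, hV, Matrix.mul_one, trace_mul_cycle, hU, Matrix.one_mul]

theorem act_pres {U : Matrix ι ι ℝ} (hU : Ort U) {V : Matrix κ κ ℝ} (hV : Ort V) :
    MeasurePreserving (actL U V) (mu ι κ) (mu ι κ) := by
  have hm : Measurable (actL U V : (ι → κ → ℝ) → ι → κ → ℝ) :=
    (LinearMap.continuous_of_finiteDimensional _).measurable
  have hdet : LinearMap.det (actL U V) ≠ 0 := by
    have e : actL U V ∘ₗ actL Uᵀ Vᵀ = LinearMap.id := by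
      refine LinearMap.ext fun B => ?_
      simp only [LinearMap.comp_apply, LinearMap.id_apply]
      rw [actL_actL, hU.left, hV.left, actL_one]
    have := congrArg LinearMap.det e
    rw [LinearMap.det_comp, LinearMap.det_id] at this
    exact left_ne_zero_of_mul_eq_one this
  have h1 := Measure.map_linearMap_addHaar_eq_smul_addHaar (mu ι κ) hdet
  have h2 : ∫⁻ G, ENNReal.ofReal (rho 1 G) ∂mu ι κ = 1 := by
    have := congrArg (fun m : Measure (ι → κ → ℝ) => m Set.univ) (PP_eq (ι := ι) (κ := κ) one_ne_zero)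
    simpa using this.symm
  have h3 : ∫⁻ G, ENNReal.ofReal (rho 1 G) ∂(mu ι κ).map (actL U V) = 1 := by
    rw [lintegral_map rho_cont.measurable.ennreal_ofReal hm, ← h2]
    simp only [rho, ip_act hU hV]
  rw [h1, lintegral_smul_measure, h2, smul_eq_mul, mul_one] at h3
  exact ⟨hm, by rw [h1, h3, one_smul]⟩

theorem mean_sq (hv : v ≠ 0) (B : ι → κ → ℝ) :
    ∫ G, ip (B + G) (B + G) ∂PP ι κ v = ip B B + Fintype.card ι * Fintype.card κ * v := by
  have hv' : (v : ℝ) ≠ 0 := by exact_mod_cast hv
  have h1 : ∀ a b, ∫ G, G a b ∂PP ι κ v = 0 := by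
    intro a b
    have := stein hv (P1.const (E := ι → κ → ℝ) 1) a b
    simp only [fderiv_fun_const, Pi.zero_apply, _root_.zero_apply, integral_zero, one_mul] at this
    exact (div_eq_zero_iff.1 this.symm).resolve_right hv'
  have h2 : ∀ a b, ∫ G, G a b * G a b ∂PP ι κ v = v := by
    intro a b
    have := stein hv (P1.coord a b) a b
    have e : ∀ G : ι → κ → ℝ, fderiv ℝ (fun A : ι → κ → ℝ => A a b) G (EE a b) = 1 := by
      intro G
      refine (line_deriv (P1.coord a b).diff G (EE a b)).unique ?_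
      simpa [EE] using (hasDerivAt_id' (0 : ℝ)).const_add (G a b)
    simp only [e, integral_const, probReal_univ, smul_eq_mul, mul_one] at this
    field_simp at this ⊢
    simpa [pow_two] using this.symm
  have h3 : ∀ a b, ∫ G, (B + G) a b * (B + G) a b ∂PP ι κ v = B a b * B a b + v := by
    intro a b
    have e : ∀ G : ι → κ → ℝ, (B + G) a b * (B + G) a b =
        B a b * B a b + 2 * B a b * G a b + G a b * G a b := fun G => by
      simp only [Pi.add_apply]; ring
    simp only [e]
    rw [integral_add ((P1.const _).add ((P1.const _).mul (P1.coord a b))).integrable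
      ((P1.coord a b).mul (P1.coord a b)).integrable, integral_add (integrable_const _)
      ((P1.const _).mul (P1.coord a b)).integrable, integral_const_mul (2 * B a b), h1, h2]
    simp
  have h4 : ∀ a b, P1 fun G : ι → κ → ℝ => (B + G) a b * (B + G) a b := fun a b =>
    ((P1.const _).add (P1.coord a b)).mul ((P1.const _).add (P1.coord a b))
  unfold ip
  rw [integral_finsetSum _ fun a _ => (P1.sum univ (h4 a)).integrable]
  simp only [fun a => integral_finsetSum (μ := PP ι κ v) univ fun b _ => (h4 a b).integrable, h3,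
    sum_add_distrib, sum_const, card_univ, nsmul_eq_mul]
  ring

end Gp429
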