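import Pool.Agent.P.MP_429aeb_pr.GpGauss

/-! The sign of the shift term, by reflections under Haar measure. -/

open Finset Matrix MeasureTheory ProbabilityTheory
open scoped NNReal ENNReal

namespace Gp429

variable {ι κ : Type*} [Fintype ι] [DecidableEq ι] [Fintype κ] [DecidableEq κ] {t η : ℝ}

theorem ort_iff (T : Matrix κ κ ℝ) : T ∈ unitary (Matrix κ κ ℝ) ↔ Ort T := by
  rw [Matrix.mem_unitaryGroup_iff, star_eq_conjTranspose, conjTranspose_eq_transpose_of_trivial]
  rfl

theorem compact_ort : CompactSpace (unitary (Matrix κ κ ℝ)) := by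
  have h : IsCompact (Set.univ.pi fun _ : κ => Set.univ.pi fun _ : κ => Set.Icc (-1 : ℝ) 1) :=
    isCompact_univ_pi fun _ => isCompact_univ_pi fun _ => isCompact_Icc
  have h2 : IsCompact (unitary (Matrix κ κ ℝ) : Set (Matrix κ κ ℝ)) := by
    have h' : IsCompact (X := Matrix κ κ ℝ)
        (Set.univ.pi fun _ : κ => Set.univ.pi fun _ : κ => Set.Icc (-1 : ℝ) 1) := h
    refine h'.of_isClosed_subset (isClosed_unitary (R := Matrix κ κ ℝ)) fun T hT a _ b _ => ?_
    have h1 := ((ort_iff T).1 hT).row a a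
    rw [if_pos rfl] at h1
    have h3 := single_le_sum (f := fun j => T a j * T a j) (fun _ _ => mul_self_nonneg _)
      (mem_univ b)
    exact abs_le.1 (abs_le_one_iff_mul_self_le_one.2 (by linarith))
  exact isCompact_iff_compactSpace.1 h2

/-- A signed permutation matrix. -/
def SP (τ : Equiv.Perm κ) (d : κ → ℝ) : Matrix κ κ ℝ :=
  Matrix.of fun b c => if c = τ b then d b else 0

omit [Fintype ι] [DecidableEq ι] in
theorem SP_mul (τ : Equiv.Perm κ) (d : κ → ℝ) (M : Matrix κ ι ℝ) (b : κ) (c : ι) :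
    (SP τ d * M) b c = d b * M (τ b) c := by
  simp [SP, Matrix.mul_apply]

omit [Fintype ι] [DecidableEq ι] in
theorem mul_SP (τ : Equiv.Perm κ) (d : κ → ℝ) (M : Matrix ι κ ℝ) (b : ι) (c : κ) :
    (M * (SP τ d)ᵀ) b c = M b (τ c) * d c := by
  simp [SP, Matrix.mul_apply]

theorem SP_ort (τ : Equiv.Perm κ) {d : κ → ℝ} (hd : ∀ b, d b * d b = 1) : Ort (SP τ d) := by
  ext b c
  rw [SP_mul, one_apply]
  by_cases h : b = c
  · subst h; simp [SP, hd]
  · simp [SP, h]

/-- The diagonal of the rotated shift. -/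
def cc (f : ι ↪ κ) (B : ι → κ → ℝ) (U : Matrix ι ι ℝ) (V : Matrix κ κ ℝ) (a : ι) : ℝ :=
  (U * of B * Vᵀ) a (f a)

omit [DecidableEq ι] in
theorem ip_DE (f : ι ↪ κ) (z : ι → ℝ) (C : ι → κ → ℝ) : ip (DE f z) C = ∑ a, z a * C a (f a) := by
  simp [ip, DE, DD]

theorem ip_cc (f : ι ↪ κ) (B : ι → κ → ℝ) {U : Matrix ι ι ℝ} (hU : Ort U) {V : Matrix κ κ ℝ}
    (hV : Ort V) (z : ι → ℝ) : ip (actL U V (DE f z)) B = ∑ a, z a * cc f B U V a := by
  have := ip_act hU hV (DE f z) (actL Uᵀ Vᵀ B)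
  rw [actL_actL, hU.left, hV.left, actL_one] at this
  rw [this, ip_DE]; rfl

theorem refl_step {G : Type*} [Group G] [TopologicalSpace G] [IsTopologicalGroup G]
    [CompactSpace G] [MeasurableSpace G] [BorelSpace G] (ν : Measure G) [IsFiniteMeasure ν]
    [ν.IsMulLeftInvariant] {y T : G → ℝ} (hy : Continuous y) (hT : Continuous T) (w : G)
    {p : ℝ} (h1 : ∀ k, y (w * k) = -y k) (h2 : ∀ k, T (w * k) = T k - p * y k) :
    0 ≤ ∫ k, p * y k * Real.exp (T k) ∂ν := by
  have hi : Integrable (fun k => p * y k * Real.exp (T k)) ν :=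
    Continuous.integrable_of_hasCompactSupport (by fun_prop) (HasCompactSupport.of_compactSpace _)
  have hi' : Integrable (fun k => p * y (w * k) * Real.exp (T (w * k))) ν :=
    Continuous.integrable_of_hasCompactSupport (by fun_prop) (HasCompactSupport.of_compactSpace _)
  have h3 := integral_mul_left_eq_self (μ := ν) (fun k => p * y k * Real.exp (T k)) w
  have h4 : 0 ≤ ∫ k, (p * y k * Real.exp (T k) + p * y (w * k) * Real.exp (T (w * k))) ∂ν := by
    refine integral_nonneg fun k => ?_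
    rw [h1, h2]
    rcases le_total 0 (p * y k) with h | h
    · have := Real.exp_le_exp.2 (show T k - p * y k ≤ T k by linarith)
      change 0 ≤ _
      nlinarith
    · have := Real.exp_le_exp.2 (show T k ≤ T k - p * y k by linarith)
      change 0 ≤ _
      nlinarith
  rw [integral_add hi hi'] at h4
  linarith

/-- The group of two-sided rotations. -/
abbrev KK (ι κ : Type*) [Fintype ι] [DecidableEq ι] [Fintype κ] [DecidableEq κ] :=
  unitary (Matrix ι ι ℝ) × unitary (Matrix κ κ ℝ)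

theorem cc_cont (f : ι ↪ κ) (B : ι → κ → ℝ) (a : ι) :
    Continuous fun k : KK ι κ => cc f B k.1.1 k.2.1 a := by
  have h1 : Continuous fun k : KK ι κ => k.1.1 := continuous_subtype_val.comp continuous_fst
  have h2 : Continuous fun k : KK ι κ => k.2.1 := continuous_subtype_val.comp continuous_snd
  exact ((h1.matrix_mul continuous_const).matrix_mul h2.matrix_transpose).matrix_elem a (f a)

theorem root_nonneg [CompactSpace (KK ι κ)] [MeasurableSpace (KK ι κ)] [BorelSpace (KK ι κ)]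
    (ν : Measure (KK ι κ)) [IsFiniteMeasure ν] [ν.IsMulLeftInvariant] (ht : 0 ≤ t) (hη : 0 < η)
    (f : ι ↪ κ) (B : ι → κ → ℝ) (s : ι → ℝ) {r : ℝ} (hr : 0 < r) {a j : ι} (h : a ≠ j) {ε : ℝ}
    (hε : ε * ε = 1) :
    0 ≤ ∫ k : KK ι κ, ph t η (s a) (ε * s j) *
      (cc f B k.1.1 k.2.1 a - ε * cc f B k.1.1 k.2.1 j) *
      Real.exp ((∑ b, s b * cc f B k.1.1 k.2.1 b) / r) ∂ν := by
  obtain ⟨C, hC, e⟩ := ph_sign ht hη (s a) (ε * s j)
  let d : ι → ℝ := fun b => if b = a ∨ b = j then ε else 1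
  have hd : ∀ b, d b * d b = 1 := fun b => by simp only [d]; split_ifs <;> simp [hε]
  let w : KK ι κ := (⟨SP (Equiv.swap a j) d, (ort_iff _).2 (SP_ort _ hd)⟩,
    ⟨SP (Equiv.swap (f a) (f j)) fun _ => 1, (ort_iff _).2 (SP_ort _ fun _ => one_mul 1)⟩)
  have hw : ∀ (k : KK ι κ) (b : ι), cc f B (w * k).1.1 (w * k).2.1 b =
      d b * cc f B k.1.1 k.2.1 (Equiv.swap a j b) := by
    intro k b
    change (SP (Equiv.swap a j) d * k.1.1 * of B *
      (SP (Equiv.swap (f a) (f j)) (fun _ => 1) * k.2.1)ᵀ) b (f b) = _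
    have e1 : SP (Equiv.swap a j) d * k.1.1 * of B *
        (SP (Equiv.swap (f a) (f j)) (fun _ => 1) * k.2.1)ᵀ = SP (Equiv.swap a j) d *
        (k.1.1 * of B * k.2.1ᵀ * (SP (Equiv.swap (f a) (f j)) fun _ => 1)ᵀ) := by
      rw [transpose_mul]; simp only [Matrix.mul_assoc]
    rw [e1, SP_mul, mul_SP, mul_one, f.injective.swap_apply]; rfl
  have hs : ∀ g : ι → ℝ, ∑ b, g b = g a + g j + ∑ b ∈ (univ.erase a).erase j, g b := by
    intro g
    rw [← add_sum_erase _ _ (mem_univ a), ← add_sum_erase _ _ (mem_erase.2 ⟨h.symm, mem_univ j⟩),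
      add_assoc]
  have h1 := refl_step ν (y := fun k : KK ι κ => cc f B k.1.1 k.2.1 a - ε * cc f B k.1.1 k.2.1 j)
    (T := fun k : KK ι κ => (∑ b, s b * cc f B k.1.1 k.2.1 b) / r)
    ((cc_cont f B a).sub ((cc_cont f B j).const_mul ε))
    ((continuous_finsetSum _ fun b _ => (cc_cont f B b).const_mul _).div_const r) w
    (p := (s a - ε * s j) / r) (fun k => by
      simp only [hw, d, true_or, or_true, if_true, Equiv.swap_apply_left, Equiv.swap_apply_right]
      linear_combination (-cc f B k.1.1 k.2.1 a) * hε) (fun k => by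
      simp only [hw]
      rw [hs, hs fun b => s b * cc f B k.1.1 k.2.1 b]
      have e2 : ∑ b ∈ (univ.erase a).erase j, s b * (d b * cc f B k.1.1 k.2.1 (Equiv.swap a j b)) =
          ∑ b ∈ (univ.erase a).erase j, s b * cc f B k.1.1 k.2.1 b := by
        refine sum_congr rfl fun b hb => ?_
        have b1 := ne_of_mem_erase hb
        have b2 := ne_of_mem_erase (mem_of_mem_erase hb)
        simp [d, b1, b2, Equiv.swap_apply_of_ne_of_ne b2 b1]
      rw [e2]
      simp only [d, true_or, or_true, if_true, Equiv.swap_apply_left, Equiv.swap_apply_right]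
      field_simp
      linear_combination (s j * cc f B k.1.1 k.2.1 j) * hε)
  have h2 := mul_nonneg (mul_nonneg hC hr.le) h1
  rw [← integral_const_mul] at h2
  refine h2.trans_eq (integral_congr_ae (Filter.Eventually.of_forall fun k => ?_))
  simp only [e]
  field_simp

theorem inner_nonneg [CompactSpace (KK ι κ)] [MeasurableSpace (KK ι κ)] [BorelSpace (KK ι κ)]
    (ν : Measure (KK ι κ)) [IsFiniteMeasure ν] [ν.IsMulLeftInvariant] (ht : 0 ≤ t) (hη : 0 < η)
    (f : ι ↪ κ) (B : ι → κ → ℝ) (s : ι → ℝ) {r : ℝ} (hr : 0 < r) :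
    0 ≤ ∫ k : KK ι κ, (∑ a, xx t η s a * cc f B k.1.1 k.2.1 a) *
      Real.exp ((∑ b, s b * cc f B k.1.1 k.2.1 b) / r) ∂ν := by
  let g : ι → ι → ℝ → KK ι κ → ℝ := fun a j ε k => ph t η (s a) (ε * s j) *
      (cc f B k.1.1 k.2.1 a - ε * cc f B k.1.1 k.2.1 j) *
      Real.exp ((∑ b, s b * cc f B k.1.1 k.2.1 b) / r)
  have hg : ∀ a j ε, Integrable (g a j ε) ν := fun a j ε =>
    Continuous.integrable_of_hasCompactSupport
      ((((cc_cont f B a).sub ((cc_cont f B j).const_mul ε)).const_mul _).mul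
        (Real.continuous_exp.comp
          ((continuous_finsetSum _ fun b _ => (cc_cont f B b).const_mul _).div_const r)))
      (HasCompactSupport.of_compactSpace _)
  have e : ∀ k : KK ι κ, (∑ a, xx t η s a * cc f B k.1.1 k.2.1 a) *
      Real.exp ((∑ b, s b * cc f B k.1.1 k.2.1 b) / r) =
      1 / 2 * ∑ a, ∑ j ∈ univ.erase a, (g a j 1 k + g a j (-1) k) := by
    intro k
    have e1 := sum_symm fun a j => ps t η (s a) (s j) * cc f B k.1.1 k.2.1 a
    have e2 : ∑ a, ∑ j ∈ univ.erase a, (g a j 1 k + g a j (-1) k) =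
        (∑ a, ∑ j ∈ univ.erase a, ps t η (s a) (s j) * cc f B k.1.1 k.2.1 a +
        ∑ a, ∑ j ∈ univ.erase a, ps t η (s j) (s a) * cc f B k.1.1 k.2.1 j) *
        Real.exp ((∑ b, s b * cc f B k.1.1 k.2.1 b) / r) := by
      simp only [← sum_add_distrib, sum_mul]
      refine sum_congr rfl fun a _ => sum_congr rfl fun j _ => ?_
      simp only [g, ps, one_mul, neg_mul]
      rw [ph_swap (s a) (s j), ph_cross (s a) (s j)]; ring
    rw [e2, ← e1]
    simp only [xx, sum_mul (s := univ.erase _)]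
    ring
  simp only [e]
  have hg2 : ∀ a j, Integrable (fun k => g a j 1 k + g a j (-1) k) ν := fun a j =>
    (hg a j 1).add (hg a j (-1))
  rw [integral_const_mul, integral_finsetSum _ fun a _ =>
    integrable_finsetSum _ fun j _ => hg2 a j]
  refine mul_nonneg (by norm_num) (sum_nonneg fun a _ => ?_)
  rw [integral_finsetSum _ fun j _ => hg2 a j]
  refine sum_nonneg fun j hj => ?_
  rw [integral_add (hg a j 1) (hg a j (-1))]
  exact add_nonneg (root_nonneg ν ht hη f B s hr (ne_of_mem_erase hj).symm (one_mul 1))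
    (root_nonneg ν ht hη f B s hr (ne_of_mem_erase hj).symm (by norm_num))

end Gp429
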