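import Pool.Agent.P.MP_429aeb_pr.GpHaar

/-! The sharp gap bound. -/

open Finset Matrix MeasureTheory ProbabilityTheory
open scoped NNReal ENNReal

namespace Gp429

variable {ι κ : Type*} [Fintype ι] [DecidableEq ι] [Fintype κ] [DecidableEq κ] {t η : ℝ}
  {v : ℝ≥0}

/-- The singular values. -/
noncomputable def sv (A : Matrix ι κ ℝ) (i : ι) : ℝ :=
  Real.sqrt ((isHermitian_mul_conjTranspose_self A).eigenvalues i)

theorem svdE (f : ι ↪ κ) (A : ι → κ → ℝ) : ∃ (U : Matrix ι ι ℝ) (V : Matrix κ κ ℝ),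
    Ort U ∧ Ort V ∧ A = actL U V (DE f (sv (of A))) := by
  obtain ⟨U, V, h1, h2, h3⟩ := svd f (of A)
  exact ⟨U, V, h1, h2, h3⟩

theorem P1_XE (ht : 0 ≤ t) (hη : 0 < η) (f : ι ↪ κ) (B : ι → κ → ℝ) (a : ι) (b : κ) :
    P1 fun G : ι → κ → ℝ => XE t η (B + G) a b :=
  PM.XX ht hη f (F := fun G : ι → κ → ℝ => of (B + G))
    (fun i j => (P1.const (B i j)).add (P1.coord i j)) a b

theorem shift_nonneg (hv : v ≠ 0) (ht : 0 ≤ t) (hη : 0 < η) (f : ι ↪ κ) (B : ι → κ → ℝ) :
    0 ≤ ∫ G, ip (XE t η (B + G)) B ∂PP ι κ v := by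
  have hv' : (0 : ℝ) < v := by positivity
  have := compact_ort (κ := ι)
  have := compact_ort (κ := κ)
  have : SecondCountableTopology (Matrix ι ι ℝ) :=
    inferInstanceAs (SecondCountableTopology (ι → ι → ℝ))
  have : SecondCountableTopology (Matrix κ κ ℝ) :=
    inferInstanceAs (SecondCountableTopology (κ → κ → ℝ))
  let _ : MeasurableSpace (KK ι κ) := borel _
  have : BorelSpace (KK ι κ) := ⟨rfl⟩
  let ν : Measure (KK ι κ) := Measure.haarMeasure ⊤
  have : IsProbabilityMeasure ν := ⟨Measure.haarMeasure_self (K₀ := ⊤)⟩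
  let h : (ι → κ → ℝ) → ℝ := fun A => ip (XE t η A) B * rho v (A - B)
  have hP : P1 fun G : ι → κ → ℝ => ip (XE t η (B + G)) B :=
    P1.sum univ fun a => P1.sum univ fun b => (P1_XE ht hη f B a b).mul (P1.const _)
  have hi : Integrable h (mu ι κ) := by
    have := (integrable_mu hv hP.integrable).comp_sub_right B
    simpa only [add_sub_cancel] using this
  have hJ : ∫ G, ip (XE t η (B + G)) B ∂PP ι κ v = ∫ A, h A ∂mu ι κ := by
    rw [int_PP hv, ← integral_sub_right_eq_self _ B]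
    simp only [add_sub_cancel, h]
  have hc : Continuous h := by
    have h1 := (XE_contDiff ht hη f).continuous
    refine Continuous.mul ?_ (rho_cont.comp (continuous_id.sub continuous_const))
    unfold ip
    fun_prop
  have hp : ∀ k : KK ι κ, MeasurePreserving (actL k.1.1 k.2.1) (mu ι κ) (mu ι κ) := fun k =>
    act_pres ((ort_iff _).1 k.1.2) ((ort_iff _).1 k.2.2)
  have hint : ∀ (g : (ι → κ → ℝ) → ℝ), Continuous g → ∀ k : KK ι κ,
      ∫ A, g (actL k.1.1 k.2.1 A) ∂mu ι κ = ∫ A, g A ∂mu ι κ := by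
    intro g hg k
    rw [← integral_map (hp k).measurable.aemeasurable hg.measurable.aestronglyMeasurable,
      (hp k).map_eq]
  have hact : Continuous fun p : KK ι κ × (ι → κ → ℝ) => actL p.1.1.1 p.1.2.1 p.2 := by
    have h1 : Continuous fun p : KK ι κ × (ι → κ → ℝ) => p.1.1.1 :=
      continuous_subtype_val.comp (continuous_fst.comp continuous_fst)
    have h2 : Continuous fun p : KK ι κ × (ι → κ → ℝ) => p.1.2.1 :=
      continuous_subtype_val.comp (continuous_snd.comp continuous_fst)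
    have h3 : Continuous fun p : KK ι κ × (ι → κ → ℝ) => of p.2 := continuous_snd
    exact continuous_pi fun a => continuous_pi fun b =>
      ((h1.matrix_transpose.matrix_mul h3).matrix_mul h2).matrix_elem a b
  have hI : Integrable (Function.uncurry fun (k : KK ι κ) (A : ι → κ → ℝ) =>
      h (actL k.1.1 k.2.1 A)) (ν.prod (mu ι κ)) := by
    refine (integrable_prod_iff (hc.comp hact).measurable.aestronglyMeasurable).2 ⟨?_, ?_⟩
    · exact Filter.Eventually.of_forall fun k => (hp k).integrable_comp_of_integrable hi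
    · have e : ∀ k : KK ι κ, ∫ A, ‖h (actL k.1.1 k.2.1 A)‖ ∂mu ι κ = ∫ A, ‖h A‖ ∂mu ι κ :=
        hint (fun A => ‖h A‖) hc.norm
      simp only [Function.comp_apply, e]
      exact integrable_const _
  have hs := integral_integral_swap hI
  simp only [hint h hc, integral_const, probReal_univ, smul_eq_mul, one_mul] at hs
  rw [hJ, hs]
  refine integral_nonneg fun A => ?_
  obtain ⟨U, V, hU, hV, hA⟩ := svdE f A
  generalize sv (of A) = s at hA
  subst hA
  let k0 : KK ι κ := (⟨U, (ort_iff _).2 hU⟩, ⟨V, (ort_iff _).2 hV⟩)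
  have h1 := integral_mul_left_eq_self (μ := ν)
    (fun k : KK ι κ => h (actL k.1.1 k.2.1 (DE f s))) k0
  have e1 : ∀ k : KK ι κ, h (actL k.1.1 k.2.1 (actL U V (DE f s))) =
      h (actL (k0 * k).1.1 (k0 * k).2.1 (DE f s)) := fun k => by rw [actL_actL]; rfl
  have e2 : ∀ k : KK ι κ, h (actL k.1.1 k.2.1 (DE f s)) =
      (rho v (DE f s) * Real.exp (-(ip B B) / (2 * v))) *
      ((∑ a, xx t η s a * cc f B k.1.1 k.2.1 a) *
        Real.exp ((∑ b, s b * cc f B k.1.1 k.2.1 b) / v)) := by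
    intro k
    have o1 := (ort_iff _).1 k.1.2
    have o2 := (ort_iff _).1 k.2.2
    have e3 := ip_expand (actL k.1.1 k.2.1 (DE f s)) B (-1)
    rw [neg_one_smul, ← sub_eq_add_neg, ip_act o1 o2, ip_cc f B o1 o2] at e3
    simp only [h, rho]
    rw [XE_act ht hη f o1 o2, XE_DE ht hη, ip_cc f B o1 o2, e3]
    have e4 : -(ip (DE f s) (DE f s) + 2 * -1 * ∑ a, s a * cc f B k.1.1 k.2.1 a +
        (-1) ^ 2 * ip B B) / (2 * (v : ℝ)) = -(ip (DE f s) (DE f s)) / (2 * v) +
        -(ip B B) / (2 * v) + (∑ a, s a * cc f B k.1.1 k.2.1 a) / v := by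
      field_simp; ring
    rw [e4, Real.exp_add, Real.exp_add]; ring
  change 0 ≤ ∫ k : KK ι κ, h (actL k.1.1 k.2.1 (actL U V (DE f s))) ∂ν
  simp only [e1]
  rw [h1]
  simp only [e2]
  rw [integral_const_mul]
  exact mul_nonneg (mul_nonneg (rho_nonneg _) (Real.exp_pos _).le)
    (inner_nonneg ν ht hη f B s hv')

theorem ip_XE_le (ht : 0 ≤ t) (hη : 0 < η) (f : ι ↪ κ) (A : ι → κ → ℝ) :
    ip (XE t η A) A ≤ ((Fintype.card ι : ℝ) - 1) * (2 * t * ip A A + Fintype.card ι * η) := by
  obtain ⟨U, V, hU, hV, hA⟩ := svdE f A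
  generalize sv (of A) = s at hA
  subst hA
  rw [XE_act ht hη f hU hV, ip_act hU hV, ip_act hU hV, XE_DE ht hη, ip_DE, ip_DE]
  have := inner_le ht hη s
  simpa [DE, DD, pow_two] using this

theorem mean_dv (hv : v ≠ 0) (ht : 0 ≤ t) (hη : 0 < η) (f : ι ↪ κ) (B : ι → κ → ℝ) :
    Integrable (fun G => dv t η (B + G)) (PP ι κ v) ∧ ∫ G, dv t η (B + G) ∂PP ι κ v ≤
      ((Fintype.card ι : ℝ) - 1) * (2 * t * (ip B B + Fintype.card ι * Fintype.card κ * v) +
        Fintype.card ι * η) / v := by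
  have hv' : (0 : ℝ) < v := by positivity
  have hd := (XE_contDiff ht hη f).differentiable one_ne_zero
  have hX := P1_XE ht hη f B
  have e : ∀ G, dv t η (B + G) =
      ∑ a, ∑ b, fderiv ℝ (fun G : ι → κ → ℝ => XE t η (B + G) a b) G (EE a b) := by
    intro G
    refine sum_congr rfl fun a _ => sum_congr rfl fun b _ => ?_
    rw [fderiv_comp_add_left (f := fun A : ι → κ → ℝ => XE t η A a b),
      (hasFDerivAt_pi'.1 (hasFDerivAt_pi'.1 (hd (B + G)).hasFDerivAt a) b).fderiv]
    rfl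
  simp only [e]
  refine ⟨integrable_finsetSum _ fun a _ => integrable_finsetSum _ fun b _ =>
    (hX a b).integrable' _, ?_⟩
  rw [integral_finsetSum _ fun a _ => integrable_finsetSum _ fun b _ => (hX a b).integrable' _]
  simp only [fun a => integral_finsetSum (μ := PP ι κ v) univ
    fun b _ => (hX a b).integrable' (EE a b), fun a b => stein hv (hX a b) a b, ← sum_div]
  refine div_le_div_of_nonneg_right ?_ hv'.le
  have hQ : P1 fun G : ι → κ → ℝ => ip (B + G) (B + G) := P1.sum univ fun a => P1.sum univ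
    fun b => ((P1.const _).add (P1.coord a b)).mul ((P1.const _).add (P1.coord a b))
  have hP : P1 fun G : ι → κ → ℝ => ip (XE t η (B + G)) B :=
    P1.sum univ fun a => P1.sum univ fun b => (hX a b).mul (P1.const _)
  have hG : ∀ a b, P1 fun G : ι → κ → ℝ => XE t η (B + G) a b * G a b := fun a b =>
    (hX a b).mul (P1.coord a b)
  have e1 : ∑ a, ∑ b, ∫ G, XE t η (B + G) a b * G a b ∂PP ι κ v =
      ∫ G, ip (XE t η (B + G)) G ∂PP ι κ v := by
    unfold ip
    rw [integral_finsetSum _ fun a _ => (P1.sum univ (hG a)).integrable]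
    exact sum_congr rfl fun a _ => (integral_finsetSum _ fun b _ => (hG a b).integrable).symm
  have hR : P1 fun G : ι → κ → ℝ => ((Fintype.card ι : ℝ) - 1) *
      (2 * t * ip (B + G) (B + G) + Fintype.card ι * η) :=
    (P1.const _).mul (((P1.const _).mul hQ).add (P1.const _))
  have h1 : ∫ G, ip (XE t η (B + G)) G ∂PP ι κ v ≤ ∫ G, (((Fintype.card ι : ℝ) - 1) *
      (2 * t * ip (B + G) (B + G) + Fintype.card ι * η) - ip (XE t η (B + G)) B) ∂PP ι κ v := by
    refine integral_mono (P1.sum univ fun a => P1.sum univ (hG a)).integrable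
      (hR.sub hP).integrable fun G => ?_
    have h2 := ip_XE_le ht hη f (B + G)
    have h3 : ip (XE t η (B + G)) (B + G) = ip (XE t η (B + G)) B + ip (XE t η (B + G)) G := by
      simp only [ip, Pi.add_apply, mul_add, sum_add_distrib]
    change ip _ _ ≤ _ - _
    linarith
  rw [integral_sub hR.integrable hP.integrable, integral_const_mul, integral_add
    ((P1.const _).mul hQ).integrable (integrable_const _), integral_const_mul, mean_sq hv] at h1
  simp only [integral_const, probReal_univ, smul_eq_mul, one_mul] at h1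
  have := shift_nonneg hv ht hη f B
  rw [e1]; linarith

/-- The bound with a general threshold. -/
theorem gap_le (hv : v ≠ 0) (ht : 0 ≤ t) (hη : 0 < η) (f : ι ↪ κ) (B : ι → κ → ℝ) :
    (PP ι κ v).real {G | ∃ j k, j ≠ k ∧ (sv (of (B + G)) j - sv (of (B + G)) k) ^ 2 ≤
      ee t η (sv (of (B + G)) j) (sv (of (B + G)) k)} ≤
      ((Fintype.card ι : ℝ) - 1) * (2 * t * (ip B B + Fintype.card ι * Fintype.card κ * v) +
        Fintype.card ι * η) / v := by
  obtain ⟨h1, h2⟩ := mean_dv hv ht hη f B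
  have h3 : ∀ A : ι → κ → ℝ, FF t η (sv (of A)) ≤ dv t η A := by
    intro A
    obtain ⟨U, V, hU, hV, hA⟩ := svdE f A
    have := dv_svd ht hη f hU hV (sv (of A))
    rwa [← hA] at this
  have h4 := mul_meas_ge_le_integral_of_nonneg
    (Filter.Eventually.of_forall fun G => (FF_nonneg _).trans (h3 (B + G))) h1 1
  rw [one_mul] at h4
  refine le_trans (measureReal_mono ?_) (h4.trans h2)
  rintro G ⟨j, k, hjk, h⟩
  exact (FF_ge ht hη _ hjk h).trans (h3 (B + G))

theorem rel_gap_le (hv : v ≠ 0) (f : ι ↪ κ) (B : ι → κ → ℝ) {x : ℝ} (hx : 0 < x) :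
    (PP ι κ v).real {G | ∃ j k, j ≠ k ∧ sv (of (B + G)) k ≤ sv (of (B + G)) j ∧
      sv (of (B + G)) j - sv (of (B + G)) k ≤ sv (of (B + G)) k / x} ≤
      ((Fintype.card ι : ℝ) - 1) * (ip B B / v + Fintype.card ι * Fintype.card κ) / x ^ 2 := by
  have hv' : (0 : ℝ) < v := by positivity
  refine le_of_forall_pos_le_add fun ε hε => ?_
  set m : ℝ := (Fintype.card ι : ℝ) with hm
  have hm0 : 0 ≤ m := Nat.cast_nonneg _
  have hη : 0 < ε * v / (m ^ 2 + 1) := by positivity
  have h := gap_le hv (t := 1 / (2 * x ^ 2)) (by positivity) hη f B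
  refine le_trans (measureReal_mono ?_) (h.trans ?_)
  · rintro G ⟨j, k, hjk, h1, h2⟩
    refine ⟨j, k, hjk, ?_⟩
    have h0 : 0 ≤ sv (of (B + G)) k := Real.sqrt_nonneg _
    generalize sv (of (B + G)) j = p at *
    generalize sv (of (B + G)) k = q at *
    have h3 : (p - q) ^ 2 ≤ (q / x) ^ 2 := pow_le_pow_left₀ (by linarith) h2 2
    have h4 : (q / x) ^ 2 ≤ 1 / (2 * x ^ 2) * (p ^ 2 + q ^ 2) := by
      rw [div_pow, one_div_mul_eq_div, div_le_div_iff₀ (by positivity) (by positivity)]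
      have : q ^ 2 ≤ p ^ 2 := pow_le_pow_left₀ h0 h1 2
      nlinarith [mul_le_mul_of_nonneg_right this (sq_nonneg x)]
    unfold ee
    linarith
  · have e : (m - 1) * (2 * (1 / (2 * x ^ 2)) * (ip B B + m * Fintype.card κ * v) +
        m * (ε * v / (m ^ 2 + 1))) / v = (m - 1) * (ip B B / v + m * Fintype.card κ) / x ^ 2 +
        ε * ((m - 1) * m / (m ^ 2 + 1)) := by
      field_simp
    have h5 : (m - 1) * m / (m ^ 2 + 1) ≤ 1 := by
      rw [div_le_one (by positivity)]; nlinarith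
    rw [e]
    nlinarith

end Gp429
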