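import Pool.Agent.P.MP_429aeb_pr.GpAlg

/-! The equivariant rational vector field and the singular value decomposition. -/

open Finset Matrix Kronecker

namespace Gp429

variable {ι κ : Type*} [Fintype ι] [DecidableEq ι] [Fintype κ] [DecidableEq κ]

/-- The rectangular diagonal matrix. -/
def DD (f : ι ↪ κ) (s : ι → ℝ) : Matrix ι κ ℝ := Matrix.of fun i b => if b = f i then s i else 0

/-- An orthogonal conjugate of a diagonal matrix. -/
def cd (T : Matrix κ κ ℝ) (d : κ → ℝ) : Matrix κ κ ℝ := Tᵀ * diagonal d * T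

/-- Orthogonal matrices. -/
def Ort (T : Matrix κ κ ℝ) : Prop := T * Tᵀ = 1

theorem Ort.left {T : Matrix κ κ ℝ} (h : Ort T) : Tᵀ * T = 1 := mul_eq_one_comm.1 h

theorem Ort.mul {T S : Matrix κ κ ℝ} (h : Ort T) (h' : Ort S) : Ort (T * S) := by
  unfold Ort at *
  rw [transpose_mul, Matrix.mul_assoc, ← Matrix.mul_assoc S, h', Matrix.one_mul, h]

theorem Ort.tr {T : Matrix κ κ ℝ} (h : Ort T) : Ort Tᵀ := by
  unfold Ort; rw [transpose_transpose]; exact h.left

theorem ort_one : Ort (1 : Matrix κ κ ℝ) := by simp [Ort]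

theorem cd_mul {T : Matrix κ κ ℝ} (h : Ort T) (d e : κ → ℝ) :
    cd T d * cd T e = cd T fun x => d x * e x := by
  unfold cd
  rw [← diagonal_mul_diagonal]
  calc Tᵀ * diagonal d * T * (Tᵀ * diagonal e * T)
      = Tᵀ * diagonal d * (T * Tᵀ) * diagonal e * T := by simp only [Matrix.mul_assoc]
    _ = _ := by rw [h]; simp only [Matrix.mul_one, Matrix.mul_assoc]

theorem cd_add (T : Matrix κ κ ℝ) (d e : κ → ℝ) : cd T d + cd T e = cd T fun x => d x + e x := by
  unfold cd; rw [← diagonal_add, Matrix.mul_add, Matrix.add_mul]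

theorem cd_sub (T : Matrix κ κ ℝ) (d e : κ → ℝ) : cd T d - cd T e = cd T fun x => d x - e x := by
  unfold cd; rw [← diagonal_sub, Matrix.mul_sub, Matrix.sub_mul]

theorem cd_smul (T : Matrix κ κ ℝ) (c : ℝ) (d : κ → ℝ) : c • cd T d = cd T fun x => c * d x := by
  unfold cd
  rw [show (fun x => c * d x) = c • d from rfl, diagonal_smul, Matrix.mul_smul, Matrix.smul_mul]

theorem cd_one {T : Matrix κ κ ℝ} (h : Ort T) : cd T (fun _ => 1) = 1 := by
  unfold cd; rw [diagonal_one, Matrix.mul_one, h.left]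

theorem cd_inv {T : Matrix κ κ ℝ} (h : Ort T) (d : κ → ℝ) (hd : ∀ x, d x ≠ 0) :
    (cd T d)⁻¹ = cd T fun x => (d x)⁻¹ := by
  apply Matrix.inv_eq_right_inv
  rw [cd_mul h, ← cd_one h]
  congr 1; funext x; exact mul_inv_cancel₀ (hd x)

theorem cd_det {T : Matrix κ κ ℝ} (h : Ort T) (d : κ → ℝ) : (cd T d).det = ∏ x, d x := by
  have h1 : T.det * Tᵀ.det = 1 := by rw [← det_mul, h, det_one]
  unfold cd
  rw [det_mul, det_mul, det_diagonal]
  linear_combination (∏ x, d x) * h1

theorem cd_apply (T : Matrix κ κ ℝ) (d : κ → ℝ) (x y : κ) :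
    cd T d x y = ∑ z, T z x * d z * T z y := by
  unfold cd
  rw [Matrix.mul_apply]
  simp only [mul_diagonal, transpose_apply]

/-- The threshold as a matrix. -/
def eM (t η : ℝ) (a b : Matrix κ κ ℝ) : Matrix κ κ ℝ := t • (a + b) + η • (1 : Matrix κ κ ℝ)

/-- The denominator as a matrix. -/
def denM (t η : ℝ) (a b : Matrix κ κ ℝ) : Matrix κ κ ℝ :=
  (a - b) * (a - b) + (2 : ℝ) • (eM t η a b * (a + b)) + eM t η a b * eM t η a b

/-- The numerator as a matrix. -/
def numM (t η : ℝ) (a b : Matrix κ κ ℝ) : Matrix κ κ ℝ :=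
  (2 : ℝ) • (eM t η a b * (a - b + eM t η a b))

/-- Trace over the second factor, without the diagonal pairs. -/
def ptr (R : Matrix (ι × ι) (ι × ι) ℝ) : Matrix ι ι ℝ :=
  Matrix.of fun i k => ∑ j, (R (i, j) (k, j) - R (i, j) (j, k))

/-- The Gram matrix on the first factor. -/
def aM (A : Matrix ι κ ℝ) : Matrix (ι × ι) (ι × ι) ℝ := (A * Aᵀ) ⊗ₖ (1 : Matrix ι ι ℝ)

/-- The Gram matrix on the second factor. -/
def bM (A : Matrix ι κ ℝ) : Matrix (ι × ι) (ι × ι) ℝ := (1 : Matrix ι ι ℝ) ⊗ₖ (A * Aᵀ)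

/-- The vector field. -/
noncomputable def XX (t η : ℝ) (A : Matrix ι κ ℝ) : Matrix ι κ ℝ :=
  ptr (numM t η (aM A) (bM A) * (denM t η (aM A) (bM A))⁻¹) * A

variable {t η : ℝ}

theorem eM_cd {T : Matrix κ κ ℝ} (h : Ort T) (a b : κ → ℝ) :
    eM t η (cd T a) (cd T b) = cd T fun x => t * (a x + b x) + η := by
  unfold eM
  rw [← cd_one h, cd_add, cd_smul, cd_smul, cd_add]; simp

theorem denM_cd {T : Matrix κ κ ℝ} (h : Ort T) (a b : κ → ℝ) :
    denM t η (cd T a) (cd T b) = cd T fun x => den t η (a x) (b x) := by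
  unfold denM
  rw [eM_cd h]
  simp only [cd_sub, cd_add, cd_mul h, cd_smul]
  rfl

theorem numM_cd {T : Matrix κ κ ℝ} (h : Ort T) (a b : κ → ℝ) :
    numM t η (cd T a) (cd T b) = cd T fun x => num t η (a x) (b x) := by
  unfold numM
  rw [eM_cd h]
  simp only [cd_sub, cd_add, cd_mul h, cd_smul]
  rfl

theorem ort_kron {U : Matrix ι ι ℝ} (h : Ort U) : Ort (U ⊗ₖ U) := by
  unfold Ort
  rw [← kroneckerMap_transpose, ← mul_kronecker_mul, h, one_kronecker_one]

theorem cd_kron (U : Matrix ι ι ℝ) (d e : ι → ℝ) :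
    cd U d ⊗ₖ cd U e = cd (U ⊗ₖ U) fun x => d x.1 * e x.2 := by
  unfold cd
  rw [mul_kronecker_mul, mul_kronecker_mul, diagonal_kronecker_diagonal, kroneckerMap_transpose]

theorem Ort.row {U : Matrix ι ι ℝ} (h : Ort U) (a b : ι) :
    ∑ j, U a j * U b j = if a = b then 1 else 0 := by
  have := congrFun (congrFun h a) b
  simpa [Matrix.mul_apply, one_apply] using this

theorem ptr_cd {U : Matrix ι ι ℝ} (h : Ort U) (r : ι × ι → ℝ) :
    ptr (cd (U ⊗ₖ U) r) = cd U fun a => ∑ b ∈ univ.erase a, r (a, b) := by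
  ext i k
  simp only [ptr, of_apply, cd_apply, Fintype.sum_prod_type, kroneckerMap_apply, sum_sub_distrib]
  have e1 : ∑ j, ∑ a, ∑ b, U a i * U b j * r (a, b) * (U a k * U b j) =
      ∑ a, U a i * (∑ b, r (a, b)) * U a k := by
    rw [Finset.sum_comm]
    refine sum_congr rfl fun a _ => ?_
    rw [Finset.sum_comm, mul_sum, sum_mul]
    refine sum_congr rfl fun b _ => ?_
    have := h.row b b
    rw [if_pos rfl] at this
    calc _ = U a i * r (a, b) * U a k * ∑ j, U b j * U b j := by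
          rw [mul_sum]; exact sum_congr rfl fun j _ => by ring
      _ = _ := by rw [this, mul_one]
  have e2 : ∑ j, ∑ a, ∑ b, U a i * U b j * r (a, b) * (U a j * U b k) =
      ∑ a, U a i * r (a, a) * U a k := by
    rw [Finset.sum_comm]
    refine sum_congr rfl fun a _ => ?_
    rw [Finset.sum_comm]
    have : ∀ b, ∑ j, U a i * U b j * r (a, b) * (U a j * U b k) =
        if a = b then U a i * r (a, b) * U b k else 0 := by
      intro b
      calc _ = U a i * r (a, b) * U b k * ∑ j, U a j * U b j := by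
            rw [mul_sum]; exact sum_congr rfl fun j _ => by ring
        _ = _ := by rw [h.row a b]; split_ifs <;> simp
    simp only [this, sum_ite_eq, mem_univ, if_true]
  rw [e1, e2, ← sum_sub_distrib]
  refine sum_congr rfl fun a _ => ?_
  rw [← add_sum_erase univ (fun b => r (a, b)) (mem_univ a)]; ring

omit [Fintype ι] in
theorem DD_mul_tr (f : ι ↪ κ) (s : ι → ℝ) :
    DD f s * (DD f s)ᵀ = diagonal fun i => s i ^ 2 := by
  ext i j
  simp only [DD, Matrix.mul_apply, of_apply, transpose_apply, ite_mul, zero_mul, sum_ite_eq',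
    mem_univ, if_true, diagonal_apply, f.injective.eq_iff]
  split_ifs with h
  · rw [h]; ring
  · simp

omit [Fintype κ] in
theorem diag_mul_DD (f : ι ↪ κ) (d s : ι → ℝ) :
    diagonal d * DD f s = DD f fun i => d i * s i := by
  ext i b
  simp [DD, diagonal_mul]

theorem gram_svd (f : ι ↪ κ) (U : Matrix ι ι ℝ) {V : Matrix κ κ ℝ} (hV : Ort V) (s : ι → ℝ) :
    (Uᵀ * DD f s * V) * (Uᵀ * DD f s * V)ᵀ = cd U fun i => s i ^ 2 := by
  unfold cd
  rw [← DD_mul_tr f, transpose_mul, transpose_mul, transpose_transpose]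
  calc _ = Uᵀ * DD f s * (V * Vᵀ) * (DD f s)ᵀ * U := by simp only [Matrix.mul_assoc]
    _ = _ := by rw [hV]; simp only [Matrix.mul_one, Matrix.mul_assoc]

theorem aM_svd (f : ι ↪ κ) {U : Matrix ι ι ℝ} (hU : Ort U) {V : Matrix κ κ ℝ} (hV : Ort V)
    (s : ι → ℝ) : aM (Uᵀ * DD f s * V) = cd (U ⊗ₖ U) fun x => s x.1 ^ 2 := by
  unfold aM
  rw [gram_svd f U hV, ← cd_one hU, cd_kron]; simp

theorem bM_svd (f : ι ↪ κ) {U : Matrix ι ι ℝ} (hU : Ort U) {V : Matrix κ κ ℝ} (hV : Ort V)
    (s : ι → ℝ) : bM (Uᵀ * DD f s * V) = cd (U ⊗ₖ U) fun x => s x.2 ^ 2 := by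
  unfold bM
  rw [gram_svd f U hV, ← cd_one hU, cd_kron]; simp

/-- The multiplier of the singular value `s a`. -/
noncomputable def nu (t η : ℝ) (s : ι → ℝ) (a : ι) : ℝ :=
  ∑ j ∈ univ.erase a, num t η (s a ^ 2) (s j ^ 2) * (den t η (s a ^ 2) (s j ^ 2))⁻¹

theorem nu_mul (ht : 0 ≤ t) (hη : 0 < η) (s : ι → ℝ) (a : ι) :
    nu t η s a * s a = xx t η s a := by
  unfold nu xx
  rw [sum_mul]
  exact sum_congr rfl fun j _ => ps_eq ht hη _ _

theorem XX_svd (ht : 0 ≤ t) (hη : 0 < η) (f : ι ↪ κ) {U : Matrix ι ι ℝ} (hU : Ort U)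
    {V : Matrix κ κ ℝ} (hV : Ort V) (s : ι → ℝ) :
    XX t η (Uᵀ * DD f s * V) = Uᵀ * DD f (xx t η s) * V := by
  have hT := ort_kron hU
  unfold XX
  rw [aM_svd f hU hV, bM_svd f hU hV, numM_cd hT, denM_cd hT, cd_inv hT _ (fun x =>
    (lt_of_lt_of_le (by positivity) (den_ge ht hη (sq_nonneg _) (sq_nonneg _))).ne'),
    cd_mul hT, ptr_cd hU]
  have e : DD f (xx t η s) = diagonal (nu t η s) * DD f s := by
    rw [diag_mul_DD]; congr 1; funext a; exact (nu_mul ht hη s a).symm
  rw [e]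
  unfold cd
  calc _ = Uᵀ * diagonal (nu t η s) * (U * Uᵀ) * DD f s * V := by
        simp only [Matrix.mul_assoc]; rfl
    _ = _ := by rw [hU]; simp only [Matrix.mul_one, Matrix.mul_assoc]

theorem svd (f : ι ↪ κ) (A : Matrix ι κ ℝ) : ∃ (U : Matrix ι ι ℝ) (V : Matrix κ κ ℝ),
    Ort U ∧ Ort V ∧ A = Uᵀ * DD f
      (fun i => Real.sqrt ((isHermitian_mul_conjTranspose_self A).eigenvalues i)) * V := by
  set hM := isHermitian_mul_conjTranspose_self A
  set μ := hM.eigenvalues with hμ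
  set W : Matrix ι ι ℝ := (hM.eigenvectorUnitary : Matrix ι ι ℝ) with hW
  have hO : Ort W := by
    have : W * star W = 1 := hM.eigenvectorUnitary.2.2
    rwa [star_eq_conjTranspose, conjTranspose_eq_transpose_of_trivial W] at this
  have hsp : A * Aᵀ = W * diagonal μ * Wᵀ := by
    have : A * Aᴴ = W * diagonal μ * star W := hM.spectral_theorem
    rwa [star_eq_conjTranspose, conjTranspose_eq_transpose_of_trivial W,
      conjTranspose_eq_transpose_of_trivial A] at this
  set B := Wᵀ * A with hB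
  have hBB : B * Bᵀ = diagonal μ := by
    rw [hB, transpose_mul, transpose_transpose]
    calc _ = Wᵀ * (A * Aᵀ) * W := by simp only [Matrix.mul_assoc]
      _ = (Wᵀ * W) * diagonal μ * (Wᵀ * W) := by rw [hsp]; simp only [Matrix.mul_assoc]
      _ = _ := by rw [hO.left]; simp
  have hrow : ∀ i j, ∑ c, B i c * B j c = if i = j then μ i else 0 := by
    intro i j
    have := congrFun (congrFun hBB i) j
    simpa [Matrix.mul_apply, diagonal_apply] using this
  have hnn : ∀ i, 0 ≤ μ i := by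
    intro i
    have := hrow i i
    rw [if_pos rfl] at this
    rw [← this]; exact sum_nonneg fun c _ => mul_self_nonneg _
  let w : ι → EuclideanSpace ℝ κ := fun i => WithLp.toLp 2 fun c => (Real.sqrt (μ i))⁻¹ * B i c
  let v : κ → EuclideanSpace ℝ κ := Function.extend f w 0
  have hv : ∀ i, v (f i) = w i := fun i => f.injective.extend_apply _ _ i
  have hon : Orthonormal ℝ ((f '' {i | μ i ≠ 0}).domRestrict v) := by
    rw [orthonormal_iff_ite]
    rintro ⟨_, i, hi, rfl⟩ ⟨_, j, hj, rfl⟩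
    simp only [Set.domRestrict_apply, hv]
    have e : inner ℝ (w i) (w j) =
        (Real.sqrt (μ i))⁻¹ * (Real.sqrt (μ j))⁻¹ * ∑ c, B i c * B j c := by
      simp only [w, PiLp.inner_apply, RCLike.inner_apply, conj_trivial, mul_sum]
      exact sum_congr rfl fun c _ => by ring
    rw [e, hrow]
    by_cases h : i = j
    · subst h
      rw [if_pos rfl, if_pos rfl]
      have h1 : Real.sqrt (μ i) ≠ 0 := Real.sqrt_ne_zero'.2 (lt_of_le_of_ne (hnn i) (Ne.symm hi))
      have h2 := Real.mul_self_sqrt (hnn i)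
      field_simp
      nlinarith
    · rw [if_neg h, if_neg (fun h' => h (f.injective (congrArg Subtype.val h'))), mul_zero]
  obtain ⟨b, hb⟩ := hon.exists_orthonormalBasis_extension_of_card_eq (by simp)
  refine ⟨Wᵀ, Matrix.of fun x c => b x c, hO.tr, ?_, ?_⟩
  · ext x y
    have := orthonormal_iff_ite.1 b.orthonormal x y
    simp only [PiLp.inner_apply, RCLike.inner_apply, conj_trivial] at this
    simp only [Matrix.mul_apply, of_apply, transpose_apply, one_apply]
    rw [← this]; exact sum_congr rfl fun c _ => by ring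
  · have e : DD f (fun i => Real.sqrt (μ i)) * (Matrix.of fun x c => b x c) = B := by
      ext i c
      simp only [DD, Matrix.mul_apply, of_apply, ite_mul, zero_mul, sum_ite_eq', mem_univ, if_true]
      by_cases hi : μ i = 0
      · have h1 := hrow i i
        rw [if_pos rfl, hi] at h1
        have h2 := (sum_eq_zero_iff_of_nonneg fun c _ => mul_self_nonneg (B i c)).1 h1 c
          (mem_univ c)
        have h3 : B i c = 0 := mul_self_eq_zero.1 h2
        rw [hi, Real.sqrt_zero, zero_mul, h3]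
      · have h1 : Real.sqrt (μ i) ≠ 0 :=
          Real.sqrt_ne_zero'.2 (lt_of_le_of_ne (hnn i) (Ne.symm hi))
        rw [hb (f i) ⟨i, hi, rfl⟩, hv]
        simp only [w]
        field_simp
    rw [transpose_transpose, Matrix.mul_assoc, e, hB, ← Matrix.mul_assoc, hO, Matrix.one_mul]

theorem XX_act (ht : 0 ≤ t) (hη : 0 < η) (f : ι ↪ κ) {U : Matrix ι ι ℝ} (hU : Ort U)
    {V : Matrix κ κ ℝ} (hV : Ort V) (A : Matrix ι κ ℝ) :
    XX t η (Uᵀ * A * V) = Uᵀ * XX t η A * V := by
  obtain ⟨U0, V0, h1, h2, h3⟩ := svd f A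
  generalize (fun i => Real.sqrt ((isHermitian_mul_conjTranspose_self A).eigenvalues i)) = s at h3
  subst h3
  have e : ∀ B : Matrix ι κ ℝ, Uᵀ * (U0ᵀ * B * V0) * V = (U0 * U)ᵀ * B * (V0 * V) := fun B => by
    rw [transpose_mul]; simp only [Matrix.mul_assoc]
  rw [XX_svd ht hη f h1 h2, e, e, XX_svd ht hη f (h1.mul hU) (h2.mul hV)]

theorem det_ge (ht : 0 ≤ t) (hη : 0 < η) (f : ι ↪ κ) (A : Matrix ι κ ℝ) :
    (η ^ 2) ^ Fintype.card (ι × ι) ≤ (denM t η (aM A) (bM A)).det := by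
  obtain ⟨U0, V0, h1, h2, h3⟩ := svd f A
  generalize (fun i => Real.sqrt ((isHermitian_mul_conjTranspose_self A).eigenvalues i)) = s at h3
  subst h3
  rw [aM_svd f h1 h2, bM_svd f h1 h2, denM_cd (ort_kron h1), cd_det (ort_kron h1), ← card_univ,
    ← prod_const]
  exact prod_le_prod (fun _ _ => by positivity) fun x _ => den_ge ht hη (sq_nonneg _) (sq_nonneg _)

end Gp429
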