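import Mathlib

set_option autoImplicit false

open Matrix

namespace Pool.Agent.P.MP_429aeb_pr

/-- An orthonormal eigenbasis of a real symmetric matrix, in coordinates. -/
lemma exists_eigbasis {n : ℕ} (N : Matrix (Fin n) (Fin n) ℝ) (hN : N.IsHermitian) :
    ∃ v : Fin n → Fin n → ℝ, (∀ l, N *ᵥ v l = hN.eigenvalues l • v l) ∧
      (∀ l, v l ⬝ᵥ v l = 1) ∧ (∀ l l', l ≠ l' → v l ⬝ᵥ v l' = 0) ∧
      (∀ w : Fin n → ℝ, ∑ l, (v l ⬝ᵥ w) ^ 2 = w ⬝ᵥ w) := by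
  have key : ∀ a b : EuclideanSpace ℝ (Fin n), inner ℝ a b = (a.ofLp) ⬝ᵥ (b.ofLp) := by
    intro a b
    rw [EuclideanSpace.inner_eq_star_dotProduct, dotProduct_comm]
    simp
  refine ⟨fun l => (hN.eigenvectorBasis l).ofLp, fun l => hN.mulVec_eigenvectorBasis l, ?_, ?_, ?_⟩
  · intro l
    rw [← key, real_inner_self_eq_norm_sq, hN.eigenvectorBasis.orthonormal.1 l]
    norm_num
  · intro l l' h
    rw [← key]
    exact hN.eigenvectorBasis.orthonormal.2 h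
  · intro w
    have h := hN.eigenvectorBasis.sum_sq_inner_right (WithLp.toLp 2 w)
    rw [← real_inner_self_eq_norm_sq, key] at h
    simp only [key] at h
    exact h

lemma dot_self_nonneg {n : ℕ} (w : Fin n → ℝ) : 0 ≤ w ⬝ᵥ w :=
  Finset.sum_nonneg fun i _ => mul_self_nonneg (w i)

/-- If a symmetric matrix moves a nonzero vector within `ρ` of `c`, it has an eigenvalue
within `ρ` of `c`. -/
lemma exists_eig_near {n : ℕ} (N : Matrix (Fin n) (Fin n) ℝ) (hs : Nᵀ = N)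
    (v : Fin n → Fin n → ℝ) (μ : Fin n → ℝ) (hv : ∀ l, N *ᵥ v l = μ l • v l)
    (hP : ∀ w : Fin n → ℝ, ∑ l, (v l ⬝ᵥ w) ^ 2 = w ⬝ᵥ w)
    (w : Fin n → ℝ) (hw : 0 < w ⬝ᵥ w) (c ρ : ℝ)
    (h : (N *ᵥ w - c • w) ⬝ᵥ (N *ᵥ w - c • w) ≤ ρ ^ 2 * (w ⬝ᵥ w)) :
    ∃ l, (μ l - c) ^ 2 ≤ ρ ^ 2 := by
  by_contra hcon
  push Not at hcon
  have e : ∀ l, v l ⬝ᵥ (N *ᵥ w - c • w) = (μ l - c) * (v l ⬝ᵥ w) := by
    intro l
    rw [dotProduct_sub, dotProduct_smul, dotProduct_mulVec, ← mulVec_transpose, hs, hv,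
      smul_dotProduct]
    simp only [smul_eq_mul]; ring
  rw [← hP, ← hP w, Finset.mul_sum] at h
  have hex : ∃ l, v l ⬝ᵥ w ≠ 0 := by
    by_contra h0
    push Not at h0
    rw [← hP] at hw
    simp [h0] at hw
  obtain ⟨l0, hl0⟩ := hex
  have : ∑ l, ρ ^ 2 * (v l ⬝ᵥ w) ^ 2 < ∑ l, (v l ⬝ᵥ (N *ᵥ w - c • w)) ^ 2 := by
    apply Finset.sum_lt_sum
    · intro l _
      rw [e, mul_pow]
      exact mul_le_mul_of_nonneg_right (hcon l).le (sq_nonneg _)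
    · refine ⟨l0, Finset.mem_univ _, ?_⟩
      rw [e, mul_pow]
      exact mul_lt_mul_of_pos_right (hcon l0) (by positivity)
  linarith

lemma exists_ker {m n : ℕ} (hmn : m ≤ n) (B : Matrix (Fin m) (Fin n) ℝ) (i : Fin m)
    (hB : B i = 0) : ∃ w : Fin n → ℝ, 0 < w ⬝ᵥ w ∧ B *ᵥ w = 0 := by
  let f : (Fin n → ℝ) →ₗ[ℝ] ({p : Fin m // p ≠ i} → ℝ) :=
    (LinearMap.funLeft ℝ ℝ (fun p : {p : Fin m // p ≠ i} => p.1)).comp (Matrix.mulVecLin B)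
  have hlt : Module.finrank ℝ ({p : Fin m // p ≠ i} → ℝ) < Module.finrank ℝ (Fin n → ℝ) := by
    have hm : 0 < m := Fin.pos i
    simp [Fintype.card_subtype_compl]
    omega
  obtain ⟨w, hw, hw0⟩ := (Submodule.ne_bot_iff _).mp (LinearMap.ker_ne_bot_of_finrank_lt (f := f) hlt)
  refine ⟨w, ?_, ?_⟩
  · rcases (dot_self_nonneg w).lt_or_eq with h | h
    · exact h
    · exact absurd (dotProduct_self_eq_zero.mp h.symm) hw0
  · funext p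
    by_cases hp : p = i
    · subst hp
      simp [mulVec, hB]
    · have := congrFun (LinearMap.mem_ker.mp hw) ⟨p, hp⟩
      simpa [f, LinearMap.funLeft] using this

lemma dot_sq_le {n : ℕ} (u w : Fin n → ℝ) : (u ⬝ᵥ w) ^ 2 ≤ (u ⬝ᵥ u) * (w ⬝ᵥ w) := by
  have := Finset.sum_mul_sq_le_sq_mul_sq Finset.univ u w
  simpa [dotProduct, sq] using this

lemma real_step (a b μ α β γ : ℝ) (ha0 : 0 < a) (hb : 0 ≤ b) (hab : b ≤ a) (hμ1 : b ^ 2 ≤ μ)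
    (hμ2 : μ ≤ a ^ 2) (hkey : (μ - a ^ 2) * β = -(a ^ 2 * γ * α)) (hβ : β ^ 2 ≤ a ^ 2) :
    α ^ 2 * γ ^ 2 ≤ 4 * (a - b) ^ 2 := by
  have h1 : (a ^ 2 * γ * α) ^ 2 ≤ (a ^ 2 - b ^ 2) ^ 2 * a ^ 2 := by
    have : (a ^ 2 * γ * α) ^ 2 = (μ - a ^ 2) ^ 2 * β ^ 2 := by
      rw [← mul_pow (μ - a ^ 2), hkey]; ring
    rw [this]
    apply mul_le_mul _ hβ (sq_nonneg _) (sq_nonneg _)
    nlinarith
  have h2 : (a ^ 2 - b ^ 2) ^ 2 ≤ 4 * (a - b) ^ 2 * a ^ 2 := by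
    have : (a ^ 2 - b ^ 2) ^ 2 = (a - b) ^ 2 * (a + b) ^ 2 := by ring
    rw [this]
    have h3 : (a + b) ^ 2 ≤ 4 * a ^ 2 := by nlinarith
    nlinarith [mul_le_mul_of_nonneg_left h3 (sq_nonneg (a - b))]
  have h4 : 0 < a ^ 4 := by positivity
  have h5 : a ^ 4 * (α ^ 2 * γ ^ 2) ≤ a ^ 4 * (4 * (a - b) ^ 2) := by
    have h6 := mul_le_mul_of_nonneg_right h2 (sq_nonneg a)
    calc a ^ 4 * (α ^ 2 * γ ^ 2) = (a ^ 2 * γ * α) ^ 2 := by ring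
      _ ≤ 4 * (a - b) ^ 2 * a ^ 2 * a ^ 2 := h1.trans h6
      _ = _ := by ring
  exact le_of_mul_le_mul_left h5 h4

/-- The deterministic core: two close singular values force the removed row to be almost
orthogonal to an eigenvector of the Gram matrix of the other rows. -/
lemma core {m n : ℕ} (hmn : m ≤ n) (B : Matrix (Fin m) (Fin n) ℝ) (i : Fin m) (hB : B i = 0)
    (v : Fin n → Fin n → ℝ) (μ : Fin n → ℝ) (hv : ∀ l, (Bᵀ * B) *ᵥ v l = μ l • v l)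
    (hv1 : ∀ l, v l ⬝ᵥ v l = 1)
    (hP : ∀ w : Fin n → ℝ, ∑ l, (v l ⬝ᵥ w) ^ 2 = w ⬝ᵥ w)
    (r : Fin n → ℝ) (A : Matrix (Fin m) (Fin n) ℝ) (hA : A = B.updateRow i r)
    (y z : Fin m → ℝ) (a b : ℝ) (hy : y ⬝ᵥ y = 1) (hz : z ⬝ᵥ z = 1) (hyz : y ⬝ᵥ z = 0)
    (hb : 0 ≤ b) (hab : b ≤ a)
    (hya : (A * Aᵀ) *ᵥ y = a ^ 2 • y) (hzb : (A * Aᵀ) *ᵥ z = b ^ 2 • z) :
    ∃ l, (v l ⬝ᵥ r) ^ 2 * (y i) ^ 2 ≤ 4 * (a - b) ^ 2 := by
  have hAw : ∀ w : Fin n → ℝ, A *ᵥ w = B *ᵥ w + Pi.single i (r ⬝ᵥ w) := by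
    intro w
    funext p
    by_cases hp : p = i
    · subst hp
      simp [hA, mulVec, hB]
    · simp [hA, mulVec, updateRow_ne hp, Pi.single_eq_of_ne hp]
  have hAt : ∀ t : Fin m → ℝ, Aᵀ *ᵥ t = Bᵀ *ᵥ t + t i • r := by
    intro t
    apply (dotProduct_eq_iff).mp
    intro w
    rw [mulVec_transpose, ← dotProduct_mulVec, hAw, add_dotProduct, mulVec_transpose,
      ← dotProduct_mulVec, dotProduct_add, dotProduct_single, smul_dotProduct]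
    simp
  have hBi : ∀ w : Fin n → ℝ, (B *ᵥ w) i = 0 := by
    intro w; simp [mulVec, hB]
  have hBs : ∀ s : ℝ, Bᵀ *ᵥ Pi.single i s = 0 := by
    intro s
    funext q
    simp [mulVec_single, hB]
  have hN : ∀ w : Fin n → ℝ, (Bᵀ * B) *ᵥ w = Aᵀ *ᵥ (A *ᵥ w) - (r ⬝ᵥ w) • r := by
    intro w
    rw [hAt, hAw, mulVec_add, hBs, ← mulVec_mulVec]
    simp [hBi]
  set u1 := Aᵀ *ᵥ y with hu1
  set u2 := Aᵀ *ᵥ z with hu2
  have hAu1 : A *ᵥ u1 = a ^ 2 • y := by rw [hu1, mulVec_mulVec, hya]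
  have hAu2 : A *ᵥ u2 = b ^ 2 • z := by rw [hu2, mulVec_mulVec, hzb]
  have hdot : ∀ (t : Fin m → ℝ) (w : Fin n → ℝ), (Aᵀ *ᵥ t) ⬝ᵥ w = t ⬝ᵥ (A *ᵥ w) := by
    intro t w
    rw [mulVec_transpose, ← dotProduct_mulVec]
  have h11 : u1 ⬝ᵥ u1 = a ^ 2 := by
    conv_lhs => rw [hu1, hdot, ← hu1, hAu1]
    simp [hy]
  have h22 : u2 ⬝ᵥ u2 = b ^ 2 := by
    conv_lhs => rw [hu2, hdot, ← hu2, hAu2]
    simp [hz]
  have h12 : u1 ⬝ᵥ u2 = 0 := by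
    conv_lhs => rw [hu1, hdot, hAu2]
    simp [hyz]
  have h21 : u2 ⬝ᵥ u1 = 0 := by rw [dotProduct_comm, h12]
  have hNu1 : (Bᵀ * B) *ᵥ u1 = a ^ 2 • u1 - (r ⬝ᵥ u1) • r := by
    rw [hN, hAu1, mulVec_smul]
  have hNu2 : (Bᵀ * B) *ᵥ u2 = b ^ 2 • u2 - (r ⬝ᵥ u2) • r := by
    rw [hN, hAu2, mulVec_smul]
  have hr1 : r ⬝ᵥ u1 = a ^ 2 * y i := by
    have := congrFun hAu1 i
    rw [hAw] at this
    simpa [hBi] using this
  have hsym : (Bᵀ * B)ᵀ = Bᵀ * B := by simp [transpose_mul]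
  have ha : 0 ≤ a := hb.trans hab
  -- an eigenvalue between `b ^ 2` and `a ^ 2`
  have hex : ∃ l, (μ l - (a ^ 2 + b ^ 2) / 2) ^ 2 ≤ ((a ^ 2 - b ^ 2) / 2) ^ 2 := by
    rcases hb.lt_or_eq with hb0 | hb0
    · have ha0 : 0 < a := hb0.trans_le hab
      obtain ⟨s, t, hst, hrel⟩ : ∃ s t : ℝ, 0 < s ^ 2 + t ^ 2 ∧
          s * (r ⬝ᵥ u1) + t * (r ⬝ᵥ u2) = 0 := by
        by_cases h0 : r ⬝ᵥ u1 = 0
        · exact ⟨1, 0, by norm_num, by simp [h0]⟩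
        · refine ⟨r ⬝ᵥ u2, -(r ⬝ᵥ u1), ?_, by ring⟩
          have : 0 < (r ⬝ᵥ u1) ^ 2 := by positivity
          nlinarith [sq_nonneg (r ⬝ᵥ u2)]
      have hww : (s • u1 + t • u2) ⬝ᵥ (s • u1 + t • u2) = s ^ 2 * a ^ 2 + t ^ 2 * b ^ 2 := by
        simp only [add_dotProduct, dotProduct_add, smul_dotProduct, dotProduct_smul, h11, h22,
          h12, h21, smul_eq_mul]
        ring
      apply exists_eig_near _ hsym v μ hv hP (s • u1 + t • u2)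
      · rw [hww]
        have h1 : b ^ 2 ≤ a ^ 2 := by gcongr
        have h2 : 0 < b ^ 2 := by positivity
        nlinarith [sq_nonneg s, sq_nonneg t, mul_pos hst h2]
      · have : (Bᵀ * B) *ᵥ (s • u1 + t • u2) - ((a ^ 2 + b ^ 2) / 2) • (s • u1 + t • u2)
            = ((a ^ 2 - b ^ 2) / 2) • (s • u1 - t • u2) := by
          rw [mulVec_add, mulVec_smul, mulVec_smul, hNu1, hNu2]
          funext q
          simp only [Pi.add_apply, Pi.sub_apply, Pi.smul_apply, smul_eq_mul]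
          linear_combination (-(r q)) * hrel
        rw [this, hww]
        simp only [sub_dotProduct, dotProduct_sub, smul_dotProduct, dotProduct_smul, h11, h22,
          h12, h21, smul_eq_mul]
        apply le_of_eq
        ring
    · obtain ⟨w, hw, hBw⟩ := exists_ker hmn B i hB
      apply exists_eig_near _ hsym v μ hv hP w hw
      rw [← mulVec_mulVec, hBw, ← hb0]
      simp only [mulVec_zero, zero_sub, neg_dotProduct, dotProduct_neg, smul_dotProduct,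
        dotProduct_smul, smul_eq_mul]
      apply le_of_eq
      ring
  obtain ⟨l, hl⟩ := hex
  refine ⟨l, ?_⟩
  have hab2 : b ^ 2 ≤ a ^ 2 := by gcongr
  have hl' := abs_le_of_sq_le_sq' hl (by linarith)
  have hμ1 : b ^ 2 ≤ μ l := by linarith [hl'.1]
  have hμ2 : μ l ≤ a ^ 2 := by linarith [hl'.2]
  have hkey : (μ l - a ^ 2) * (v l ⬝ᵥ u1) = -(a ^ 2 * y i * (v l ⬝ᵥ r)) := by
    have h1 : v l ⬝ᵥ ((Bᵀ * B) *ᵥ u1) = μ l * (v l ⬝ᵥ u1) := by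
      rw [dotProduct_mulVec, ← mulVec_transpose, hsym, hv, smul_dotProduct, smul_eq_mul]
    rw [hNu1, dotProduct_sub, dotProduct_smul, dotProduct_smul, hr1] at h1
    simp only [smul_eq_mul] at h1
    linarith
  have hβ : (v l ⬝ᵥ u1) ^ 2 ≤ a ^ 2 := by
    have := dot_sq_le (v l) u1
    rwa [hv1, h11, one_mul] at this
  rcases ha.lt_or_eq with ha0 | ha0
  · exact real_step a b (μ l) _ _ _ ha0 hb hab hμ1 hμ2 hkey hβ
  · have hb0 : b = 0 := le_antisymm (ha0 ▸ hab) hb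
    have hμ0 : μ l = 0 := by
      rw [← ha0] at hμ2
      rw [hb0] at hμ1
      have h0 : (0 : ℝ) ^ 2 = 0 := by norm_num
      rw [h0] at hμ1 hμ2
      exact le_antisymm hμ2 hμ1
    have hBv : B *ᵥ v l = 0 := by
      apply dotProduct_self_eq_zero.mp
      have h1 : v l ⬝ᵥ ((Bᵀ * B) *ᵥ v l) = 0 := by rw [hv, hμ0]; simp
      rw [← mulVec_mulVec, dotProduct_comm, mulVec_transpose, ← dotProduct_mulVec] at h1
      exact h1
    have hu0 : u1 = 0 := by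
      apply dotProduct_self_eq_zero.mp
      rw [h11, ← ha0]; simp
    have h1 := hdot y (v l)
    rw [← hu1, hu0, hAw, hBv] at h1
    simp only [zero_dotProduct, zero_add, dotProduct_single] at h1
    have h2 : (v l ⬝ᵥ r) ^ 2 * (y i) ^ 2 = 0 := by
      rw [dotProduct_comm, ← mul_pow, mul_comm, ← h1]; simp
    rw [h2]
    positivity

end Pool.Agent.P.MP_429aeb_pr
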