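import Mathlib
import Pool.Agent.P.MP_429aeb_pr.LinAlg

set_option autoImplicit false

open Matrix MeasureTheory ProbabilityTheory
open scoped NNReal ENNReal

namespace Pool.Agent.P.MP_429aeb_pr

/-- Slicing a product probability measure along one coordinate. -/
lemma pi_le_of_slices {ι α : Type*} [Fintype ι] [DecidableEq ι] [MeasurableSpace α]
    (ν : Measure α) [IsProbabilityMeasure ν] (i : ι) (E : Set (ι → α)) (hE : MeasurableSet E)
    (p : ℝ≥0∞) (h : ∀ x : ι → α, ν {y | Function.update x i y ∈ E} ≤ p) :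
    Measure.pi (fun _ : ι => ν) E ≤ p := by
  have h1 : Measure.pi (fun _ : ι => ν) E
      = ∫⁻ x, E.indicator (fun _ => (1 : ℝ≥0∞)) x ∂(Measure.pi (fun _ : ι => ν)) := by
    rw [lintegral_indicator_const hE, one_mul]
  have h2 : p = ∫⁻ _x, p ∂(Measure.pi (fun _ : ι => ν)) := by simp
  rw [h1, h2]
  apply lintegral_le_of_lmarginal_le {i} (measurable_const.indicator hE) measurable_const
  rw [lmarginal_singleton, lmarginal_singleton]
  intro x
  have hm : MeasurableSet {y | Function.update x i y ∈ E} := (measurable_update x) hE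
  have h3 : (fun y => E.indicator (fun _ => (1 : ℝ≥0∞)) (Function.update x i y))
      = {y | Function.update x i y ∈ E}.indicator (fun _ => (1 : ℝ≥0∞)) := by
    funext y
    by_cases hy : Function.update x i y ∈ E
    · simp [hy]
    · simp [hy]
  simp only
  rw [h3, lintegral_indicator_const hm, one_mul]
  simpa using h x

lemma gauss_pdf_le (σ : ℝ≥0) (hσ : 0 < σ) (s : ℝ) : gaussianPDFReal 0 (σ ^ 2) s ≤ 1 / σ := by
  have hσ' : (0 : ℝ) < σ := hσ
  unfold gaussianPDFReal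
  have h1 : Real.exp (-(s - 0) ^ 2 / (2 * ((σ ^ 2 : ℝ≥0) : ℝ))) ≤ 1 := by
    apply Real.exp_le_one_iff.mpr
    apply div_nonpos_of_nonpos_of_nonneg
    · nlinarith [sq_nonneg (s - 0)]
    · positivity
  have h2 : (σ : ℝ) ≤ √(2 * Real.pi * ((σ ^ 2 : ℝ≥0) : ℝ)) := by
    apply Real.le_sqrt_of_sq_le
    push_cast
    nlinarith [Real.pi_gt_three, sq_nonneg (σ : ℝ)]
  calc _ ≤ (√(2 * Real.pi * ((σ ^ 2 : ℝ≥0) : ℝ)))⁻¹ * 1 := by gcongr
    _ ≤ 1 / σ := by
      rw [mul_one, one_div]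
      exact inv_anti₀ hσ' h2

lemma gauss_Icc_le (σ : ℝ≥0) (hσ : 0 < σ) (c d : ℝ) :
    gaussianReal 0 (σ ^ 2) (Set.Icc (c - d) (c + d)) ≤ ENNReal.ofReal (2 * d / σ) := by
  have hσ' : (0 : ℝ) < σ := hσ
  rw [gaussianReal_apply _ (by positivity)]
  calc ∫⁻ x in Set.Icc (c - d) (c + d), gaussianPDF 0 (σ ^ 2) x
      ≤ ∫⁻ _x in Set.Icc (c - d) (c + d), ENNReal.ofReal (1 / σ) := by
        apply lintegral_mono
        intro x
        exact ENNReal.ofReal_le_ofReal (gauss_pdf_le σ hσ x)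
    _ = ENNReal.ofReal (1 / σ) * ENNReal.ofReal (2 * d) := by
        rw [setLIntegral_const, Real.volume_Icc]
        congr 2
        ring
    _ = ENNReal.ofReal (2 * d / σ) := by
        rw [← ENNReal.ofReal_mul (by positivity)]
        congr 1
        ring

lemma exists_big_coord {n : ℕ} (v : Fin n → ℝ) (hv : v ⬝ᵥ v = 1) :
    ∃ l, 1 ≤ (n : ℝ) ^ 2 * (v l) ^ 2 := by
  by_contra hcon
  push Not at hcon
  have hn : 0 < n := by
    rcases Nat.eq_zero_or_pos n with h | h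
    · subst h; simp at hv
    · exact h
  have : Nonempty (Fin n) := ⟨⟨0, hn⟩⟩
  have hn1 : (1 : ℝ) ≤ n := by exact_mod_cast hn
  have h1 : ∑ l, (n : ℝ) * (v l) ^ 2 < ∑ _l : Fin n, (1 / n : ℝ) := by
    apply Finset.sum_lt_sum_of_nonempty Finset.univ_nonempty
    intro l _
    rw [lt_div_iff₀ (by positivity)]
    nlinarith [hcon l]
  rw [← Finset.mul_sum] at h1
  have h2 : ∑ l, (v l) ^ 2 = 1 := by
    rw [← hv]; simp [dotProduct, sq]
  rw [h2] at h1
  simp only [Finset.sum_const, Finset.card_univ, Fintype.card_fin, nsmul_eq_mul] at h1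
  rw [mul_one_div_cancel (by positivity)] at h1
  linarith

/-- Small-ball bound for a linear form of a shifted Gaussian vector. -/
lemma small_ball {n : ℕ} (σ : ℝ≥0) (hσ : 0 < σ) (v c : Fin n → ℝ) (hv : v ⬝ᵥ v = 1) (t : ℝ)
    (ht : 0 ≤ t) :
    Measure.pi (fun _ : Fin n => gaussianReal 0 (σ ^ 2)) {g | |v ⬝ᵥ (c + g)| ≤ t}
      ≤ ENNReal.ofReal (2 * (n * t) / σ) := by
  obtain ⟨l, hl⟩ := exists_big_coord v hv
  have hl0 : v l ≠ 0 := by
    intro h
    rw [h] at hl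
    norm_num at hl
  have hl1 : 1 ≤ (n : ℝ) * |v l| := by
    by_contra hc
    push Not at hc
    have h0 : 0 ≤ (n : ℝ) * |v l| := by positivity
    have : ((n : ℝ) * |v l|) ^ 2 < 1 := by nlinarith
    rw [mul_pow, sq_abs] at this
    linarith
  apply pi_le_of_slices _ l
  · apply IsClosed.measurableSet
    apply isClosed_le _ continuous_const
    fun_prop
  · intro x
    refine le_trans (measure_mono ?_)
      (gauss_Icc_le σ hσ (-(v ⬝ᵥ (c + Function.update x l 0)) / v l) (n * t))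
    intro s hs
    simp only [Set.mem_ofPred_eq] at hs
    have e : v ⬝ᵥ (c + Function.update x l s) = v ⬝ᵥ (c + Function.update x l 0) + v l * s := by
      have : c + Function.update x l s = (c + Function.update x l 0) + Pi.single l s := by
        funext q
        by_cases hq : q = l
        · subst hq; simp
        · simp [hq]
      rw [this, dotProduct_add _ (c + Function.update x l 0), dotProduct_single]
    rw [e] at hs
    set K := v ⬝ᵥ (c + Function.update x l 0)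
    have h2 : |s - (-K / v l)| ≤ n * t := by
      have h3 : s - (-K / v l) = (K + v l * s) / v l := by field_simp; ring
      rw [h3, abs_div, div_le_iff₀ (abs_pos.mpr hl0)]
      nlinarith
    rw [abs_le] at h2
    constructor <;> linarith [h2.1, h2.2]

lemma gauss_tail (σ : ℝ≥0) (hσ1 : σ ≤ 1) (T : ℝ) (hT : 0 < T) :
    gaussianReal 0 (σ ^ 2) {s | T ≤ |s|} ≤ ENNReal.ofReal (1 / T ^ 2) := by
  have h := meas_ge_le_variance_div_sq (μ := gaussianReal 0 (σ ^ 2)) (X := id)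
    (memLp_id_gaussianReal' 2 (by simp)) hT
  rw [variance_id_gaussianReal] at h
  simp only [id, integral_id_gaussianReal, sub_zero] at h
  refine h.trans (ENNReal.ofReal_le_ofReal ?_)
  have : ((σ ^ 2 : ℝ≥0) : ℝ) ≤ 1 := by
    have h1 : (σ : ℝ) ≤ 1 := hσ1
    have h0 : (0 : ℝ) ≤ σ := σ.2
    push_cast
    nlinarith
  gcongr

lemma entry_tail {m n : ℕ} (σ : ℝ≥0) (hσ1 : σ ≤ 1) (T : ℝ) (hT : 0 < T) (i : Fin m) (j : Fin n) :
    Measure.pi (fun _ : Fin m => Measure.pi (fun _ : Fin n => gaussianReal 0 (σ ^ 2)))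
      {G : Fin m → Fin n → ℝ | T ≤ |G i j|} ≤ ENNReal.ofReal (1 / T ^ 2) := by
  apply pi_le_of_slices _ i
  · apply IsClosed.measurableSet
    apply isClosed_le continuous_const
    fun_prop
  · intro x
    simp only [Set.mem_ofPred_eq, Function.update_self]
    apply pi_le_of_slices _ j
    · apply IsClosed.measurableSet
      apply isClosed_le continuous_const
      fun_prop
    · intro x'
      simp only [Set.mem_ofPred_eq, Function.update_self]
      exact gauss_tail σ hσ1 T hT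

/-- The closed event: entries bounded by `T`, two close singular values, and the left singular
vector of the larger one has a large `i`-th coordinate. -/
def ev {m n : ℕ} (Abar : Matrix (Fin m) (Fin n) ℝ) (T R η : ℝ) (i : Fin m) :
    Set (Fin m → Fin n → ℝ) :=
  {G | (∀ p q, |G p q| ≤ T) ∧ ∃ (y z : Fin m → ℝ) (a b : ℝ), y ⬝ᵥ y = 1 ∧ z ⬝ᵥ z = 1 ∧ y ⬝ᵥ z = 0 ∧
    0 ≤ b ∧ b ≤ a ∧ a ≤ R ∧ a - b ≤ η ∧
    ((Abar + Matrix.of G) * (Abar + Matrix.of G)ᵀ) *ᵥ y = a ^ 2 • y ∧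
    ((Abar + Matrix.of G) * (Abar + Matrix.of G)ᵀ) *ᵥ z = b ^ 2 • z ∧
    1 ≤ (m : ℝ) ^ 2 * (y i) ^ 2}

lemma abs_le_one_of_dot {m : ℕ} (y : Fin m → ℝ) (hy : y ⬝ᵥ y = 1) (p : Fin m) : |y p| ≤ 1 := by
  have h : y p * y p ≤ y ⬝ᵥ y :=
    Finset.single_le_sum (f := fun p => y p * y p) (fun p _ => mul_self_nonneg (y p))
      (Finset.mem_univ p)
  rw [hy] at h
  exact abs_le_one_iff_mul_self_le_one.mpr h

lemma ev_measurable {m n : ℕ} (Abar : Matrix (Fin m) (Fin n) ℝ) (T R η : ℝ) (i : Fin m) :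
    MeasurableSet (ev Abar T R η i) := by
  let S : Set ((Fin m → Fin n → ℝ) × (Fin m → ℝ) × (Fin m → ℝ) × ℝ × ℝ) :=
    {w | (∀ p q, |w.1 p q| ≤ T) ∧ w.2.1 ⬝ᵥ w.2.1 = 1 ∧ w.2.2.1 ⬝ᵥ w.2.2.1 = 1 ∧
      w.2.1 ⬝ᵥ w.2.2.1 = 0 ∧ 0 ≤ w.2.2.2.2 ∧ w.2.2.2.2 ≤ w.2.2.2.1 ∧ w.2.2.2.1 ≤ R ∧
      w.2.2.2.1 - w.2.2.2.2 ≤ η ∧
      ((Abar + Matrix.of w.1) * (Abar + Matrix.of w.1)ᵀ) *ᵥ w.2.1 = w.2.2.2.1 ^ 2 • w.2.1 ∧
      ((Abar + Matrix.of w.1) * (Abar + Matrix.of w.1)ᵀ) *ᵥ w.2.2.1 = w.2.2.2.2 ^ 2 • w.2.2.1 ∧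
      1 ≤ (m : ℝ) ^ 2 * (w.2.1 i) ^ 2}
  have hM : Continuous fun w : (Fin m → Fin n → ℝ) × (Fin m → ℝ) × (Fin m → ℝ) × ℝ × ℝ =>
      (Abar + Matrix.of w.1) := by
    apply continuous_const.add
    exact continuous_fst
  have hclosed : IsClosed S := by
    simp only [S, Set.ofPred_and, Set.ofPred_forall]
    refine IsClosed.inter (isClosed_iInter fun p => isClosed_iInter fun q =>
      isClosed_le (by fun_prop) continuous_const) ?_
    refine IsClosed.inter (isClosed_eq (by fun_prop) continuous_const) ?_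
    refine IsClosed.inter (isClosed_eq (by fun_prop) continuous_const) ?_
    refine IsClosed.inter (isClosed_eq (by fun_prop) continuous_const) ?_
    refine IsClosed.inter (isClosed_le continuous_const (by fun_prop)) ?_
    refine IsClosed.inter (isClosed_le (by fun_prop) (by fun_prop)) ?_
    refine IsClosed.inter (isClosed_le (by fun_prop) continuous_const) ?_
    refine IsClosed.inter (isClosed_le (by fun_prop) continuous_const) ?_
    refine IsClosed.inter (isClosed_eq ((hM.matrix_mul hM.matrix_transpose).matrix_mulVec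
      (by fun_prop)) (by fun_prop)) ?_
    refine IsClosed.inter (isClosed_eq ((hM.matrix_mul hM.matrix_transpose).matrix_mulVec
      (by fun_prop)) (by fun_prop)) ?_
    exact isClosed_le continuous_const (by fun_prop)
  have hK : IsCompact (Set.Icc (α := (Fin m → Fin n → ℝ) × (Fin m → ℝ) × (Fin m → ℝ) × ℝ × ℝ)
      (fun _ _ => -T, fun _ => -1, fun _ => -1, 0, 0) (fun _ _ => T, fun _ => 1, fun _ => 1, R, R)) :=
    isCompact_Icc
  have hS : IsCompact S := by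
    apply hK.of_isClosed_subset hclosed
    rintro ⟨G, y, z, a, b⟩ ⟨hG, hy, hz, -, hb, hab, haR, -⟩
    simp only at hG hy hz hb hab haR
    refine ⟨⟨fun p q => (abs_le.mp (hG p q)).1, fun p => (abs_le.mp (abs_le_one_of_dot y hy p)).1,
      fun p => (abs_le.mp (abs_le_one_of_dot z hz p)).1, hb.trans hab, hb⟩,
      ⟨fun p q => (abs_le.mp (hG p q)).2, fun p => (abs_le.mp (abs_le_one_of_dot y hy p)).2,
      fun p => (abs_le.mp (abs_le_one_of_dot z hz p)).2, haR, hab.trans haR⟩⟩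
  have himg : ev Abar T R η i = Prod.fst '' S := by
    ext G
    constructor
    · rintro ⟨hG, y, z, a, b, h⟩
      exact ⟨(G, y, z, a, b), ⟨hG, h⟩, rfl⟩
    · rintro ⟨⟨G', y, z, a, b⟩, ⟨hG, h⟩, rfl⟩
      exact ⟨hG, y, z, a, b, h⟩
  rw [himg]
  exact (hS.image continuous_fst).isClosed.measurableSet

lemma ev_le {m n : ℕ} (hmn : m ≤ n) (Abar : Matrix (Fin m) (Fin n) ℝ) (T R η : ℝ) (hη : 0 ≤ η)
    (i : Fin m) (σ : ℝ≥0) (hσ : 0 < σ) :
    Measure.pi (fun _ : Fin m => Measure.pi (fun _ : Fin n => gaussianReal 0 (σ ^ 2)))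
      (ev Abar T R η i) ≤ n * ENNReal.ofReal (2 * (n * (2 * m * η)) / σ) := by
  apply pi_le_of_slices _ i _ (ev_measurable Abar T R η i)
  intro x
  set B : Matrix (Fin m) (Fin n) ℝ := (Abar + Matrix.of x).updateRow i 0 with hBdef
  have hB : B i = 0 := by simp [hBdef]
  have hN : (Bᵀ * B).IsHermitian := by
    have := Matrix.isHermitian_conjTranspose_mul_self B
    rwa [conjTranspose_eq_transpose_of_trivial] at this
  obtain ⟨v, hv, hv1, -, hP⟩ := exists_eigbasis _ hN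
  have hsub : {g | Function.update x i g ∈ ev Abar T R η i}
      ⊆ ⋃ l, {g | |v l ⬝ᵥ (Abar i + g)| ≤ 2 * m * η} := by
    rintro g ⟨-, y, z, a, b, hy, hz, hyz, hb, hab, -, hη', hya, hzb, hyi⟩
    have hA : Abar + Matrix.of (Function.update x i g) = B.updateRow i (Abar i + g) := by
      ext p q
      by_cases hp : p = i
      · subst hp; simp
      · simp [hBdef, updateRow_ne hp, Function.update_of_ne hp]
    obtain ⟨l, hl⟩ := core hmn B i hB v _ hv hv1 hP _ _ hA y z a b hy hz hyz hb hab hya hzb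
    refine Set.mem_iUnion.mpr ⟨l, ?_⟩
    simp only [Set.mem_ofPred_eq]
    apply abs_le_of_sq_le_sq _ (by positivity)
    have h1 : (a - b) ^ 2 ≤ η ^ 2 := by
      apply pow_le_pow_left₀ (by linarith) hη'
    calc (v l ⬝ᵥ (Abar i + g)) ^ 2 = (v l ⬝ᵥ (Abar i + g)) ^ 2 * 1 := by ring
      _ ≤ (v l ⬝ᵥ (Abar i + g)) ^ 2 * ((m : ℝ) ^ 2 * (y i) ^ 2) := by gcongr
      _ = (m : ℝ) ^ 2 * ((v l ⬝ᵥ (Abar i + g)) ^ 2 * (y i) ^ 2) := by ring
      _ ≤ (m : ℝ) ^ 2 * (4 * η ^ 2) :=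
        mul_le_mul_of_nonneg_left (by linarith) (sq_nonneg _)
      _ = (2 * m * η) ^ 2 := by ring
  refine (measure_mono hsub).trans ((measure_iUnion_fintype_le _ _).trans ?_)
  calc _ ≤ ∑ _l : Fin n, ENNReal.ofReal (2 * (n * (2 * m * η)) / σ) :=
        Finset.sum_le_sum fun l _ => small_ball σ hσ (v l) (Abar i) (hv1 l) _ (by positivity)
    _ = _ := by simp

lemma quad_le {m n : ℕ} (hmn : m ≤ n) (A : Matrix (Fin m) (Fin n) ℝ) (M : ℝ) (hM : 0 ≤ M)
    (hA : ∀ p q, |A p q| ≤ M) (y : Fin m → ℝ) (hy : y ⬝ᵥ y = 1) (lam : ℝ)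
    (h : (A * Aᵀ) *ᵥ y = lam • y) : 0 ≤ lam ∧ lam ≤ (n * M) ^ 2 := by
  have h1 : lam = (Aᵀ *ᵥ y) ⬝ᵥ (Aᵀ *ᵥ y) := by
    conv_rhs => rw [mulVec_transpose, ← dotProduct_mulVec, ← mulVec_transpose, mulVec_mulVec, h]
    simp [hy]
  refine ⟨h1 ▸ dot_self_nonneg _, ?_⟩
  have h2 : ∀ q, (Aᵀ *ᵥ y) q * (Aᵀ *ᵥ y) q ≤ n * M ^ 2 := by
    intro q
    have h3 := dot_sq_le (Aᵀ q) y
    rw [hy, mul_one] at h3
    have h4 : Aᵀ q ⬝ᵥ Aᵀ q ≤ ∑ _p : Fin m, M ^ 2 := by
      apply Finset.sum_le_sum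
      intro p _
      have := hA p q
      rw [transpose_apply, ← sq, ← sq_abs]
      gcongr
    simp only [Finset.sum_const, Finset.card_univ, Fintype.card_fin, nsmul_eq_mul] at h4
    have h5 : (m : ℝ) * M ^ 2 ≤ n * M ^ 2 := by gcongr
    rw [← sq]
    exact h3.trans (h4.trans h5)
  rw [h1]
  calc (Aᵀ *ᵥ y) ⬝ᵥ (Aᵀ *ᵥ y) ≤ ∑ _q : Fin n, (n : ℝ) * M ^ 2 := Finset.sum_le_sum fun q _ => h2 q
    _ = (n * M) ^ 2 := by
      simp only [Finset.sum_const, Finset.card_univ, Fintype.card_fin, nsmul_eq_mul]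
      ring

lemma event_subset {m n : ℕ} (hmn : m ≤ n) (Abar : Matrix (Fin m) (Fin n) ℝ)
    (hAbar : (∑ i, ∑ j, Abar i j ^ 2) ≤ 1) (x T : ℝ) (hx : 0 < x) (hT : 1 ≤ T) :
    {G : Fin m → Fin n → ℝ | ∃ j k : Fin m, j ≠ k ∧
      Real.sqrt ((Matrix.isHermitian_mul_conjTranspose_self (Abar + Matrix.of G)).eigenvalues k)
        ≤ Real.sqrt ((Matrix.isHermitian_mul_conjTranspose_self (Abar + Matrix.of G)).eigenvalues j) ∧
      Real.sqrt ((Matrix.isHermitian_mul_conjTranspose_self (Abar + Matrix.of G)).eigenvalues j)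
        - Real.sqrt ((Matrix.isHermitian_mul_conjTranspose_self (Abar + Matrix.of G)).eigenvalues k)
        ≤ Real.sqrt ((Matrix.isHermitian_mul_conjTranspose_self (Abar + Matrix.of G)).eigenvalues k) / x}
      ⊆ (⋃ p, ⋃ q, {G : Fin m → Fin n → ℝ | T ≤ |G p q|}) ∪
        ⋃ i, ev Abar T (n * (2 * T)) (n * (2 * T) / x) i := by
  rintro G ⟨j, k, hjk, h1, h2⟩
  by_cases hG : ∃ p q, T ≤ |G p q|
  · obtain ⟨p, q, h⟩ := hG
    left
    exact Set.mem_iUnion.mpr ⟨p, Set.mem_iUnion.mpr ⟨q, h⟩⟩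
  right
  push Not at hG
  set hH := Matrix.isHermitian_mul_conjTranspose_self (Abar + Matrix.of G)
  obtain ⟨v, hv0, hv1, hv2, -⟩ := exists_eigbasis _ hH
  have hv : ∀ l, ((Abar + Matrix.of G) * (Abar + Matrix.of G)ᵀ) *ᵥ v l = hH.eigenvalues l • v l := by
    intro l
    rw [← conjTranspose_eq_transpose_of_trivial]
    exact hv0 l
  have hA : ∀ p q, |(Abar + Matrix.of G) p q| ≤ 2 * T := by
    intro p q
    have h3 : Abar p q ^ 2 ≤ 1 := by
      refine le_trans ?_ hAbar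
      calc Abar p q ^ 2 ≤ ∑ j, Abar p j ^ 2 :=
            Finset.single_le_sum (f := fun j => Abar p j ^ 2) (fun _ _ => sq_nonneg _)
              (Finset.mem_univ q)
        _ ≤ _ := Finset.single_le_sum (f := fun i => ∑ j, Abar i j ^ 2)
              (fun _ _ => Finset.sum_nonneg fun _ _ => sq_nonneg _) (Finset.mem_univ p)
    have h4 : |Abar p q| ≤ 1 := by
      rw [← sq_abs] at h3
      nlinarith [abs_nonneg (Abar p q)]
    have h5 := abs_add_le (Abar p q) (G p q)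
    have h6 := hG p q
    simp only [Matrix.add_apply, Matrix.of_apply]
    linarith
  have hj := quad_le hmn _ (2 * T) (by positivity) hA _ (hv1 j) _ (hv j)
  have hk := quad_le hmn _ (2 * T) (by positivity) hA _ (hv1 k) _ (hv k)
  obtain ⟨i, hi⟩ := exists_big_coord (v j) (hv1 j)
  have hR : 0 ≤ (n : ℝ) * (2 * T) := by positivity
  have hjR : Real.sqrt (hH.eigenvalues j) ≤ n * (2 * T) := Real.sqrt_le_iff.mpr ⟨hR, hj.2⟩
  refine Set.mem_iUnion.mpr ⟨i, fun p q => (hG p q).le, v j, v k, Real.sqrt (hH.eigenvalues j),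
    Real.sqrt (hH.eigenvalues k), hv1 j, hv1 k, hv2 j k hjk, Real.sqrt_nonneg _, h1, hjR, ?_, ?_,
    ?_, hi⟩
  · refine h2.trans ?_
    gcongr
    exact h1.trans hjR
  · rw [Real.sq_sqrt hj.1]; exact hv j
  · rw [Real.sq_sqrt hk.1]; exact hv k

theorem main (m n : ℕ) (hmn : m ≤ n) (Abar : Matrix (Fin m) (Fin n) ℝ)
    (hAbar : (∑ i, ∑ j, Abar i j ^ 2) ≤ 1) (σ : ℝ≥0) (hσ : 0 < σ) (hσ1 : σ ≤ 1) (x : ℝ)
    (hx : 1 < x) :
    (Measure.pi (fun _ : Fin m => Measure.pi (fun _ : Fin n => gaussianReal 0 (σ ^ 2))))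
    {G : Fin m → Fin n → ℝ | ∃ j k : Fin m, j ≠ k ∧
      Real.sqrt ((Matrix.isHermitian_mul_conjTranspose_self (Abar + Matrix.of G)).eigenvalues k)
        ≤ Real.sqrt ((Matrix.isHermitian_mul_conjTranspose_self (Abar + Matrix.of G)).eigenvalues j) ∧
      Real.sqrt ((Matrix.isHermitian_mul_conjTranspose_self (Abar + Matrix.of G)).eigenvalues j)
        - Real.sqrt ((Matrix.isHermitian_mul_conjTranspose_self (Abar + Matrix.of G)).eigenvalues k)
        ≤ Real.sqrt ((Matrix.isHermitian_mul_conjTranspose_self (Abar + Matrix.of G)).eigenvalues k) / x}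
      ≤ ENNReal.ofReal (9 * (n : ℝ) ^ (5 : ℝ) * x ^ (-(1 / 2 : ℝ)) * (σ : ℝ) ^ (-(1 : ℝ))) := by
  have hσ' : (0 : ℝ) < σ := hσ
  have hσ1' : (σ : ℝ) ≤ 1 := hσ1
  have hx0 : 0 < x := by linarith
  set T := Real.sqrt x with hTdef
  have hT1 : 1 ≤ T := Real.one_le_sqrt.mpr hx.le
  have hT0 : 0 < T := by linarith
  have hTT : T ^ 2 = x := Real.sq_sqrt hx0.le
  refine (measure_mono (event_subset hmn Abar hAbar x T hx0 hT1)).trans ?_
  refine (measure_union_le _ _).trans ?_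
  have hb1 : (Measure.pi (fun _ : Fin m => Measure.pi (fun _ : Fin n => gaussianReal 0 (σ ^ 2))))
      (⋃ p, ⋃ q, {G : Fin m → Fin n → ℝ | T ≤ |G p q|}) ≤ ENNReal.ofReal (m * (n * (1 / T ^ 2))) := by
    refine (measure_iUnion_fintype_le _ _).trans ?_
    calc _ ≤ ∑ _p : Fin m, ∑ _q : Fin n, ENNReal.ofReal (1 / T ^ 2) :=
          Finset.sum_le_sum fun p _ => (measure_iUnion_fintype_le _ _).trans
            (Finset.sum_le_sum fun q _ => entry_tail σ hσ1 T hT0 p q)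
      _ = _ := by
          rw [ENNReal.ofReal_mul (by positivity), ENNReal.ofReal_mul (by positivity)]
          simp
  have hb2 : (Measure.pi (fun _ : Fin m => Measure.pi (fun _ : Fin n => gaussianReal 0 (σ ^ 2))))
      (⋃ i, ev Abar T (n * (2 * T)) (n * (2 * T) / x) i)
      ≤ ENNReal.ofReal (m * (n * (2 * (n * (2 * m * (n * (2 * T) / x))) / σ))) := by
    refine (measure_iUnion_fintype_le _ _).trans ?_
    calc _ ≤ ∑ _i : Fin m, (n : ℝ≥0∞) * ENNReal.ofReal (2 * (n * (2 * m * (n * (2 * T) / x))) / σ) :=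
          Finset.sum_le_sum fun i _ => ev_le hmn Abar T _ _ (by positivity) i σ hσ
      _ = _ := by
          rw [ENNReal.ofReal_mul (p := m) (by positivity), ENNReal.ofReal_mul (p := n) (by positivity)]
          simp
  refine (add_le_add hb1 hb2).trans ?_
  rw [← ENNReal.ofReal_add (by positivity) (by positivity)]
  apply ENNReal.ofReal_le_ofReal
  have e1 : x ^ (-(1 / 2 : ℝ)) = 1 / T := by
    rw [Real.rpow_neg hx0.le, hTdef, Real.sqrt_eq_rpow, one_div (x ^ _)]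
  have e2 : (σ : ℝ) ^ (-(1 : ℝ)) = 1 / σ := by
    rw [Real.rpow_neg_one, one_div]
  have e3 : (n : ℝ) ^ (5 : ℝ) = (n : ℝ) ^ 5 := by
    rw [← Real.rpow_natCast]; norm_num
  rw [e1, e2, e3, ← hTT]
  have hmn' : (m : ℝ) ≤ n := by exact_mod_cast hmn
  have hn2 : (n : ℝ) ^ 2 ≤ (n : ℝ) ^ 5 := by
    rcases Nat.eq_zero_or_pos n with h | h
    · subst h; simp
    · exact pow_le_pow_right₀ (by exact_mod_cast h) (by norm_num)
  have t1 : (m : ℝ) * (n * (1 / T ^ 2)) ≤ (n : ℝ) ^ 5 * (1 / T) * (1 / σ) := by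
    have a1 : 1 / T ^ 2 ≤ 1 / T := by
      apply one_div_le_one_div_of_le hT0
      nlinarith
    have a2 : (1 : ℝ) ≤ 1 / σ := one_le_one_div hσ' hσ1'
    calc (m : ℝ) * (n * (1 / T ^ 2)) ≤ n * (n * (1 / T)) := by gcongr
      _ = (n : ℝ) ^ 2 * (1 / T) * 1 := by ring
      _ ≤ _ := by gcongr
  have t2 : (m : ℝ) * (n * (2 * (n * (2 * m * (n * (2 * T) / T ^ 2))) / σ))
      ≤ 8 * (n : ℝ) ^ 5 * (1 / T) * (1 / σ) := by
    calc (m : ℝ) * (n * (2 * (n * (2 * m * (n * (2 * T) / T ^ 2))) / σ))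
        ≤ n * (n * (2 * (n * (2 * n * (n * (2 * T) / T ^ 2))) / σ)) := by gcongr
      _ = _ := by field_simp; ring
  linarith

end Pool.Agent.P.MP_429aeb_pr
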